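import Pool.Agent.W_a4f561_h25.Def

/-!
MP_a4f561_co (BipLattice): walls of a planar st-structure (`Pl`), the two sides of a wall.
-/

set_option autoImplicit false

namespace Pool.Agent.W_a4f561_h34

open Sum Pool.Agent.W_a4f561_h25

variable {V E : Type}

/-- The list `W` of edges is a directed path from `a` to `b`. -/
def Pa (tl hd : E → V) : V → List E → V → Prop
  | a, [], b => a = b
  | a, e :: W, b => tl e = a ∧ Pa tl hd (hd e) W b

/-- `x` is below `y`. -/
def Bl (P : Pl V E) (x y : V ⊕ E) : Prop := P.lo x y ∧ P.ro x y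

/-- `s` is the only source and `t` the only sink. -/
structure StP (P : Pl V E) (s t : V) : Prop where
  src : ∀ e, P.hd e ≠ s
  snk : ∀ e, P.tl e ≠ t
  inn : ∀ v, v ≠ s → ∃ e, P.hd e = v
  out : ∀ v, v ≠ t → ∃ e, P.tl e = v

/-- The vertex `v` is on the path `W` from `s`. -/
def On (P : Pl V E) (s : V) (W : List E) (v : V) : Prop := v = s ∨ ∃ e ∈ W, P.hd e = v

/-- The edge or vertex `x` is right of `W`. -/
def Rg (P : Pl V E) (W : List E) (x : V ⊕ E) : Prop := ∃ e ∈ W, P.L (inr e) x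

/-- The edge or vertex `x` is left of `W`. -/
def Lg (P : Pl V E) (W : List E) (x : V ⊕ E) : Prop := ∃ e ∈ W, P.L x (inr e)

theorem pa_app {tl hd : E → V} {a b : V} {W W' : List E} :
    Pa tl hd a (W ++ W') b ↔ ∃ c, Pa tl hd a W c ∧ Pa tl hd c W' b := by
  induction W generalizing a with
  | nil =>
    constructor
    · intro h
      exact ⟨a, rfl, h⟩
    · rintro ⟨c, h1, h2⟩
      have h3 : a = c := h1
      subst h3
      exact h2
  | cons e W ih =>
    constructor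
    · rintro ⟨h1, h2⟩
      obtain ⟨c, h3, h4⟩ := ih.1 h2
      exact ⟨c, ⟨h1, h3⟩, h4⟩
    · rintro ⟨c, ⟨h1, h3⟩, h4⟩
      exact ⟨h1, ih.2 ⟨c, h3, h4⟩⟩

variable {P : Pl V E} {s t a b : V} {W : List E}

theorem Bl.tr {x y z : V ⊕ E} (h1 : Bl P x y) (h2 : Bl P y z) : Bl P x z :=
  ⟨P.lo_tr _ _ _ h1.1 h2.1, P.ro_tr _ _ _ h1.2 h2.2⟩

theorem bl_irr {x : V ⊕ E} : ¬ Bl P x x := fun h => P.lo_irr _ h.1

theorem bl_tl (e : E) : Bl P (inl (P.tl e)) (inr e) := ⟨P.tl_lo e, P.tl_ro e⟩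

theorem bl_hd (e : E) : Bl P (inr e) (inl (P.hd e)) := ⟨P.hd_lo e, P.hd_ro e⟩

/-- Any two different elements are comparable or side by side. -/
theorem four {x y : V ⊕ E} (h : x ≠ y) : Bl P x y ∨ Bl P y x ∨ P.L x y ∨ P.L y x := by
  rcases P.lo_tot x y h with h1 | h1 <;> rcases P.ro_tot x y h with h2 | h2
  · exact Or.inl ⟨h1, h2⟩
  · exact Or.inr (Or.inr (Or.inl ⟨h1, h2⟩))
  · exact Or.inr (Or.inr (Or.inr ⟨h1, h2⟩))
  · exact Or.inr (Or.inl ⟨h1, h2⟩)

private theorem waA_end (h : Pa P.tl P.hd a W b) : a = b ∨ Bl P (inl a) (inl b) := by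
  induction W generalizing a with
  | nil => exact Or.inl h
  | cons e W ih =>
    obtain ⟨h1, h2⟩ := h
    subst h1
    right
    rcases ih h2 with h3 | h3
    · rw [← h3]
      exact (bl_tl e).tr (bl_hd e)
    · exact ((bl_tl e).tr (bl_hd e)).tr h3

/-- The edges of a path are above its start and below its end, and form a chain. -/
theorem pa_lo (h : Pa P.tl P.hd a W b) {e : E} (he : e ∈ W) :
    (P.tl e = a ∨ Bl P (inl a) (inl (P.tl e))) ∧ (P.hd e = b ∨ Bl P (inl (P.hd e)) (inl b)) := by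
  induction W generalizing a with
  | nil => cases he
  | cons e0 W ih =>
    obtain ⟨h1, h2⟩ := h
    rcases List.mem_cons.1 he with h3 | h3
    · subst h3
      exact ⟨Or.inl h1, waA_end h2⟩
    · obtain ⟨h4, h5⟩ := ih h2 h3
      refine ⟨Or.inr ?_, h5⟩
      subst h1
      rcases h4 with h4 | h4
      · rw [h4]
        exact (bl_tl e0).tr (bl_hd e0)
      · exact ((bl_tl e0).tr (bl_hd e0)).tr h4

theorem pa_pw (h : Pa P.tl P.hd a W b) : W.Pairwise (fun e e' => Bl P (inr e) (inr e')) := by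
  induction W generalizing a with
  | nil => exact List.Pairwise.nil
  | cons e0 W ih =>
    obtain ⟨h1, h2⟩ := h
    refine List.Pairwise.cons ?_ (ih h2)
    intro e' he'
    rcases (pa_lo h2 he').1 with h4 | h4
    · have h5 := bl_tl (P := P) e'
      rw [h4] at h5
      exact (bl_hd e0).tr h5
    · exact ((bl_hd e0).tr h4).tr (bl_tl e')

theorem pa_comp (h : Pa P.tl P.hd a W b) {e e' : E} (he : e ∈ W) (he' : e' ∈ W) :
    e = e' ∨ Bl P (inr e) (inr e') ∨ Bl P (inr e') (inr e) := by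
  have h1 := pa_pw h
  clear h
  induction W with
  | nil => cases he
  | cons e0 W ih =>
    obtain ⟨h2, h3⟩ := List.pairwise_cons.1 h1
    rcases List.mem_cons.1 he with h4 | h4 <;> rcases List.mem_cons.1 he' with h5 | h5
    · exact Or.inl (h4.trans h5.symm)
    · subst h4
      exact Or.inr (Or.inl (h2 e' h5))
    · subst h5
      exact Or.inr (Or.inr (h2 e h4))
    · exact ih h4 h5 h3

/-- A vertex on a path splits it. -/
theorem pa_split (h : Pa P.tl P.hd a W b) {v : V} (hv : On P a W v) :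
    ∃ W1 W2, W = W1 ++ W2 ∧ Pa P.tl P.hd a W1 v ∧ Pa P.tl P.hd v W2 b := by
  induction W generalizing a with
  | nil =>
    rcases hv with h1 | ⟨e, h1, -⟩
    · subst h1
      exact ⟨[], [], rfl, rfl, h⟩
    · cases h1
  | cons e0 W ih =>
    rcases hv with h1 | ⟨e, h1, h2⟩
    · subst h1
      exact ⟨[], e0 :: W, rfl, rfl, h⟩
    · obtain ⟨h3, h4⟩ := h
      rcases List.mem_cons.1 h1 with h5 | h5
      · subst h5
        subst h2
        exact ⟨[e], W, rfl, ⟨h3, rfl⟩, h4⟩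
      · obtain ⟨W1, W2, h6, h7, h8⟩ := ih h4 (Or.inr ⟨e, h5, h2⟩)
        subst h6
        exact ⟨e0 :: W1, W2, rfl, ⟨h3, h7⟩, h8⟩

/-- Nothing is both right and left of a path. -/
theorem not_both (h : Pa P.tl P.hd a W b) {x : V ⊕ E} (h1 : Rg P W x) (h2 : Lg P W x) : False := by
  obtain ⟨e, he, h3, h4⟩ := h1
  obtain ⟨e', he', h5, h6⟩ := h2
  have h7 := P.lo_tr _ _ _ h3 h5
  have h8 := P.ro_tr _ _ _ h6 h4
  rcases pa_comp h he he' with h9 | h9 | h9
  · subst h9
    exact P.lo_irr _ h7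
  · exact P.ro_irr _ (P.ro_tr _ _ _ h9.2 h8)
  · exact P.lo_irr _ (P.lo_tr _ _ _ h9.1 h7)

theorem not_rg_mem (h : Pa P.tl P.hd a W b) {e : E} (he : e ∈ W) : ¬ Rg P W (inr e) := by
  rintro ⟨e', he', h1, h2⟩
  rcases pa_comp h he he' with h9 | h9 | h9
  · subst h9
    exact P.lo_irr _ h1
  · exact P.lo_irr _ (P.lo_tr _ _ _ h9.1 h1)
  · exact P.ro_irr _ (P.ro_tr _ _ _ h9.2 h2)

/-- The vertices of a path are not right of it. -/
theorem not_rg_on (h : Pa P.tl P.hd a W b) {v : V} (hv : On P a W v) : ¬ Rg P W (inl v) := by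
  rintro ⟨e', he', h1, h2⟩
  rcases hv with h3 | ⟨e, he, h3⟩
  · subst h3
    have h4 : Bl P (inl v) (inr e') := by
      rcases (pa_lo h he').1 with h5 | h5
      · have h6 := bl_tl (P := P) e'
        rw [h5] at h6
        exact h6
      · exact h5.tr (bl_tl e')
    exact P.lo_irr _ (P.lo_tr _ _ _ h4.1 h1)
  · subst h3
    rcases pa_comp h he he' with h9 | h9 | h9
    · subst h9
      exact P.ro_irr _ (P.ro_tr _ _ _ (P.hd_ro e) h2)
    · rcases P.up_e _ e h9.1 h9.2 with h5 | h5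
      · cases h5
      · exact P.lo_irr _ (P.lo_tr _ _ _ h5.1 h1)
    · exact P.ro_irr _ (P.ro_tr _ _ _ (h9.tr (bl_hd e)).2 h2)

end Pool.Agent.W_a4f561_h34
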