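import Pool.Agent.W_a4f561_h25.DwB

/-!
MP_a4f561_co (BipLattice): a drawing with one source and one sink gives a planar st-structure whose edges
are the real edges and two more edges, one into the source and one out of the sink (as in DwB, but
without gaps).
-/

set_option autoImplicit false

namespace Pool.Agent.W_a4f561_h34

open Sum Pool.Agent.W_a4f561_h25 Pool.Agent.W_a4f561_h73

/-- Edges: the real edges and two stubs (`false` at the bottom, `true` at the top). -/
abbrev E0 (V : Type) : Type := (V × V) ⊕ Bool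

/-- Tails (`none` is the new source). -/
def tl0 {V : Type} (t : V) : E0 V → Option V
  | inl e => some e.1
  | inr false => none
  | inr true => some t

/-- Heads at the start. -/
def hdB {V : Type} (s : V) : E0 V → Option V
  | inl e => some e.2
  | inr _ => some s

variable {V : Type} {A : V → V → Prop}

/-- The state of the sweep after the vertices `dn` (nonempty, without the sink). -/
structure Sw0 (D : Drw V A) (s t : V) (dn : V → Prop) (S : Set (Option V ⊕ E0 V))
    (L : List (V × V)) (hd : E0 V → Option V)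
    (lo ro : Option V ⊕ E0 V → Option V ⊕ E0 V → Prop) : Prop where
  inv : Inv (tl0 t) hd S (L.map inl) lo ro
  pw : L.Pairwise (Rt D)
  s0 : inl none ∈ S
  sv : ∀ u : V, inl (some u) ∈ S ↔ dn u
  se : ∀ e : V × V, inr (inl e) ∈ S ↔ (A e.1 e.2 ∧ dn e.1)
  sb : inr (inr false) ∈ S
  st : inr (inr true) ∉ S
  lv : ∀ e, e ∈ L ↔ Lv A dn e
  hb : hd (inr false) = some s
  hr : ∀ e : V × V, hd (inl e) = some e.2

/-- As `Inv.pl` of SwC, with the heads of the live edges. -/
theorem inv_pl {V E : Type} {tl hd : E → V} {S : Set (V ⊕ E)} {lv : List E}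
    {lo ro : V ⊕ E → V ⊕ E → Prop} (H : Inv tl hd S lv lo ro) (hS : ∀ v, inl v ∈ S) :
    ∃ P : Pl (Option V) {e // inr e ∈ S}, (∀ e, P.tl e = some (tl e.1)) ∧
      (∀ e, e.1 ∉ lv → P.hd e = some (hd e.1)) ∧ (∀ e, e.1 ∈ lv → P.hd e = none) := by
  classical
  have hmem : ∀ (x : Option V ⊕ {e // inr e ∈ S}) (y : V ⊕ E), em x = some y → y ∈ S := by
    rintro ((_ | v) | ⟨e, he⟩) y h
    · cases h
    · cases h
      exact hS v
    · cases h
      exact he
  have irr : ∀ r : V ⊕ E → V ⊕ E → Prop, LinOn S r →
      ∀ x : Option V ⊕ {e // inr e ∈ S}, ¬ O2 r (em x) (em x) := by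
    intro r hr x h
    cases hx : em x with
    | none =>
      rw [hx] at h
      exact h
    | some y =>
      rw [hx] at h
      exact hr.irr y (hmem x y hx) h
  have tr : ∀ r : V ⊕ E → V ⊕ E → Prop, LinOn S r →
      ∀ x y z : Option V ⊕ {e // inr e ∈ S}, O2 r (em x) (em y) → O2 r (em y) (em z) →
      O2 r (em x) (em z) := by
    intro r hr x y z h1 h2
    cases hx : em x with
    | none =>
      rw [hx] at h1
      exact h1.elim
    | some x' =>
      cases hz : em z with
      | none => trivial
      | some z' =>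
        cases hy : em y with
        | none =>
          rw [hy] at h2
          exact h2.elim
        | some y' =>
          rw [hx, hy] at h1
          rw [hy, hz] at h2
          exact hr.tr x' (hmem x x' hx) y' (hmem y y' hy) z' (hmem z z' hz) h1 h2
  have tot : ∀ r : V ⊕ E → V ⊕ E → Prop, LinOn S r →
      ∀ x y : Option V ⊕ {e // inr e ∈ S}, x ≠ y → O2 r (em x) (em y) ∨ O2 r (em y) (em x) := by
    intro r hr x y hne
    cases hx : em x with
    | none =>
      cases hy : em y with
      | none => exact (hne (em_inj (hx.trans hy.symm))).elim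
      | some y' => exact Or.inr trivial
    | some x' =>
      cases hy : em y with
      | none => exact Or.inl trivial
      | some y' =>
        have : x' ≠ y' := fun h => hne (em_inj (by rw [hx, hy, h]))
        exact hr.tot x' (hmem x x' hx) y' (hmem y y' hy) this
  refine ⟨{
    tl := fun e => some (tl e.1)
    hd := fun e => if e.1 ∈ lv then none else some (hd e.1)
    lo := fun x y => O2 lo (em x) (em y)
    ro := fun x y => O2 ro (em x) (em y)
    lo_irr := irr lo H.lo_lin
    lo_tr := tr lo H.lo_lin
    lo_tot := tot lo H.lo_lin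
    ro_irr := irr ro H.ro_lin
    ro_tr := tr ro H.ro_lin
    ro_tot := tot ro H.ro_lin
    tl_lo := fun e => (H.tl_lt e.1 e.2).1
    tl_ro := fun e => (H.tl_lt e.1 e.2).2
    hd_lo := ?_
    hd_ro := ?_
    dn_e := ?_
    up_e := ?_
    dn_v := ?_
    up_v := ?_ }, fun _ => rfl, fun e he => if_neg he, fun e he => if_pos he⟩
  · intro e
    by_cases h : e.1 ∈ lv
    · rw [if_pos h]
      trivial
    · rw [if_neg h]
      exact (H.hd_lt e.1 e.2 h).1
  · intro e
    by_cases h : e.1 ∈ lv
    · rw [if_pos h]
      trivial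
    · rw [if_neg h]
      exact (H.hd_lt e.1 e.2 h).2
  · rintro ((_ | v) | ⟨e', he'⟩) e h1 h2
    · exact (h1 : False).elim
    · rcases H.dn_e _ (hS v) e.1 e.2 h1 h2 with h | h
      · refine Or.inl ?_
        rw [inl_injective h]
      · exact Or.inr h
    · rcases H.dn_e _ he' e.1 e.2 h1 h2 with h | h
      · cases h
      · exact Or.inr h
  · rintro ((_ | v) | ⟨e', he'⟩) e h1 h2
    · by_cases h : e.1 ∈ lv
      · rw [if_pos h]
        exact Or.inl rfl
      · rw [if_neg h]
        exact Or.inr ⟨trivial, trivial⟩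
    · by_cases h : e.1 ∈ lv
      · exact (H.top e.1 h _ (hS v) h1 h2).elim
      · rw [if_neg h]
        rcases H.up_e _ (hS v) e.1 e.2 h1 h2 with h | h
        · refine Or.inl ?_
          rw [inl_injective h]
        · exact Or.inr h
    · by_cases h : e.1 ∈ lv
      · exact (H.top e.1 h _ he' h1 h2).elim
      · rw [if_neg h]
        rcases H.up_e _ he' e.1 e.2 h1 h2 with h | h
        · cases h
        · exact Or.inr h
  · rintro x (_ | v) h1 h2
    · -- the new top
      have hx : ∃ y, em x = some y ∧ y ∈ S := by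
        cases hx : em x with
        | none =>
          have h1' : O2 lo (em x) (em (inl none : Option V ⊕ {e // inr e ∈ S})) := h1
          rw [hx] at h1'
          exact h1'.elim
        | some y => exact ⟨y, rfl, hmem x y hx⟩
      obtain ⟨y, hy, hyS⟩ := hx
      obtain ⟨e, he, h⟩ := H.cov y hyS
      refine ⟨⟨e, H.lvS e he⟩, if_pos he, ?_⟩
      rcases h with h | h
      · exact Or.inl (em_inj (by rw [hy, h]; rfl))
      · refine Or.inr ?_
        show O2 lo (em x) (some (inr e)) ∧ O2 ro (em x) (some (inr e))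
        rw [hy]
        exact h
    · rcases x with (_ | w) | ⟨e', he'⟩
      · exact (h1 : False).elim
      · obtain ⟨r, hr, hrl, hrv, h⟩ := H.dn_v _ (hS w) v (hS v) h1 h2
        refine ⟨⟨r, hr⟩, ?_, ?_⟩
        · show (if r ∈ lv then none else some (hd r)) = some v
          rw [if_neg hrl, hrv]
        · rcases h with h | h
          · cases h
          · exact Or.inr h
      · obtain ⟨r, hr, hrl, hrv, h⟩ := H.dn_v _ he' v (hS v) h1 h2
        refine ⟨⟨r, hr⟩, ?_, ?_⟩
        · show (if r ∈ lv then none else some (hd r)) = some v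
          rw [if_neg hrl, hrv]
        · rcases h with h | h
          · cases h
            exact Or.inl rfl
          · exact Or.inr h
  · rintro x (_ | v) h1 h2
    · exact (h1 : False).elim
    · rcases x with (_ | w) | ⟨e', he'⟩
      · -- `v` is below a live element
        obtain ⟨e, he, h⟩ := H.cov _ (hS v)
        rcases h with h | h
        · cases h
        · obtain ⟨r, hr, hrv, h3⟩ := H.up_v _ (H.lvS e he) v (hS v) h.1 h.2
          exact ⟨⟨r, hr⟩, by rw [hrv], Or.inr ⟨trivial, trivial⟩⟩
      · obtain ⟨r, hr, hrv, h⟩ := H.up_v _ (hS w) v (hS v) h1 h2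
        refine ⟨⟨r, hr⟩, by rw [hrv], ?_⟩
        rcases h with h | h
        · cases h
        · exact Or.inr h
      · obtain ⟨r, hr, hrv, h⟩ := H.up_v _ he' v (hS v) h1 h2
        refine ⟨⟨r, hr⟩, by rw [hrv], ?_⟩
        rcases h with h | h
        · cases h
          exact Or.inl rfl
        · exact Or.inr h

/-- The source `s` is placed. (`inv_init` with the edge `inr false`, then `Inv.step` with `B = [inr false]`.) -/
theorem sw0_init [Fintype V] (D : Drw V A) {s t : V} (hs : ∀ u, ¬ A u s) (hs2 : ∃ w, A s w) :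
    ∃ S L hd lo ro, Sw0 D s t (fun u => u = s) S L hd lo ro := by
  classical
  obtain ⟨lo, ro, H⟩ := inv_init (tl0 (V := V) t) (hdB s) (inr false)
  obtain ⟨LO, hO1, hO2, hO3⟩ := exists_out D s
  have hLO : LO ≠ [] := by
    obtain ⟨w, hw⟩ := hs2
    exact List.ne_nil_of_mem ((hO2 (s, w)).2 ⟨rfl, hw⟩)
  have hsS : (inl (some s) : Option V ⊕ E0 V) ∉ Nw (tl0 t (inr false)) [inr false] := by
    intro h
    have := nw_v' h
    cases this
  obtain ⟨hd', lo', ro', H', h1, h2⟩ := Inv.step (A := []) (B := [inr false]) (C := [])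
    (O := LO.map inl) (v := some s) H (by simp) hsS (by simpa using hLO)
    (hO1.map (f := inl) Sum.inl_injective) (by
      intro o ho
      obtain ⟨e, he, rfl⟩ := List.mem_map.1 ho
      show some e.1 = some s
      rw [((hO2 e).1 he).1])
  rw [List.nil_append, List.append_nil] at H'
  refine ⟨_, LO, hd', lo', ro', ⟨H', hO3, Or.inl nw_v, ?_, ?_, Or.inl (nw_e (by simp)), ?_, ?_, ?_, ?_⟩⟩
  · intro u
    constructor
    · rintro (h | h)
      · have := nw_v' h
        cases this
      · have := nw_v' h
        cases this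
        rfl
    · rintro rfl
      exact Or.inr nw_v
  · intro e
    constructor
    · rintro (h | h)
      · have := nw_e' h
        simp at this
      · have h3 := nw_e' h
        rw [List.mem_map_of_injective Sum.inl_injective, hO2] at h3
        exact ⟨by rw [h3.1]; exact h3.2, h3.1⟩
    · rintro ⟨h3, h4⟩
      refine Or.inr (nw_e ?_)
      rw [List.mem_map_of_injective Sum.inl_injective, hO2]
      exact ⟨h4, by rw [← h4]; exact h3⟩
  · rintro (h | h)
    · have := nw_e' h
      simp at this
    · have := nw_e' h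
      simp at this
  · intro e
    rw [hO2]
    constructor
    · rintro ⟨h3, h4⟩
      refine ⟨by rw [h3]; exact h4, h3, fun h5 => ?_⟩
      rw [h5] at h4
      exact hs s h4
    · rintro ⟨h3, h4, _⟩
      exact ⟨h4, by rw [← h4]; exact h3⟩
  · exact h1 _ (by simp)
  · intro e
    rw [h2 _ (by simp)]
    rfl

/-- One vertex `v ≠ t` with an edge into it. As `sw_step` in DwB. -/
theorem sw0_step [Fintype V] {D : Drw V A} {s t : V} {dn : V → Prop} {S : Set (Option V ⊕ E0 V)}
    {L : List (V × V)} {hd : E0 V → Option V}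
    {lo ro : Option V ⊕ E0 V → Option V ⊕ E0 V → Prop} (H : Sw0 D s t dn S L hd lo ro) {v : V}
    (hv : Cur D dn v) (h1 : ∃ u, A u v ∧ dn u) (h2 : ∃ w, A v w) :
    ∃ S' L' hd' lo' ro', Sw0 D s t (fun u => dn u ∨ u = v) S' L' hd' lo' ro' := by
  classical
  have hk : L.Pairwise (fun e f => D.X e.1 e.2 (D.y v) ≤ D.X f.1 f.2 (D.y v)) := by
    refine (List.Pairwise.and_mem.1 H.pw).imp ?_
    rintro e f ⟨he, hf, hef⟩
    exact hv.mono ((H.lv e).1 he) ((H.lv f).1 hf) hef
  obtain ⟨LA, LB, LC, rfl, hA, hB, hC⟩ :=
    split_key (fun e : V × V => D.X e.1 e.2 (D.y v)) (D.x v) L hk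
  obtain ⟨LO, hO1, hO2, hO3⟩ := exists_out D v
  have hvS : (inl (some v) : Option V ⊕ E0 V) ∉ S := fun h => hv.nd ((H.sv v).1 h)
  have lvA : ∀ e ∈ LA, Lv A dn e := fun e he => (H.lv e).1 (by simp [he])
  have lvB : ∀ e ∈ LB, Lv A dn e := fun e he => (H.lv e).1 (by simp [he])
  have lvC : ∀ e ∈ LC, Lv A dn e := fun e he => (H.lv e).1 (by simp [he])
  have hLB : LB ≠ [] := by
    obtain ⟨u, hu, hdu⟩ := h1
    have h3 : Lv A dn (u, v) := ⟨hu, hdu, hv.nd⟩
    have h4 := (H.lv (u, v)).2 h3
    have h5 : D.X u v (D.y v) = D.x v := (hv.key h3).2 rfl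
    rcases List.mem_append.1 h4 with h | h
    · rcases List.mem_append.1 h with h | h
      · exact absurd h5 (hA _ h).ne
      · exact List.ne_nil_of_mem h
    · exact absurd h5 (hC _ h).ne'
  have hLO : LO ≠ [] := by
    obtain ⟨w, hw⟩ := h2
    exact List.ne_nil_of_mem ((hO2 (v, w)).2 ⟨rfl, hw⟩)
  have Hi := H.inv
  rw [List.map_append, List.map_append] at Hi
  obtain ⟨hd', lo', ro', H', g1, g2⟩ := Hi.step (O := LO.map inl) (v := some v)
    (by simpa using hLB) hvS (by simpa using hLO) (hO1.map (f := inl) Sum.inl_injective) (by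
      intro o ho
      obtain ⟨e, he, rfl⟩ := List.mem_map.1 ho
      show some e.1 = some v
      rw [((hO2 e).1 he).1])
  rw [← List.map_append, ← List.map_append] at H'
  have hLO' : ∀ e : V × V, (inl e : E0 V) ∈ LO.map inl ↔ e.1 = v ∧ A v e.2 := fun e => by
    rw [List.mem_map_of_injective Sum.inl_injective, hO2]
  have hpw := H.pw
  rw [List.pairwise_append, List.pairwise_append] at hpw
  refine ⟨_, LA ++ LO ++ LC, hd', lo', ro', ⟨H', ?_, Or.inl H.s0, ?_, ?_, Or.inl H.sb, ?_, ?_, ?_,
    ?_⟩⟩
  · -- pairwise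
    rw [List.pairwise_append, List.pairwise_append]
    refine ⟨⟨hpw.1.1, hO3, ?_⟩, hpw.2.1, ?_⟩
    · intro e he o ho
      obtain ⟨o1, o2⟩ := (hO2 o).1 ho
      have h3 := hv.left (lvA e he) (hA e he) o2
      rwa [← o1] at h3
    · intro e he f hf
      rcases List.mem_append.1 he with he | he
      · exact hpw.2.2 e (List.mem_append_left _ he) f hf
      · obtain ⟨o1, o2⟩ := (hO2 e).1 he
        have h3 := hv.right (lvC f hf) (hC f hf) o2
        rwa [← o1] at h3
  · -- vertices
    intro u
    constructor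
    · rintro (h | h)
      · exact Or.inl ((H.sv u).1 h)
      · have := nw_v' h
        cases this
        exact Or.inr rfl
    · rintro (h | rfl)
      · exact Or.inl ((H.sv u).2 h)
      · exact Or.inr nw_v
  · -- edges
    intro e
    constructor
    · rintro (h | h)
      · exact ⟨((H.se e).1 h).1, Or.inl ((H.se e).1 h).2⟩
      · have h3 := (hLO' e).1 (nw_e' h)
        exact ⟨by rw [h3.1]; exact h3.2, Or.inr h3.1⟩
    · rintro ⟨h3, h4 | h4⟩
      · exact Or.inl ((H.se e).2 ⟨h3, h4⟩)
      · refine Or.inr (nw_e ((hLO' e).2 ⟨h4, ?_⟩))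
        rwa [h4] at h3
  · rintro (h | h)
    · exact H.st h
    · have := nw_e' h
      simp at this
  · -- live edges
    intro e
    constructor
    · intro h
      rcases List.mem_append.1 h with h | h
      · rcases List.mem_append.1 h with h | h
        · have h3 := lvA e h
          refine ⟨h3.1, Or.inl h3.2.1, ?_⟩
          rintro (h4 | h4)
          · exact h3.2.2 h4
          · have := (hv.key h3).2 h4
            have := hA e h
            linarith
        · obtain ⟨o1, o2⟩ := (hO2 e).1 h
          refine ⟨by rw [o1]; exact o2, Or.inr o1, ?_⟩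
          have h5 := D.up _ _ o2
          rintro (h4 | h4)
          · have := (hv.lo _ h4).le
            linarith
          · rw [h4] at h5
            exact lt_irrefl _ h5
      · have h3 := lvC e h
        refine ⟨h3.1, Or.inl h3.2.1, ?_⟩
        rintro (h4 | h4)
        · exact h3.2.2 h4
        · have := (hv.key h3).2 h4
          have := hC e h
          linarith
    · rintro ⟨h3, h4, h5⟩
      rcases h4 with h4 | h4
      · have h6 : Lv A dn e := ⟨h3, h4, fun h => h5 (Or.inl h)⟩
        have h7 := (H.lv e).2 h6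
        rcases List.mem_append.1 h7 with h | h
        · rcases List.mem_append.1 h with h | h
          · simp [h]
          · exact absurd (Or.inr ((hv.key h6).1 (hB e h))) h5
        · simp [h]
      · have h6 : e ∈ LO := (hO2 e).2 ⟨h4, by rwa [h4] at h3⟩
        simp [h6]
  · rw [g2 _ (by simp), H.hb]
  · -- heads
    intro e
    by_cases h : (inl e : E0 V) ∈ LB.map inl
    · rw [g1 _ h]
      have h3 : e ∈ LB := by rwa [List.mem_map_of_injective Sum.inl_injective] at h
      rw [(hv.key (lvB e h3)).1 (hB e h3)]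
    · rw [g2 _ h]
      exact H.hr e

/-- The planar st-structure of a drawing with one source `s` and one sink `t`. -/
theorem drw_pl [Fintype V] (D : Drw V A) {s t : V} (hst : s ≠ t) (hs : ∀ u, ¬ A u s)
    (ht : ∀ u, ¬ A t u) (hs2 : ∀ v, v ≠ s → ∃ u, A u v) (ht2 : ∀ v, v ≠ t → ∃ w, A v w) :
    ∃ (E : Type) (_ : Finite E) (P : Pl (Option (Option V)) E)
      (j : {p : V × V // A p.1 p.2} → E) (eb et : E),
      (∀ p, P.tl (j p) = some (some p.1.1) ∧ P.hd (j p) = some (some p.1.2)) ∧
      P.tl eb = some none ∧ P.hd eb = some (some s) ∧ P.tl et = some (some t) ∧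
      P.hd et = none ∧ ∀ e, e = eb ∨ e = et ∨ ∃ p, e = j p := by
  classical
  obtain ⟨l, _, hl2, hl3⟩ := exists_sorted (Finset.univ : Finset V)
    (fun v => (toLex (D.y v, D.x v) : ℝ ×ₗ ℝ)) (by
      intro a _ b _ h
      have h' := toLex.injective h
      exact D.inj a b (Prod.mk.inj h').2 (Prod.mk.inj h').1)
  have hkl : l.Pairwise (Kl D) := by
    refine hl3.imp ?_
    intro a b h
    rw [Prod.Lex.toLex_lt_toLex] at h
    exact h
  have hall : ∀ v, v ∈ l := fun v => (hl2 v).2 (Finset.mem_univ v)
  have kirr : ∀ v, ¬ Kl D v v := by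
    rintro v (h | h)
    · exact lt_irrefl _ h
    · exact lt_irrefl _ h.2
  have kas : ∀ u v, Kl D u v → ¬ Kl D v u := by
    rintro u v (h | h) (h' | h')
    · exact lt_asymm h h'
    · exact h.ne h'.1.symm
    · exact h'.ne h.1.symm
    · exact lt_asymm h.2 h'.2
  have kA : ∀ u v, A u v → Kl D u v := fun u v h => Or.inl (D.up u v h)
  -- the list begins with `s` and ends with `t`
  have hcur : ∀ dn rest : List V, ∀ v, dn ++ v :: rest = l → Cur D (fun u => u ∈ dn) v := by
    intro dn rest v h
    have hk := hkl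
    rw [← h, List.pairwise_append, List.pairwise_cons] at hk
    refine ⟨fun hv => kirr v (hk.2.2 v hv v (by simp)), fun u hu => hk.2.2 u hu v (by simp), ?_⟩
    intro w hw hne
    have h1 := hall w
    rw [← h, List.mem_append, List.mem_cons] at h1
    rcases h1 with h1 | h1 | h1
    · exact absurd h1 hw
    · exact absurd h1 hne
    · exact hk.2.1.1 w h1
  have hmem : ∀ dn rest : List V, ∀ v, dn ++ v :: rest = l → ∀ u, Kl D u v → u ∈ dn := by
    intro dn rest v h u hu
    by_contra hn
    have hc := hcur dn rest v h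
    by_cases huv : u = v
    · rw [huv] at hu
      exact kirr v hu
    · exact kas _ _ hu (hc.hi u hn huv)
  obtain ⟨l', hl'⟩ : ∃ l', l = s :: l' := by
    cases hl : l with
    | nil =>
      have := hall s
      rw [hl] at this
      simp at this
    | cons v l' =>
      by_cases hv : v = s
      · rw [hv]
        exact ⟨l', rfl⟩
      · obtain ⟨u, hu⟩ := hs2 v hv
        have := hmem [] l' v (by rw [hl]; rfl) u (kA u v hu)
        simp at this
  -- the sweep
  have main : ∀ rest dn : List V, s :: dn ++ rest ++ [t] = l →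
      (∃ S L hd lo ro, Sw0 D s t (fun u => u ∈ s :: dn) S L hd lo ro) →
      ∃ S L hd lo ro, Sw0 D s t (fun u => u ≠ t) S L hd lo ro := by
    intro rest
    induction rest with
    | nil =>
      rintro dn h ⟨S, L, hd, lo, ro, H⟩
      have h1 : (fun u => u ∈ s :: dn) = fun u => u ≠ t := by
        funext u
        refine propext ⟨fun hu hut => ?_, fun hu => ?_⟩
        · have hk := hkl
          rw [← h, List.append_nil, List.pairwise_append] at hk
          exact kirr u (by rw [hut] at hu ⊢; exact hk.2.2 t hu t (by simp))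
        · have h2 := hall u
          rw [← h, List.append_nil, List.mem_append] at h2
          rcases h2 with h2 | h2
          · exact h2
          · exact absurd (List.mem_singleton.1 h2) hu
      rw [h1] at H
      exact ⟨S, L, hd, lo, ro, H⟩
    | cons v rest ih =>
      rintro dn h ⟨S, L, hd, lo, ro, H⟩
      have hsp : (s :: dn) ++ v :: (rest ++ [t]) = l := by
        rw [← h]
        simp
      have hc := hcur (s :: dn) (rest ++ [t]) v hsp
      have hvs : v ≠ s := fun h' => hc.nd (by rw [h']; simp)
      have hvt : v ≠ t := by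
        intro h'
        have hk := hkl
        rw [← hsp, List.pairwise_append] at hk
        exact kirr v ((List.pairwise_cons.1 hk.2.1).1 v (by rw [h']; simp))
      obtain ⟨u, hu⟩ := hs2 v hvs
      have hudn := hmem (s :: dn) (rest ++ [t]) v hsp u (kA u v hu)
      obtain ⟨S', L', hd', lo', ro', H'⟩ := sw0_step H hc ⟨u, hu, hudn⟩ (ht2 v hvt)
      refine ih (dn ++ [v]) (by rw [← h]; simp) ⟨S', L', hd', lo', ro', ?_⟩
      have h1 : (fun u => u ∈ s :: (dn ++ [v])) = fun u => u ∈ s :: dn ∨ u = v := by
        funext u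
        simp [or_assoc]
      rw [h1]
      exact H'
  obtain ⟨l'', hl''⟩ : ∃ l'', l' = l'' ++ [t] := by
    rcases List.eq_nil_or_concat l' with h | ⟨m, v, h⟩
    · have h1 := hall t
      rw [hl', h, List.mem_singleton] at h1
      exact absurd h1.symm hst
    · rw [List.concat_eq_append] at h
      by_cases hv : v = t
      · rw [← hv]
        exact ⟨m, h⟩
      · exfalso
        obtain ⟨w, hw⟩ := ht2 v hv
        have hk := hkl
        rw [hl', h] at hk
        have h1 := hall w
        rw [hl', h] at h1
        have h2 : (s :: m ++ [v]).Pairwise (Kl D) := hk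
        rw [List.pairwise_append] at h2
        have h3 : w ∈ s :: m ++ [v] := h1
        rcases List.mem_append.1 h3 with h4 | h4
        · exact kas _ _ (kA v w hw) (h2.2.2 w h4 v (by simp))
        · rw [List.mem_singleton.1 h4] at hw
          exact kirr v (kA v v hw)
  obtain ⟨S, L, hd, lo, ro, H⟩ := main l'' [] (by rw [hl', hl'']; simp) (by
    obtain ⟨S, L, hd, lo, ro, H⟩ := sw0_init (t := t) D hs (ht2 s hst)
    refine ⟨S, L, hd, lo, ro, ?_⟩
    have h1 : (fun u : V => u ∈ [s]) = fun u => u = s := by
      funext u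
      simp
    rw [h1]
    exact H)
  -- the sink
  have hLt : ∀ e ∈ L, e.2 = t := by
    intro e he
    have := ((H.lv e).1 he).2.2
    exact not_not.1 this
  have hLne : L ≠ [] := by
    obtain ⟨u, hu⟩ := hs2 t hst.symm
    refine List.ne_nil_of_mem ((H.lv (u, t)).2 ⟨hu, fun h => ?_, fun h => h rfl⟩)
    rw [show u = t from h] at hu
    exact ht t hu
  have htS : (inl (some t) : Option V ⊕ E0 V) ∉ S := fun h => ((H.sv t).1 h) rfl
  have Hi := H.inv
  obtain ⟨hd', lo', ro', H', g1, g2⟩ := Inv.step (A := []) (C := []) (B := L.map inl)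
    (O := [inr true]) (v := some t) (by simpa using Hi) (by simpa using hLne) htS (by simp)
    (by simp) (by
      intro o ho
      rw [List.mem_singleton.1 ho]
      rfl)
  have hS : ∀ v : Option V, (inl v : Option V ⊕ E0 V) ∈ S ∪ Nw (some t) [inr true] := by
    rintro (_ | v)
    · exact Or.inl H.s0
    · by_cases hv : v = t
      · rw [hv]
        exact Or.inr nw_v
      · exact Or.inl ((H.sv v).2 hv)
  obtain ⟨P, hP1, hP2, hP3⟩ := inv_pl H' hS
  have hfin : Finite {e : E0 V // inr e ∈ S ∪ Nw (some t) [inr true]} :=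
    (H'.fin.preimage (Set.injOn_of_injective Sum.inr_injective)).to_subtype
  have hreal : ∀ p : V × V, A p.1 p.2 → (inr (inl p) : Option V ⊕ E0 V) ∈
      S ∪ Nw (some t) [inr true] := by
    intro p hp
    refine Or.inl ((H.se p).2 ⟨hp, fun h => ?_⟩)
    rw [h] at hp
    exact ht _ hp
  refine ⟨{e : E0 V // inr e ∈ S ∪ Nw (some t) [inr true]}, hfin, P,
    fun p => ⟨inl p.1, hreal p.1 p.2⟩, ⟨inr false, Or.inl H.sb⟩, ⟨inr true, Or.inr (nw_e (by simp))⟩,
    ?_, ?_, ?_, ?_, ?_, ?_⟩
  · intro p
    refine ⟨hP1 _, ?_⟩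
    rw [hP2 _ (by simp)]
    by_cases h : (inl p.1 : E0 V) ∈ L.map inl
    · rw [g1 _ h]
      rw [List.mem_map_of_injective Sum.inl_injective] at h
      rw [hLt _ h]
    · rw [g2 _ h, H.hr]
  · exact hP1 _
  · rw [hP2 _ (by simp), g2 _ (by simp), H.hb]
  · exact hP1 _
  · exact hP3 _ (by simp)
  · rintro ⟨e | b, he⟩
    · refine Or.inr (Or.inr ⟨⟨e, ?_⟩, rfl⟩)
      rcases he with he | he
      · exact ((H.se e).1 he).1
      · have := nw_e' he
        simp at this
    · cases b
      · exact Or.inl rfl
      · exact Or.inr (Or.inl rfl)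

end Pool.Agent.W_a4f561_h34
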