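import Pool.Agent.W_a4f561_h34.PmB
import Pool.Agent.W_a4f561_h34.Drw0
import Pool.Agent.W_a4f561_h73.A4Cnv
import Pool.Agent.W_a4f561_h73.A4Two

/-!
MP_a4f561_co (BipLattice): assembly.
-/

set_option autoImplicit false

namespace Pool.Agent.W_a4f561_h34

open Sum Pool.Agent.W_a4f561_h25 Pool.Agent.W_a4f561_h73

/-- Paths between real vertices. -/
private theorem Asm_path {V E : Type} {A : V → V → Prop} {t : V} {P : Pl (Option (Option V)) E}
    {j : {p : V × V // A p.1 p.2} → E} {eb et : E}
    (hj : ∀ p, P.tl (j p) = some (some p.1.1) ∧ P.hd (j p) = some (some p.1.2))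
    (b1 : P.tl eb = some none) (t1 : P.tl et = some (some t)) (t2 : P.hd et = none)
    (hall : ∀ e, e = eb ∨ e = et ∨ ∃ p, e = j p) (Q : List E) : ∀ x y : V,
    Pa P.tl P.hd (some (some x)) Q (some (some y)) →
      (Q = [] ∧ x = y) ∨ (∃ p : {p : V × V // A p.1 p.2}, Q = [j p] ∧ p.1 = (x, y)) ∨
      (∃ w, Relation.TransGen A x w ∧ Relation.TransGen A w y) := by
  have hnone : ∀ e, P.tl e ≠ none := by
    intro e
    rcases hall e with rfl | rfl | ⟨p, rfl⟩
    · rw [b1]; simp
    · rw [t1]; simp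
    · rw [(hj p).1]; simp
  induction Q with
  | nil =>
    intro x y h
    have h1 : (some (some x) : Option (Option V)) = some (some y) := h
    exact Or.inl ⟨rfl, Option.some.inj (Option.some.inj h1)⟩
  | cons e Q ih =>
    intro x y h
    obtain ⟨h1, h2⟩ := h
    rcases hall e with rfl | rfl | ⟨p, rfl⟩
    · rw [b1] at h1
      exact absurd (Option.some.inj h1) (by simp)
    · exfalso
      rw [t2] at h2
      cases Q with
      | nil =>
        have h3 : (none : Option (Option V)) = some (some y) := h2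
        exact absurd h3 (by simp)
      | cons e' Q' => exact hnone e' h2.1
    · rw [(hj p).1] at h1
      rw [(hj p).2] at h2
      have hx : p.1.1 = x := Option.some.inj (Option.some.inj h1)
      have hA : A x p.1.2 := hx ▸ p.2
      right
      rcases ih _ _ h2 with ⟨h3, h4⟩ | ⟨p', h3, h4⟩ | ⟨w, h3, h4⟩
      · left
        refine ⟨p, by rw [h3], ?_⟩
        rw [← hx, ← h4]
      · right
        refine ⟨p.1.2, Relation.TransGen.single hA, Relation.TransGen.single ?_⟩
        have h5 := p'.2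
        rw [h4] at h5
        exact h5
      · right
        exact ⟨w, Relation.TransGen.head hA h3, h4⟩

/-- Proof. Drawing: `exists_drw_y f hf γ h1 h2` as in W_a4f561_h25/Asm. If `s = t` there is no edge (an edge
`(u, w)` with `D.y u` least: `u ≠ s` as `s = t` has no edge out of it, so there is an edge `(w', u)` and `D.y w' < D.y u`):
`σ = refl`, anything for `p`. Otherwise `drw_pl`, `StP P (some none) none`, colours `c' (some (some v)) = c v`,
`c' (some none) = !c s`, `c' none = !c t`; `htr` for `P`: a path `Q` from `tl e` to `hd e`: for `e = j p` all its edges are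
real (`eb` starts at `some none`, no edge has this head; no edge starts at `none`), so `Q` of length `≥ 2` gives a vertex
`w` with `TransGen`; for `e = eb` the first edge of `Q` is `eb` (only edge with this tail) and the rest is a path from `s` to
`s`, so empty (`pa_pw` or `pa_lo`); the same for `et`. Then `pl_main`, `exists_perm` (see W_a4f561_h25/Asm) for
`fun a b => r (some (some a)) (some (some b))`, `p a b = if c a then 1 else 0`. -/
theorem assembly (n : ℕ) (G : Digraph (Fin n)) (f : Fin n → ℝ × ℝ) (hf : Function.Injective f)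
    (γ : Fin n → Fin n → ℝ → ℝ × ℝ)
    (h1 : ∀ u v, G.Adj u v →
      ContinuousOn (γ u v) (Set.Icc (0:ℝ) 1) ∧
      γ u v 0 = f u ∧ γ u v 1 = f v ∧
      StrictMonoOn (fun t => (γ u v t).2) (Set.Icc (0:ℝ) 1) ∧
      (∀ w, ∀ s ∈ Set.Ioo (0:ℝ) 1, γ u v s ≠ f w))
    (h2 : ∀ u v u' v', G.Adj u v → G.Adj u' v' → (u, v) ≠ (u', v') →
      ∀ s ∈ Set.Ioo (0:ℝ) 1, ∀ t ∈ Set.Icc (0:ℝ) 1, γ u v s ≠ γ u' v' t)
    (s t : Fin n) (hs : ∀ v, (∀ u, ¬ G.Adj u v) ↔ v = s) (ht : ∀ v, (∀ u, ¬ G.Adj v u) ↔ v = t)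
    (c : Fin n → Bool) (hc : ∀ u v, G.Adj u v → c u ≠ c v)
    (htr : ∀ u v w, G.Adj u v → ¬ (Relation.TransGen G.Adj u w ∧ Relation.TransGen G.Adj w v)) :
    ∃ σ : Fin n ≃ Fin n, ∃ p : Fin n → Fin n → Fin 2,
      (∀ u v, G.Adj u v → σ u < σ v) ∧
      (∀ a b c d, G.Adj a b → G.Adj c d → p a b = p c d →
        ¬ (σ a < σ c ∧ σ c < σ b ∧ σ b < σ d)) := by
  classical
  obtain ⟨D, _⟩ := exists_drw_y f hf γ h1 h2
  have hs1 : ∀ u, ¬ G.Adj u s := (hs s).2 rfl
  have ht1 : ∀ u, ¬ G.Adj t u := (ht t).2 rfl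
  have hs2 : ∀ v, v ≠ s → ∃ u, G.Adj u v := by
    intro v hv
    by_contra hcon
    push Not at hcon
    exact hv ((hs v).1 hcon)
  have ht2 : ∀ v, v ≠ t → ∃ w, G.Adj v w := by
    intro v hv
    by_contra hcon
    push Not at hcon
    exact hv ((ht v).1 hcon)
  by_cases hst : s = t
  · have hno : ∀ u w, ¬ G.Adj u w := by
      intro u w huw
      obtain ⟨u0, hu0, hmin⟩ := (Finset.univ.filter fun u => ∃ w, G.Adj u w).exists_min_image D.y
        ⟨u, Finset.mem_filter.2 ⟨Finset.mem_univ _, w, huw⟩⟩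
      obtain ⟨w0, hw0⟩ := (Finset.mem_filter.1 hu0).2
      have h3 : u0 ≠ s := by
        rintro rfl
        rw [hst] at hw0
        exact ht1 _ hw0
      obtain ⟨u', hu'⟩ := hs2 u0 h3
      have h4 := hmin u' (Finset.mem_filter.2 ⟨Finset.mem_univ _, u0, hu'⟩)
      exact absurd (D.up _ _ hu') (not_lt.2 h4)
    exact ⟨Equiv.refl _, fun _ _ => 0, fun u v h => absurd h (hno u v),
      fun a b _ _ h => absurd h (hno a b)⟩
  obtain ⟨E, iE, P, j, eb, et, hj, b1, b2, t1, t2, hall⟩ := drw_pl D hst hs1 ht1 hs2 ht2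
  have hpath := Asm_path hj b1 t1 t2 hall
  have hnone : ∀ e, P.tl e ≠ none := by
    intro e
    rcases hall e with rfl | rfl | ⟨p, rfl⟩
    · rw [b1]; simp
    · rw [t1]; simp
    · rw [(hj p).1]; simp
  have hStP : StP P (some none) none := by
    refine ⟨fun e => ?_, hnone, fun v hv => ?_, fun v hv => ?_⟩
    · rcases hall e with rfl | rfl | ⟨p, rfl⟩
      · rw [b2]; simp
      · rw [t2]; simp
      · rw [(hj p).2]; simp
    · rcases v with _ | _ | x
      · exact ⟨et, t2⟩
      · exact absurd rfl hv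
      · by_cases hx : x = s
        · exact ⟨eb, by rw [b2, hx]⟩
        · obtain ⟨u, hu⟩ := hs2 x hx
          exact ⟨j ⟨(u, x), hu⟩, (hj _).2⟩
    · rcases v with _ | _ | x
      · exact absurd rfl hv
      · exact ⟨eb, b1⟩
      · by_cases hx : x = t
        · exact ⟨et, by rw [t1, hx]⟩
        · obtain ⟨u, hu⟩ := ht2 x hx
          exact ⟨j ⟨(x, u), hu⟩, (hj _).1⟩
  let c' : Option (Option (Fin n)) → Bool := fun v =>
    match v with
    | none => !c t
    | some none => !c s
    | some (some x) => c x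
  have hc' : ∀ e, c' (P.tl e) ≠ c' (P.hd e) := by
    intro e
    rcases hall e with rfl | rfl | ⟨p, rfl⟩
    · rw [b1, b2]
      show (!c s) ≠ c s
      cases c s <;> decide
    · rw [t1, t2]
      show c t ≠ (!c t)
      cases c t <;> decide
    · rw [(hj p).1, (hj p).2]
      exact hc _ _ p.2
  have htr' : ∀ e Q, Pa P.tl P.hd (P.tl e) Q (P.hd e) → Q = [e] := by
    intro e Q hQ
    rcases hall e with rfl | rfl | ⟨p, rfl⟩
    · rw [b1, b2] at hQ
      cases Q with
      | nil =>
        have h3 : (some none : Option (Option (Fin n))) = some (some s) := hQ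
        exact absurd (Option.some.inj h3) (by simp)
      | cons e' Q' =>
        obtain ⟨h3, h4⟩ := hQ
        have h5 : e' = e := by
          rcases hall e' with h5 | rfl | ⟨p, rfl⟩
          · exact h5
          · rw [t1] at h3
            exact absurd (Option.some.inj h3) (by simp)
          · rw [(hj p).1] at h3
            exact absurd (Option.some.inj h3) (by simp)
        rw [h5, b2] at h4
        rcases hpath Q' s s h4 with ⟨h6, _⟩ | ⟨p, _, h7⟩ | ⟨w, _, h7⟩
        · rw [h5, h6]
        · have h8 := p.2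
          rw [h7] at h8
          exact absurd h8 (hs1 s)
        · obtain ⟨z, _, hz⟩ := Relation.TransGen.tail'_iff.1 h7
          exact absurd hz (hs1 z)
    · rw [t1, t2] at hQ
      cases Q with
      | nil =>
        have h3 : (some (some t) : Option (Option (Fin n))) = none := hQ
        exact absurd h3 (by simp)
      | cons e' Q' =>
        obtain ⟨h3, h4⟩ := hQ
        have h5 : e' = e := by
          rcases hall e' with rfl | h5 | ⟨p, rfl⟩
          · rw [b1] at h3
            exact absurd (Option.some.inj h3) (by simp)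
          · exact h5
          · rw [(hj p).1] at h3
            have h6 : p.1.1 = t := Option.some.inj (Option.some.inj h3)
            have h7 := p.2
            rw [h6] at h7
            exact absurd h7 (ht1 _)
        rw [h5, t2] at h4
        cases Q' with
        | nil => rw [h5]
        | cons e'' Q'' => exact absurd h4.1 (hnone e'')
    · rw [(hj p).1, (hj p).2] at hQ
      rcases hpath Q _ _ hQ with ⟨_, h4⟩ | ⟨p', h3, h4⟩ | ⟨w, h3, h4⟩
      · exact absurd (congrArg c h4) (hc _ _ p.2)
      · have h5 : p' = p := Subtype.ext h4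
        rw [h3, h5]
      · exact absurd ⟨h3, h4⟩ (htr _ _ w p.2)
  obtain ⟨r, r1, r2, r3, r4, r5⟩ := pl_main hStP (by simp) c' hc' htr'
  have hinj : ∀ a b : Fin n, a ≠ b → (some (some a) : Option (Option (Fin n))) ≠ some (some b) := by
    intro a b hab h
    exact hab (Option.some.inj (Option.some.inj h))
  obtain ⟨σ, hσ⟩ := exists_perm (fun a b => r (some (some a)) (some (some b))) (fun a => r1 _)
    (fun a b d => r2 _ _ _) (fun a b hab => r3 _ _ (hinj a b hab))
  refine ⟨σ, fun u _ => if c u then 1 else 0, fun u v huv => ?_, ?_⟩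
  · rw [hσ]
    have h3 := r4 (j ⟨(u, v), huv⟩)
    rw [(hj ⟨(u, v), huv⟩).1, (hj ⟨(u, v), huv⟩).2] at h3
    exact h3
  · intro u v u' v' huv hu'v' hp
    have hcc : c u = c u' := by
      by_cases g1 : c u = true <;> by_cases g2 : c u' = true
      · rw [g1, g2]
      · simp [g1, g2] at hp
      · simp [g1, g2] at hp
      · rw [Bool.eq_false_iff.2 g1, Bool.eq_false_iff.2 g2]
    have h3 := r5 (j ⟨(u, v), huv⟩) (j ⟨(u', v'), hu'v'⟩)
    rw [(hj ⟨(u, v), huv⟩).1, (hj ⟨(u, v), huv⟩).2, (hj ⟨(u', v'), hu'v'⟩).1,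
      (hj ⟨(u', v'), hu'v'⟩).2] at h3
    rw [hσ, hσ, hσ]
    exact h3 hcc

end Pool.Agent.W_a4f561_h34
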