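import Pool.Agent.W_a4f561_h34.FcG

/-!
MP_a4f561_co (Subcubic): from the degree conditions of the digraph to the order.
-/

set_option autoImplicit false

namespace Pool.Agent.W_a4f561_h34

open Sum Pool.Agent.W_a4f561_h25

variable {V E : Type} {A : V → V → Prop}

theorem asmS_three {α : Type} [Finite α] {S : Set α} (h : S.ncard ≤ 2) {a b c : α} (ha : a ∈ S)
    (hb : b ∈ S) (hc : c ∈ S) : a = b ∨ b = c ∨ a = c := by
  by_contra hcon
  push Not at hcon
  have h1 : 2 < S.ncard :=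
    (Set.two_lt_ncard_iff (Set.toFinite S)).2 ⟨a, b, c, ha, hb, hc, hcon.1, hcon.2.2, hcon.2.1⟩
  omega

theorem asmS_two {α : Type} [Finite α] {S : Set α} (h : S.ncard ≤ 1) {a b : α} (ha : a ∈ S)
    (hb : b ∈ S) : a = b := by
  by_contra hcon
  have h1 : 1 < S.ncard := (Set.one_lt_ncard_iff (Set.toFinite S)).2 ⟨a, b, ha, hb, hcon⟩
  omega

/-- The degree conditions for the real edges. -/
theorem asmS_dg [Finite V] {P : Pl (Option (Option V)) E} {j : {p : V × V // A p.1 p.2} → E}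
    (o1 : ∀ v, {w | A v w}.ncard ≤ 2) (i1 : ∀ v, {u | A u v}.ncard ≤ 2)
    (io : ∀ v, {u | A u v}.ncard + {w | A v w}.ncard ≤ 3)
    (hj : ∀ p, P.tl (j p) = some (some p.1.1) ∧ P.hd (j p) = some (some p.1.2)) :
    Dg P (fun e => ∃ p, e = j p) := by
  have si : ∀ x y : V, (some (some x) : Option (Option V)) = some (some y) → x = y :=
    fun x y h => Option.some.inj (Option.some.inj h)
  have pe : ∀ p q : {p : V × V // A p.1 p.2}, p.1.1 = q.1.1 → p.1.2 = q.1.2 → j p = j q := by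
    intro p q h1 h2
    rw [Subtype.ext (Prod.ext h1 h2)]
  refine ⟨?_, ?_, ?_⟩
  · rintro a b c ⟨p, rfl⟩ ⟨p', rfl⟩ ⟨p'', rfl⟩ h1 h2
    rw [(hj _).1, (hj _).1] at h1 h2
    have e1 := si _ _ h1
    have e2 := si _ _ h2
    have m1 : p.1.2 ∈ {w | A p.1.1 w} := p.2
    have m2 : p'.1.2 ∈ {w | A p.1.1 w} := by rw [e1]; exact p'.2
    have m3 : p''.1.2 ∈ {w | A p.1.1 w} := by rw [e1, e2]; exact p''.2
    rcases asmS_three (o1 _) m1 m2 m3 with h | h | h
    · exact Or.inl (pe _ _ e1 h)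
    · exact Or.inr (Or.inl (pe _ _ e2 h))
    · exact Or.inr (Or.inr (pe _ _ (e1.trans e2) h))
  · rintro a b c ⟨p, rfl⟩ ⟨p', rfl⟩ ⟨p'', rfl⟩ h1 h2
    rw [(hj _).2, (hj _).2] at h1 h2
    have e1 := si _ _ h1
    have e2 := si _ _ h2
    have m1 : p.1.1 ∈ {w | A w p.1.2} := p.2
    have m2 : p'.1.1 ∈ {w | A w p.1.2} := by rw [e1]; exact p'.2
    have m3 : p''.1.1 ∈ {w | A w p.1.2} := by rw [e1, e2]; exact p''.2
    rcases asmS_three (i1 _) m1 m2 m3 with h | h | h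
    · exact Or.inl (pe _ _ h e1)
    · exact Or.inr (Or.inl (pe _ _ h e2))
    · exact Or.inr (Or.inr (pe _ _ h (e1.trans e2)))
  · rintro a b c d ⟨p, rfl⟩ ⟨p', rfl⟩ ⟨q, rfl⟩ ⟨q', rfl⟩ h1 h2 h3
    rw [(hj _).2, (hj _).2] at h1
    rw [(hj _).1, (hj _).1] at h2
    rw [(hj _).2, (hj _).1] at h3
    have e1 := si _ _ h1
    have e2 := si _ _ h2
    have e3 := si _ _ h3
    have h4 := io p.1.2
    have m1 : p.1.1 ∈ {w | A w p.1.2} := p.2
    have m2 : p'.1.1 ∈ {w | A w p.1.2} := by rw [e1]; exact p'.2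
    have n1 : q.1.2 ∈ {w | A p.1.2 w} := by rw [e3]; exact q.2
    have n2 : q'.1.2 ∈ {w | A p.1.2 w} := by rw [e3, e2]; exact q'.2
    by_cases hc : {u | A u p.1.2}.ncard ≤ 1
    · exact Or.inl (pe _ _ (asmS_two hc m1 m2) e1)
    · exact Or.inr (pe _ _ e2 (asmS_two (by omega) n1 n2))

/-- The order and the pages for the vertices of the digraph. -/
theorem asmS_core [Finite V] [Finite E] {P : Pl (Option (Option V)) E}
    {j : {p : V × V // A p.1 p.2} → E}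
    (o1 : ∀ v, {w | A v w}.ncard ≤ 2) (i1 : ∀ v, {u | A u v}.ncard ≤ 2)
    (io : ∀ v, {u | A u v}.ncard + {w | A v w}.ncard ≤ 3)
    (hj : ∀ p, P.tl (j p) = some (some p.1.1) ∧ P.hd (j p) = some (some p.1.2))
    (hst : StP P (some none) none) (H : Dm P (fun e => ∃ p, e = j p)) :
    ∃ r : V → V → Prop, ∃ q : V → V → Fin 2, (∀ x, ¬ r x x) ∧ (∀ x y z, r x y → r y z → r x z) ∧
      (∀ x y, x ≠ y → r x y ∨ r y x) ∧ (∀ u v, A u v → r u v) ∧
      (∀ a b c d, A a b → A c d → q a b = q c d → ¬ (r a c ∧ r c b ∧ r b d)) := by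
  classical
  obtain ⟨r, r1, r2, r3, r4, r5⟩ := real_main hst (by simp) H (asmS_dg o1 i1 io hj)
  have si : ∀ x y : V, x ≠ y → (some (some x) : Option (Option V)) ≠ some (some y) :=
    fun x y h h2 => h (Option.some.inj (Option.some.inj h2))
  let re : E → Prop := fun e => ∃ p, e = j p
  refine ⟨fun x y => r (some (some x)) (some (some y)),
    fun x y => if h : A x y then (if Tm P re (j ⟨(x, y), h⟩) ∧ Hm P re (j ⟨(x, y), h⟩) then 1 else 0)
      else 0, fun x => r1 _, fun x y z => r2 _ _ _, fun x y h => r3 _ _ (si x y h), ?_, ?_⟩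
  · intro u v h
    have h1 := r4 (j ⟨(u, v), h⟩) ⟨_, rfl⟩
    rw [(hj _).1, (hj _).2] at h1
    exact h1
  · intro a b c d hab hcd hq
    have h1 := r5 (j ⟨(a, b), hab⟩) (j ⟨(c, d), hcd⟩) ⟨_, rfl⟩ ⟨_, rfl⟩ ?_
    · rw [(hj _).1, (hj _).2, (hj _).1, (hj _).2] at h1
      exact h1
    · simp only [hab, hcd, dif_pos] at hq
      by_cases g1 : Tm P re (j ⟨(a, b), hab⟩) ∧ Hm P re (j ⟨(a, b), hab⟩) <;>
        by_cases g2 : Tm P re (j ⟨(c, d), hcd⟩) ∧ Hm P re (j ⟨(c, d), hcd⟩)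
      · exact ⟨fun _ => g2, fun _ => g1⟩
      · simp [g1, g2] at hq
      · simp [g1, g2] at hq
      · exact ⟨fun h => absurd h g1, fun h => absurd h g2⟩

end Pool.Agent.W_a4f561_h34
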