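import Pool.Agent.W_a4f561_h34.AsmS
import Pool.Agent.W_a4f561_h25.Dr1F
import Pool.Agent.W_a4f561_h73.A4Cnv
import Pool.Agent.W_a4f561_h73.A4Two

/-!
MP_a4f561_co (Subcubic): assembly.
-/

set_option autoImplicit false

namespace Pool.Agent.W_a4f561_h34

open Sum Pool.Agent.W_a4f561_h25 Pool.Agent.W_a4f561_h73

/-- The drawing gives a planar st-structure (`drw1_pl`), then `asmS_core`. -/
theorem assembly2 (n : ℕ) (G : Digraph (Fin n)) (f : Fin n → ℝ × ℝ) (hf : Function.Injective f)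
    (γ : Fin n → Fin n → ℝ → ℝ × ℝ)
    (h1 : ∀ u v, G.Adj u v →
      ContinuousOn (γ u v) (Set.Icc (0:ℝ) 1) ∧
      γ u v 0 = f u ∧ γ u v 1 = f v ∧
      StrictMonoOn (fun t => (γ u v t).2) (Set.Icc (0:ℝ) 1) ∧
      (∀ w, ∀ s ∈ Set.Ioo (0:ℝ) 1, γ u v s ≠ f w))
    (h2 : ∀ u v u' v', G.Adj u v → G.Adj u' v' → (u, v) ≠ (u', v') →
      ∀ s ∈ Set.Ioo (0:ℝ) 1, ∀ t ∈ Set.Icc (0:ℝ) 1, γ u v s ≠ γ u' v' t)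
    (hi : ∀ v, {u | G.Adj u v}.ncard ≤ 2) (ho : ∀ v, {w | G.Adj v w}.ncard ≤ 2)
    (hd : ∀ v, {u | G.Adj u v}.ncard + {w | G.Adj v w}.ncard ≤ 3) :
    ∃ σ : Fin n ≃ Fin n, ∃ p : Fin n → Fin n → Fin 2,
      (∀ u v, G.Adj u v → σ u < σ v) ∧
      (∀ a b c d, G.Adj a b → G.Adj c d → p a b = p c d →
        ¬ (σ a < σ c ∧ σ c < σ b ∧ σ b < σ d)) := by
  obtain ⟨D, _⟩ := exists_drw_y f hf γ h1 h2
  obtain ⟨E, iE, P, j, hj, hst, d1, d2, d3⟩ := drw1_pl D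
  have ne : ∀ {d : E}, ¬ (∃ p, d = j p) → ∀ p, d ≠ j p := fun h p hp => h ⟨p, hp⟩
  have H : Dm P (fun e => ∃ p, e = j p) := by
    refine ⟨?_, ?_, ?_⟩
    · rintro d hd' ⟨e, ⟨p, rfl⟩, hp⟩
      obtain ⟨⟨q, k1, k2⟩, ⟨q', k3, k4⟩⟩ := d1 d (ne hd') ⟨p, hp⟩
      exact ⟨⟨j q, ⟨q, rfl⟩, k1, k2⟩, ⟨j q', ⟨q', rfl⟩, k3, k4⟩⟩
    · rintro d hd' ⟨e, ⟨p, rfl⟩, hp⟩
      obtain ⟨⟨q, k1, k2⟩, ⟨q', k3, k4⟩⟩ := d2 d (ne hd') ⟨p, hp⟩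
      exact ⟨⟨j q, ⟨q, rfl⟩, k1, k2⟩, ⟨j q', ⟨q', rfl⟩, k3, k4⟩⟩
    · intro d hd'
      rcases d3 d (ne hd') with h | h
      · left
        rintro e ⟨p, rfl⟩
        exact h p
      · right
        rintro e ⟨p, rfl⟩
        exact h p
  obtain ⟨r, q, r1, r2, r3, r4, r5⟩ := asmS_core ho hi hd hj hst H
  obtain ⟨σ, hσ⟩ := exists_perm r r1 r2 r3
  refine ⟨σ, q, fun u v huv => (hσ u v).2 (r4 u v huv), ?_⟩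
  intro a b c d hab hcd hq
  rw [hσ, hσ, hσ]
  exact r5 a b c d hab hcd hq

end Pool.Agent.W_a4f561_h34
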