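import Pool.Agent.W_a4f561_h34.SgC

/-!
MP_a4f561_co (Subcubic): the step for one face, all new vertices before one vertex.
-/

set_option autoImplicit false

namespace Pool.Agent.W_a4f561_h34

open Pool.Agent.W_a4f561_h25

variable {V : Type} {U : Set V} {r : V → V → Prop} {w : List V} {op F1 F0 : V → V → Prop}

private theorem SgF_right {m : List V} (b : List V) {u v : V} (h : Cons m u v) :
    Cons (m ++ b) u v := by
  obtain ⟨a, b', rfl⟩ := h
  exact ⟨a, b' ++ b, by simp⟩

private theorem SgF_last {m : List V} {y u v : V} (h : Cons (m ++ [y]) u v) :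
    Cons m u v ∨ (v = y ∧ ∃ m', m = m' ++ [u]) := by
  obtain ⟨a, b, h⟩ := h
  rcases List.eq_nil_or_concat b with rfl | ⟨b', z, rfl⟩
  · right
    have h1 : m ++ [y] = (a ++ [u]) ++ [v] := by simpa using h
    have h2 := (List.append_inj' h1 rfl).2
    injection h2 with h3 h4
    exact ⟨h3.symm, a, (List.append_inj' h1 rfl).1⟩
  · left
    have h1 : m ++ [y] = (a ++ u :: v :: b') ++ [z] := by simpa using h
    exact ⟨a, b', (List.append_inj' h1 rfl).1⟩

private theorem SgF_head {m : List V} {x u v : V} (h : Cons (x :: m) u v) : u = x ∨ Cons m u v := by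
  cases m with
  | nil => exact absurd h (cons_one x u v)
  | cons y b =>
    rcases (cons_two x y b u v).1 h with h | h
    · exact Or.inl h.1
    · exact Or.inr h

/-- All new vertices are inserted before a vertex `y` of the left side (above `v`). Proof: `H.before`, then `Sn.fin` with
`L ++ [u] = La ++ y :: Lb` (cf. `Sn.step_after`). -/
theorem Sn.step_before (H : Sn U r w op F1 F0) {w1 L R w2 : List V} {v u : V}
    (hw : w = w1 ++ v :: (L ++ u :: w2)) (hR : R.Nodup) (hRU : ∀ z ∈ R, z ∉ U)
    {N1 N0 op' : V → V → Prop}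
    (n1 : ∀ x y, N1 x y → Cons (v :: (R ++ [u])) x y)
    (n0 : ∀ x y, N0 x y → Cons (v :: (R ++ [u])) x y)
    (n10 : ∀ x y, N1 x y → ¬ N0 x y)
    (hop : ∀ x y, op' x y → (op x y ∧ (Cons (w1 ++ [v]) x y ∨ Cons (u :: w2) x y)) ∨ N1 x y)
    {y : V} (hy : y ∈ L ++ [u]) (hf : ∀ a, ¬ F0 a y) (hu : (∃ x, N1 x u) → y = u)
    (hv : ∀ x, ¬ N1 v x) :
    ∃ r', Sn (U ∪ {z | z ∈ R}) r' (w1 ++ v :: (R ++ u :: w2)) op'
      (fun x y => F1 x y ∨ N1 x y) (fun x y => F0 x y ∨ N0 x y) := by
  obtain ⟨La, Lb, hL⟩ := List.append_of_mem hy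
  have hwy : w = (w1 ++ v :: La) ++ y :: (Lb ++ w2) := by
    rw [hw, show v :: (L ++ u :: w2) = v :: ((L ++ [u]) ++ w2) by simp, hL]
    simp
  obtain ⟨r', H'⟩ := H.before hwy hf hR hRU
  -- the wall has no repetitions
  have hne : ∀ a b, a ∈ w → b ∈ w → r a b → a ≠ b := by
    rintro a b ha _ hab rfl
    exact H.lin.irr a (H.wU a ha) hab
  have hp1 : ∀ b ∈ w1 ++ [v], b ≠ y := by
    intro b hb
    have h1 : w = (w1 ++ [v]) ++ ((L ++ [u]) ++ w2) := by rw [hw]; simp
    have h2 := H.winc
    rw [h1, List.pairwise_append] at h2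
    have h3 := h2.2.2 b hb y (List.mem_append_left _ hy)
    exact hne b y (by rw [h1]; exact List.mem_append_left _ hb)
      (by rw [h1]; exact List.mem_append_right _ (List.mem_append_left _ hy)) h3
  have hp2 : ∀ b ∈ w2, b ≠ y := by
    intro b hb
    have h1 : w = (w1 ++ v :: (L ++ [u])) ++ w2 := by rw [hw]; simp
    have hy' : y ∈ w1 ++ v :: (L ++ [u]) :=
      List.mem_append_right _ (List.mem_cons_of_mem _ hy)
    have h2 := H.winc
    rw [h1, List.pairwise_append] at h2
    have h3 := h2.2.2 y hy' b hb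
    exact (hne y b (by rw [h1]; exact List.mem_append_left _ hy')
      (by rw [h1]; exact List.mem_append_right _ hb) h3).symm
  have huL : u ∈ y :: Lb := by
    rcases List.eq_nil_or_concat (y :: Lb) with h1 | ⟨b', z, h1⟩
    · exact absurd h1 (List.cons_ne_nil _ _)
    · rw [h1] at hL ⊢
      have h2 : L ++ [u] = (La ++ b') ++ [z] := by rw [hL]; simp
      have h3 := (List.append_inj' h2 rfl).2
      injection h3 with h4 h5
      rw [h4]
      simp
  refine ⟨r', H'.fin ?_ ?_ ?_ n1 n0 n10 hop⟩
  · -- the new wall is a sublist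
    have h1 : (w1 ++ v :: La) ++ (R ++ y :: (Lb ++ w2)) = w1 ++ v :: (La ++ (R ++ ((y :: Lb) ++ w2))) := by
      simp
    rw [h1]
    refine (List.Sublist.refl w1).append (List.Sublist.cons_cons v ?_)
    refine List.Sublist.trans ?_ (List.sublist_append_right La _)
    refine (List.Sublist.refl R).append ?_
    have h2 : (u :: w2) = [u] ++ w2 := rfl
    rw [h2]
    exact (List.singleton_sublist.2 huL).append (List.Sublist.refl w2)
  · rintro a b hab (h1 | h1)
    · exact Or.inl ⟨hab, hp1 b (cons_mem h1).2⟩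
    · refine Or.inl ⟨hab, ?_⟩
      obtain ⟨c, d, h2⟩ := h1
      cases c with
      | nil =>
        rw [List.nil_append] at h2
        injection h2 with h3 h4
        exact hp2 b (by rw [h4]; exact List.mem_cons_self)
      | cons e c =>
        injection h2 with h3 h4
        have h5 : b ∈ w2 := by
          rw [h4]
          exact List.mem_append_right _ (List.mem_cons_of_mem _ List.mem_cons_self)
        exact hp2 b h5
  · intro a b hab
    right
    rcases SgF_head (n1 a b hab) with h1 | h1
    · exact absurd (h1 ▸ hab) (hv b)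
    · rcases SgF_last h1 with h2 | ⟨h2, m', h3⟩
      · exact SgF_right _ h2
      · have h4 : y = u := hu ⟨a, h2 ▸ hab⟩
        rw [h2, h4, h3]
        exact ⟨m', [], by simp⟩

end Pool.Agent.W_a4f561_h34
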