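import Pool.Agent.W_a4f561_h34.SgC

/-!
MP_a4f561_co (Subcubic): the step for one face, two parts.
-/

set_option autoImplicit false

namespace Pool.Agent.W_a4f561_h34

open Pool.Agent.W_a4f561_h25

variable {V : Type} {U : Set V} {r : V → V → Prop} {w : List V} {op F1 F0 : V → V → Prop}

/-- The new vertices are `R1 ++ R2`, `R1` is inserted after `v` and `R2` before `u`; the pair
(last of `R1`, first of `R2`) is not in `N1`. Proof: `H.after` for `R1`, `Sn.before` for `R2` in the new state (`F0` is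
the same), `Sn.fin`. -/
theorem Sn.step_split (H : Sn U r w op F1 F0) {w1 L R1 R2 w2 : List V} {v u : V}
    (hw : w = w1 ++ v :: (L ++ u :: w2)) (hR : (R1 ++ R2).Nodup) (hRU : ∀ z ∈ R1 ++ R2, z ∉ U)
    {N1 N0 op' : V → V → Prop}
    (n1 : ∀ x y, N1 x y → Cons (v :: ((R1 ++ R2) ++ [u])) x y)
    (n0 : ∀ x y, N0 x y → Cons (v :: ((R1 ++ R2) ++ [u])) x y)
    (n10 : ∀ x y, N1 x y → ¬ N0 x y)
    (hop : ∀ x y, op' x y → (op x y ∧ (Cons (w1 ++ [v]) x y ∨ Cons (u :: w2) x y)) ∨ N1 x y)
    (hv : ∀ b, ¬ F0 v b) (hu : ∀ a, ¬ F0 a u)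
    (hs : ∀ x y, N1 x y → Cons (v :: R1) x y ∨ Cons (R2 ++ [u]) x y) :
    ∃ r', Sn (U ∪ {z | z ∈ R1 ++ R2}) r' (w1 ++ v :: ((R1 ++ R2) ++ u :: w2)) op'
      (fun x y => F1 x y ∨ N1 x y) (fun x y => F0 x y ∨ N0 x y) := by
  obtain ⟨d1, d2, d3⟩ := List.nodup_append.1 hR
  have hwp := H.winc
  rw [hw] at hwp
  have hwp' : ((w1 ++ v :: L) ++ u :: w2).Pairwise r := by
    rw [List.append_assoc, List.cons_append]
    exact hwp
  have hwU : ∀ z ∈ w1 ++ v :: (L ++ u :: w2), z ∈ U := fun z hz => H.wU z (by rw [hw]; exact hz)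
  obtain ⟨p1, p2, p3, -⟩ := pw_le hwp
  obtain ⟨q1, q2, -, q4⟩ := pw_le hwp'
  have hvU : v ∈ U := hwU v (by simp)
  have huU : u ∈ U := hwU u (by simp)
  have hvu : v ≠ u := by
    rintro rfl
    exact H.lin.irr _ hvU (q1 _ (by simp))
  obtain ⟨r1, H1⟩ := H.after hw hv d1 fun z hz => hRU z (List.mem_append_left _ hz)
  have hw2 : w1 ++ v :: (R1 ++ (L ++ u :: w2)) = (w1 ++ v :: (R1 ++ L)) ++ u :: w2 := by simp
  obtain ⟨r2, H2⟩ := H1.before hw2 hu d2 fun z hz hz' => by
    rcases hz' with h | h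
    · exact hRU z (List.mem_append_right _ hz) h
    · exact d3 z h z hz rfl
  have hU : (U ∪ {z | z ∈ R1}) ∪ {z | z ∈ R2} = U ∪ {z | z ∈ R1 ++ R2} := by
    ext z
    simp only [Set.mem_union, Set.mem_ofPred_eq, List.mem_append]
    exact or_assoc
  rw [hU] at H2
  refine ⟨r2, Sn.fin (R := R1 ++ R2) (op := op) H2 ?_ ?_ ?_ n1 n0 n10 hop⟩
  · rw [List.append_assoc w1]
    refine List.Sublist.append (List.Sublist.refl w1) ?_
    rw [List.cons_append, List.append_assoc R1, List.append_assoc R1]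
    refine List.Sublist.cons_cons v (List.Sublist.append (List.Sublist.refl R1) ?_)
    exact List.sublist_append_right L _
  · rintro x y hxy (h | h)
    · have hr := cons_rel p3 h
      obtain ⟨hx, hy⟩ := cons_mem h
      have hyw : y ∈ w1 ++ v :: L := by
        rcases List.mem_append.1 hy with h1 | h1
        · exact List.mem_append_left _ h1
        · rw [List.mem_singleton] at h1
          rw [h1]
          simp
      refine Or.inl ⟨Or.inl ⟨hxy, ?_⟩, ?_⟩
      · rintro rfl
        rcases List.mem_append.1 hy with h1 | h1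
        · exact H.lin.as hvU (hwU y (List.mem_append_left _ h1)) hr (p1 y h1)
        · rw [List.mem_singleton] at h1
          rw [h1] at hr
          exact H.lin.irr _ hvU hr
      · rintro rfl
        exact H.lin.irr _ huU (q1 _ hyw)
    · have hr := cons_rel q4 h
      obtain ⟨hx, hy⟩ := cons_mem h
      refine Or.inl ⟨Or.inl ⟨hxy, ?_⟩, ?_⟩
      · rintro rfl
        exact H.lin.irr _ hvU (p2 _ (List.mem_append_right _ hx))
      · rintro rfl
        rcases List.mem_cons.1 hx with h1 | h1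
        · rw [h1] at hr
          exact H.lin.irr _ huU hr
        · have hxU : x ∈ U := hwU x (by simp [h1])
          exact H.lin.as huU hxU (q2 x h1) hr
  · intro x y hxy
    rcases hs x y hxy with h | h
    · refine Or.inl ⟨Or.inr h, ?_⟩
      rintro rfl
      rcases List.mem_cons.1 (cons_mem h).2 with h1 | h1
      · exact hvu h1.symm
      · exact hRU _ (List.mem_append_left _ h1) huU
    · exact Or.inr h

end Pool.Agent.W_a4f561_h34
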