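import Pool.Agent.W_a4f561_h34.SgE
import Pool.Agent.W_a4f561_h34.SgF
import Pool.Agent.W_a4f561_h34.SgG

/-!
MP_a4f561_co (Subcubic): the step for one face, all cases.
-/

set_option autoImplicit false

namespace Pool.Agent.W_a4f561_h34

open Pool.Agent.W_a4f561_h25

variable {V : Type} {U : Set V} {r : V → V → Prop} {w : List V} {op F1 F0 : V → V → Prop}

/-- A consecutive pair of `l` splits it. -/
theorem cons_split {l : List V} {v u x y : V} (h : Cons (v :: (l ++ [u])) x y) :
    (l = [] ∧ x = v ∧ y = u) ∨ (∃ l', l = y :: l' ∧ x = v) ∨ (∃ l', l = l' ++ [x] ∧ y = u) ∨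
      ∃ l1 l2, l = l1 ++ x :: y :: l2 := by
  obtain ⟨a, b, h⟩ := h
  cases a with
  | nil =>
    rw [List.nil_append] at h
    injection h with h1 h2
    cases l with
    | nil =>
      rw [List.nil_append] at h2
      injection h2 with h3 h4
      exact Or.inl ⟨rfl, h1.symm, h3.symm⟩
    | cons z l' =>
      rw [List.cons_append] at h2
      injection h2 with h3 h4
      exact Or.inr (Or.inl ⟨l', by rw [h3], h1.symm⟩)
  | cons a0 a' =>
    rw [List.cons_append] at h
    injection h with h1 h2
    rcases List.eq_nil_or_concat b with rfl | ⟨b', z, rfl⟩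
    · have h3 : l ++ [u] = (a' ++ [x]) ++ [y] := by simpa using h2
      obtain ⟨h4, h5⟩ := List.append_inj' h3 rfl
      injection h5 with h6
      exact Or.inr (Or.inr (Or.inl ⟨a', h4, h6.symm⟩))
    · have h3 : l ++ [u] = (a' ++ x :: y :: b') ++ [z] := by simpa using h2
      exact Or.inr (Or.inr (Or.inr ⟨a', b', (List.append_inj' h3 rfl).1⟩))

private theorem SgD_snd {m : List V} {x u v : V} (h : Cons (x :: m) u v) : v ∈ m := by
  obtain ⟨a, b, h⟩ := h
  cases a with
  | nil =>
    have h1 := (List.cons.inj h).2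
    rw [h1]
    exact List.mem_cons_self
  | cons z a =>
    have h1 := (List.cons.inj h).2
    rw [h1]
    simp

private theorem SgD_fst {m : List V} {y u v : V} (h : Cons (m ++ [y]) u v) : u ∈ m := by
  obtain ⟨a, b, h⟩ := h
  rcases List.eq_nil_or_concat b with rfl | ⟨b', z, rfl⟩
  · have h1 : m ++ [y] = (a ++ [u]) ++ [v] := by simpa using h
    rw [(List.append_inj' h1 rfl).1]
    simp
  · have h1 : m ++ [y] = (a ++ u :: v :: b') ++ [z] := by simpa using h
    rw [(List.append_inj' h1 rfl).1]
    simp

/-- One face: left side `v, L, u`, right side `v, R, u`; `N1`, `N0` are the pairs of the right side which go to page 1 and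
to page 0.

Proof. If `R = []`, then `N1` is empty by `hc` (`N1 x y` gives `x = v`, `y = u`), and `Sn.fin` with `wI = w` gives it.
If no `N1 v y` and no `N1 x u`: `step_after` or `step_before` by `hd`. If `N1 v y` for some `y` and no `N1 x u`: `step_after`
with `x = v`. If `N1 x u` for some `x`, but no `N1 v y`: `step_before` with `y = u`. If both: let `(x, y)` be the pair of `hc`;
`cons_split`: `x ≠ v` or `y ≠ u` as `R ≠ []`; `x = v` and `R = y :: l'`: then `N1 v y'` gives `y' = y` (`R` and `v` are without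
repetitions), contradiction; the same for `y = u`; so `R = l1 ++ x :: y :: l2` and `step_split` with `R1 = l1 ++ [x]`,
`R2 = y :: l2` (`hs`: a pair of `N1` is consecutive in `v :: (R ++ [u])`, so by `cons_app` it is in one of the two parts or it
is `(x, y)`). For the repetitions: `w1 ++ v :: (R ++ u :: w2)` is without repetitions as `R` is new, and the wall is
sorted. -/
theorem Sn.face2 (H : Sn U r w op F1 F0) {w1 L R w2 : List V} {v u : V}
    (hw : w = w1 ++ v :: (L ++ u :: w2)) (hR : R.Nodup) (hRU : ∀ z ∈ R, z ∉ U)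
    {N1 N0 op' : V → V → Prop}
    (n1 : ∀ x y, N1 x y → Cons (v :: (R ++ [u])) x y)
    (n0 : ∀ x y, N0 x y → Cons (v :: (R ++ [u])) x y)
    (n10 : ∀ x y, N1 x y → ¬ N0 x y)
    (hop : ∀ x y, op' x y → (op x y ∧ (Cons (w1 ++ [v]) x y ∨ Cons (u :: w2) x y)) ∨ N1 x y)
    (fv : (∃ y, N1 v y) → ∀ b, ¬ F0 v b) (fu : (∃ x, N1 x u) → ∀ a, ¬ F0 a u)
    (hc : ∃ x y, Cons (v :: (R ++ [u])) x y ∧ ¬ N1 x y)
    (hd : (∃ x ∈ v :: L, ∀ b, ¬ F0 x b) ∨ ∃ y ∈ L ++ [u], ∀ a, ¬ F0 a y) :
    ∃ r', Sn (U ∪ {z | z ∈ R}) r' (w1 ++ v :: (R ++ u :: w2)) op'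
      (fun x y => F1 x y ∨ N1 x y) (fun x y => F0 x y ∨ N0 x y) := by
  have hvU : v ∈ U := H.wU v (by rw [hw]; simp)
  have huU : u ∈ U := H.wU u (by rw [hw]; simp)
  have hvR : v ∉ R := fun h => hRU v h hvU
  have huR : u ∉ R := fun h => hRU u h huU
  by_cases hv : ∃ y, N1 v y
  · by_cases hu : ∃ x, N1 x u
    · obtain ⟨x, y, hxy, hn⟩ := hc
      rcases cons_split hxy with ⟨hl, h1, h2⟩ | ⟨l', hl, h1⟩ | ⟨l', hl, h1⟩ | ⟨l1, l2, hl⟩
      · exfalso
        subst hl
        obtain ⟨y', hy'⟩ := hv
        have h3 := n1 v y' hy'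
        rw [List.nil_append, cons_two] at h3
        rcases h3 with ⟨-, h3⟩ | h3
        · rw [h1, h2] at hn
          rw [h3] at hy'
          exact hn hy'
        · exact cons_one _ _ _ h3
      · exfalso
        obtain ⟨y', hy'⟩ := hv
        have h3 := n1 v y' hy'
        rw [hl, List.cons_append, cons_two] at h3
        rcases h3 with ⟨-, h3⟩ | h3
        · rw [h1] at hn
          rw [h3] at hy'
          exact hn hy'
        · rw [← List.cons_append] at h3
          have h4 := SgD_fst h3
          rw [← hl] at h4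
          exact hvR h4
      · exfalso
        obtain ⟨x', hx'⟩ := hu
        have h3 := n1 x' u hx'
        have h5 : v :: (R ++ [u]) = (v :: l') ++ x :: [u] := by
          rw [hl]
          simp
        rw [h5, cons_app] at h3
        rcases h3 with h3 | h3
        · rw [List.cons_append] at h3
          have h4 := SgD_snd h3
          rw [← hl] at h4
          exact huR h4
        · rw [cons_two] at h3
          rcases h3 with ⟨h3, -⟩ | h3
          · rw [h1] at hn
            rw [h3] at hx'
            exact hn hx'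
          · exact cons_one _ _ _ h3
      · have e : R = (l1 ++ [x]) ++ (y :: l2) := by
          rw [hl]
          simp
        rw [e] at hR hRU n1 n0 ⊢
        refine H.step_split hw hR hRU n1 n0 n10 hop (fv hv) (fu hu) ?_
        intro a b hab
        have h3 := n1 a b hab
        have h5 : v :: (((l1 ++ [x]) ++ (y :: l2)) ++ [u]) = (v :: l1) ++ x :: (y :: (l2 ++ [u])) := by
          simp
        rw [h5, cons_app] at h3
        rcases h3 with h3 | h3
        · exact Or.inl h3
        · rw [cons_two] at h3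
          rcases h3 with ⟨h3, h4⟩ | h3
          · exfalso
            rw [h3, h4] at hab
            exact hn hab
          · exact Or.inr h3
    · exact H.step_after hw hR hRU n1 n0 n10 hop List.mem_cons_self (fv hv) (fun _ => rfl)
        (fun y h => hu ⟨y, h⟩)
  · by_cases hu : ∃ x, N1 x u
    · exact H.step_before hw hR hRU n1 n0 n10 hop (y := u) (by simp) (fu hu) (fun _ => rfl)
        (fun y h => hv ⟨y, h⟩)
    · rcases hd with ⟨x, hx, hf⟩ | ⟨y, hy, hf⟩
      · exact H.step_after hw hR hRU n1 n0 n10 hop hx hf (fun h => absurd h hv)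
          (fun y h => hu ⟨y, h⟩)
      · exact H.step_before hw hR hRU n1 n0 n10 hop hy hf (fun h => absurd h hu)
          (fun y h => hv ⟨y, h⟩)

end Pool.Agent.W_a4f561_h34
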