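import Pool.Agent.W_a4f561_h34.SnB

/-!
MP_a4f561_co (BipLattice): the step for one face, in the bipartite case. The open pairs are the
consecutive pairs of the wall whose lower vertex has colour `true`; page 1 has the edges whose tail has
colour `true`.
-/

set_option autoImplicit false

namespace Pool.Agent.W_a4f561_h34

open Pool.Agent.W_a4f561_h25

/-- The state in the bipartite case; `F` is the set of all edges that are already done. -/
def StB {V : Type} (c : V → Bool) (U : Set V) (r : V → V → Prop) (w : List V)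
    (F : V → V → Prop) : Prop :=
  Sn U r w (fun u v => Cons w u v ∧ c u = true) (fun u v => F u v ∧ c u = true)
    (fun u v => F u v ∧ c u = false)

variable {V : Type} {c : V → Bool}

/-- The first wall. -/
theorem stB_init {w : List V} (hw : w.Nodup) :
    ∃ r, StB c {z | z ∈ w} r w (Cons w) := by
  obtain ⟨r, hr, hw2⟩ := exists_ord w hw
  have hU : ∀ z ∈ w, z ∈ {z | z ∈ w} := fun z hz => hz
  refine ⟨r, hr, hU, hw2, fun x y h => h.1, ?_, ?_, ?_, ?_, ?_, ?_⟩
  · intro x y h z hz
    exact cons_btw hr hU hw2 h.1 hz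
  · rintro x y (h | h)
    · exact ⟨(cons_mem h.1).1, (cons_mem h.1).2, cons_rel hw2 h.1⟩
    · exact ⟨(cons_mem h.1).1, (cons_mem h.1).2, cons_rel hw2 h.1⟩
  · intro x y h z hz
    exact cons_btw hr hU hw2 h.1 hz
  · intro x y h h2
    have h3 := h.2
    rw [h2.2] at h3
    exact Bool.noConfusion h3
  · intro a b a' b' h h' h3
    exact cons_btw hr hU hw2 h.1 (cons_mem h'.1).1 ⟨h3.1, h3.2.1⟩
  · intro a b a' b' h h' h3
    exact cons_btw hr hU hw2 h.1 (cons_mem h'.1).1 ⟨h3.1, h3.2.1⟩

/-- A list with alternating colours. -/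
theorem alt_col {l : List V} (h : ∀ u v, Cons l u v → c u ≠ c v) {x y : V} {m : List V}
    (hl : l = x :: (m ++ [y])) : (c x = c y ↔ m.length % 2 = 1) := by
  subst hl
  induction m generalizing x with
  | nil =>
    have h1 : c x ≠ c y := h x y ⟨[], [], rfl⟩
    simp [h1]
  | cons z m ih =>
    have h1 : c x ≠ c z := h x z ⟨[], m ++ [y], rfl⟩
    have h2 : c z = c y ↔ m.length % 2 = 1 := by
      refine ih fun u v huv => h u v ?_
      have h3 := (cons_two x z (m ++ [y]) u v).2 (Or.inr huv)
      exact h3
    rw [List.length_cons]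
    constructor
    · intro h3
      have h4 : ¬ c z = c y := fun h5 => h1 (h3.trans h5.symm)
      have h5 : ¬ m.length % 2 = 1 := fun h6 => h4 (h2.2 h6)
      omega
    · intro h3
      have h4 : ¬ m.length % 2 = 1 := by omega
      have h5 : c z ≠ c y := fun h6 => h4 (h2.1 h6)
      cases hx : c x <;> cases hz : c z <;> cases hy : c y <;> simp_all

end Pool.Agent.W_a4f561_h34
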