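import Pool.Agent.W_a4f561_h34.WaF

/-!
MP_a4f561_co (BipLattice): induction over the walls from left to right.
-/

set_option autoImplicit false

namespace Pool.Agent.W_a4f561_h34

open Sum Pool.Agent.W_a4f561_h25

variable {V E : Type} {P : Pl V E} {s t : V} {W : List E}

/-- The inner vertices of the new side are new: no edge that is not right of `W` is incident to them
(`side_hd`, `side_tl`). -/
theorem new_vert [Finite V] [Finite E] (h : StP P s t) (hW : Pa P.tl P.hd s W t) {e g : E}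
    (he : Rg P W (inr e)) (hv : ¬ On P s W (P.hd e)) (hg : ¬ Rg P W (inr g)) :
    P.hd g ≠ P.hd e ∧ P.tl g ≠ P.hd e := by
  have h1 : Rg P W (inl (P.hd e)) := (side_hd h hW hv).2 he
  constructor
  · intro h2
    have hv' : ¬ On P s W (P.hd g) := by rw [h2]; exact hv
    have h1' : Rg P W (inl (P.hd g)) := by rw [h2]; exact h1
    exact hg ((side_hd h hW hv').1 h1')
  · intro h2
    have hv' : ¬ On P s W (P.tl g) := by rw [h2]; exact hv
    have h1' : Rg P W (inl (P.tl g)) := by rw [h2]; exact h1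
    exact hg ((side_tl h hW hv').1 h1')

/-- Induction on the number of edges right of the wall. -/
theorem wall_induction [Finite V] [Finite E] (h : StP P s t) (hst : s ≠ t) (M : List E → Prop)
    (h0 : ∀ W, Pa P.tl P.hd s W t → (∀ g, ¬ Rg P W (inr g) → g ∈ W) → M W)
    (hstep : ∀ (W1 Wm W2 Q : List E) (v u : V), Pa P.tl P.hd s W1 v → Pa P.tl P.hd v Wm u →
      Pa P.tl P.hd v Q u → Pa P.tl P.hd u W2 t → Wm ≠ [] → Q ≠ [] →
      (∀ e ∈ Q, Rg P (W1 ++ (Wm ++ W2)) (inr e)) →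
      (∀ e ∈ Q.dropLast, ∀ g, ¬ Rg P (W1 ++ (Wm ++ W2)) (inr g) →
        P.hd g ≠ P.hd e ∧ P.tl g ≠ P.hd e) →
      (∀ g, Rg P (W1 ++ (Q ++ W2)) (inr g) ↔ Rg P (W1 ++ (Wm ++ W2)) (inr g) ∧ g ∉ Q) →
      M (W1 ++ (Wm ++ W2)) → M (W1 ++ (Q ++ W2))) :
    ∃ W, Pa P.tl P.hd s W t ∧ (∀ g, ¬ Rg P W (inr g)) ∧ M W := by
  have key : ∀ (n : ℕ) (W : List E), Set.ncard {g : E | Rg P W (inr g)} ≤ n →
      Pa P.tl P.hd s W t → M W →
      ∃ W, Pa P.tl P.hd s W t ∧ (∀ g, ¬ Rg P W (inr g)) ∧ M W := by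
    intro n
    induction n with
    | zero =>
      intro W hn hW hM
      refine ⟨W, hW, ?_, hM⟩
      intro g hg
      have h1 : {g : E | Rg P W (inr g)} = ∅ :=
        (Set.ncard_eq_zero (Set.toFinite _)).1 (Nat.le_zero.1 hn)
      have h2 : g ∈ {g : E | Rg P W (inr g)} := hg
      rw [h1] at h2
      exact h2
    | succ n ih =>
      intro W hn hW hM
      by_cases hne : ∃ g, Rg P W (inr g)
      · obtain ⟨W1, Wm, W2, Q, v, u, rfl, hW1, hWm, hQ, hW2, hm0, hq0, hQr, hQd, hR⟩ :=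
          next_face h hW hne
        refine ih (W1 ++ (Q ++ W2)) ?_ ?_ ?_
        · have hlt : Set.ncard {g : E | Rg P (W1 ++ (Q ++ W2)) (inr g)} <
              Set.ncard {g : E | Rg P (W1 ++ (Wm ++ W2)) (inr g)} := by
            refine Set.ncard_lt_ncard ?_ (Set.toFinite _)
            refine ⟨fun g hg => ((hR g).1 hg).1, ?_⟩
            intro hsub
            obtain ⟨e, he⟩ := List.exists_mem_of_ne_nil Q hq0
            have h3 : Rg P (W1 ++ (Q ++ W2)) (inr e) := hsub (hQr e he)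
            exact ((hR e).1 h3).2 he
          omega
        · exact pa_app.2 ⟨v, hW1, pa_app.2 ⟨u, hQ, hW2⟩⟩
        · refine hstep W1 Wm W2 Q v u hW1 hWm hQ hW2 hm0 hq0 hQr ?_ hR hM
          intro e he g hg
          exact new_vert h hW (hQr e (List.mem_of_mem_dropLast he)) (hQd e he) hg
      · exact ⟨W, hW, fun g hg => hne ⟨g, hg⟩, hM⟩
  obtain ⟨W, hW, hg⟩ := first_wall h hst
  exact key _ W le_rfl hW (h0 W hW hg)

end Pool.Agent.W_a4f561_h34
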