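import Pool.Agent.W_a4f561_h34.PmA
import Pool.Agent.W_a4f561_h34.WaG
import Pool.Agent.W_a4f561_h34.SgD
import Pool.Agent.W_a4f561_h34.SnC

/-!
MP_a4f561_co (Subcubic): faces; preliminaries for the step.
-/

set_option autoImplicit false

namespace Pool.Agent.W_a4f561_h34

open Sum Pool.Agent.W_a4f561_h25

variable {V E : Type} {P : Pl V E} {s t a b : V} {W : List E}

/-- A face between the walls `W1 ++ (Wm ++ W2)` and `W1 ++ (Q ++ W2)`, from `v` to `u` (as in `wall_induction`). -/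
structure Fc (P : Pl V E) (s t : V) (W1 Wm W2 Q : List E) (v u : V) : Prop where
  p1 : Pa P.tl P.hd s W1 v
  pm : Pa P.tl P.hd v Wm u
  pq : Pa P.tl P.hd v Q u
  p2 : Pa P.tl P.hd u W2 t
  nm : Wm ≠ []
  nq : Q ≠ []
  rg : ∀ e ∈ Q, Rg P (W1 ++ (Wm ++ W2)) (inr e)
  nw : ∀ e ∈ Q.dropLast, ∀ g, ¬ Rg P (W1 ++ (Wm ++ W2)) (inr g) →
    P.hd g ≠ P.hd e ∧ P.tl g ≠ P.hd e
  nr : ∀ g, Rg P (W1 ++ (Q ++ W2)) (inr g) ↔ Rg P (W1 ++ (Wm ++ W2)) (inr g) ∧ g ∉ Q

/-- Two edges with the same head are side by side. Proof: as `same_tl` of WaD, with `up_e`, `hd_lo`. -/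
theorem same_hd {e e' : E} (h : P.hd e = P.hd e') (hne : e ≠ e') :
    P.L (inr e) (inr e') ∨ P.L (inr e') (inr e) := by
  have key : ∀ a b : E, P.hd a = P.hd b → ¬ Bl P (inr a) (inr b) := by
    intro a b hab h1
    rcases P.up_e _ _ h1.1 h1.2 with h2 | ⟨h2, _⟩
    · simp at h2
    · rw [hab] at h2
      exact P.lo_irr _ (P.lo_tr _ _ _ h2 (P.hd_lo b))
  have hne' : (inr e : V ⊕ E) ≠ inr e' := fun h1 => hne (inr_injective h1)
  rcases four (P := P) hne' with h1 | h1 | h1 | h1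
  · exact absurd h1 (key _ _ h)
  · exact absurd h1 (key _ _ h.symm)
  · exact Or.inl h1
  · exact Or.inr h1

/-- On a path different edges have different tails. Proof: `pa_pw`, `dn_e` as in `same_tl`. -/
theorem pa_tl_inj (h : Pa P.tl P.hd a W b) {e e' : E} (he : e ∈ W) (he' : e' ∈ W)
    (h2 : P.tl e = P.tl e') : e = e' := by
  have key : ∀ a b : E, P.tl a = P.tl b → ¬ Bl P (inr a) (inr b) := by
    intro a b hab h1
    rcases P.dn_e _ _ h1.1 h1.2 with h2 | ⟨h2, _⟩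
    · simp at h2
    · rw [← hab] at h2
      exact P.lo_irr _ (P.lo_tr _ _ _ h2 (P.tl_lo a))
  have hpw := List.pairwise_iff_getElem.1 (pa_pw h)
  obtain ⟨i, hi, hie⟩ := List.getElem_of_mem he
  obtain ⟨j, hj, hje⟩ := List.getElem_of_mem he'
  rcases lt_trichotomy i j with hij | hij | hij
  · have h3 := hpw i j hi hj hij
    rw [hie, hje] at h3
    exact absurd h3 (key _ _ h2)
  · subst hij
    rw [← hie, ← hje]
  · have h3 := hpw j i hj hi hij
    rw [hie, hje] at h3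
    exact absurd h3 (key _ _ h2.symm)

/-- The whole wall left of the face. -/
theorem Fc.wall {W1 Wm W2 Q : List E} {v u : V} (F : Fc P s t W1 Wm W2 Q v u) :
    Pa P.tl P.hd s (W1 ++ (Wm ++ W2)) t :=
  pa_app.2 ⟨v, F.p1, pa_app.2 ⟨u, F.pm, F.p2⟩⟩

/-- The whole wall right of the face. -/
theorem Fc.wall' {W1 Wm W2 Q : List E} {v u : V} (F : Fc P s t W1 Wm W2 Q v u) :
    Pa P.tl P.hd s (W1 ++ (Q ++ W2)) t :=
  pa_app.2 ⟨v, F.p1, pa_app.2 ⟨u, F.pq, F.p2⟩⟩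

/-- An edge `g` which is not right of the old wall, with the same tail as an edge `f` of the right side, is left of `f`.
Proof: `same_tl` (`g ≠ f` by `F.rg`); `L f g` and `F.rg f` give `Rg` of `g` (transitivity of `lo` and `ro`). -/
theorem Fc.left_tl {W1 Wm W2 Q : List E} {v u : V} (F : Fc P s t W1 Wm W2 Q v u) {f g : E}
    (hf : f ∈ Q) (hg : ¬ Rg P (W1 ++ (Wm ++ W2)) (inr g)) (h : P.tl g = P.tl f) :
    P.L (inr g) (inr f) := by
  have hne : g ≠ f := fun h1 => hg (by rw [h1]; exact F.rg f hf)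
  rcases same_tl h hne with h1 | h1
  · exact h1
  · obtain ⟨e0, he0, h2⟩ := F.rg f hf
    exact absurd ⟨e0, he0, P.lo_tr _ _ _ h2.1 h1.1, P.ro_tr _ _ _ h1.2 h2.2⟩ hg

/-- The same for heads. -/
theorem Fc.left_hd {W1 Wm W2 Q : List E} {v u : V} (F : Fc P s t W1 Wm W2 Q v u) {f g : E}
    (hf : f ∈ Q) (hg : ¬ Rg P (W1 ++ (Wm ++ W2)) (inr g)) (h : P.hd g = P.hd f) :
    P.L (inr g) (inr f) := by
  have hne : g ≠ f := fun h1 => hg (by rw [h1]; exact F.rg f hf)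
  rcases same_hd h hne with h1 | h1
  · exact h1
  · obtain ⟨e0, he0, h2⟩ := F.rg f hf
    exact absurd ⟨e0, he0, P.lo_tr _ _ _ h2.1 h1.1, P.ro_tr _ _ _ h1.2 h2.2⟩ hg

/-- The first wall: all vertices are on it. Proof: as `stB_init` of SnC. -/
theorem sn_init {w : List V} (hw : w.Nodup) {op N1 N0 : V → V → Prop}
    (h1 : ∀ x y, N1 x y → Cons w x y) (h0 : ∀ x y, N0 x y → Cons w x y)
    (hop : ∀ x y, op x y → Cons w x y ∧ ¬ N0 x y) :
    ∃ r, Sn {z | z ∈ w} r w op N1 N0 := by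
  obtain ⟨r, hr, hw2⟩ := exists_ord w hw
  have hU : ∀ z ∈ w, z ∈ {z | z ∈ w} := fun z hz => hz
  refine ⟨r, hr, hU, hw2, fun x y h => (hop x y h).1, ?_, ?_, ?_, ?_, ?_, ?_⟩
  · intro x y h z hz
    exact cons_btw hr hU hw2 (hop x y h).1 hz
  · rintro x y (h | h)
    · exact ⟨(cons_mem (h1 x y h)).1, (cons_mem (h1 x y h)).2, cons_rel hw2 (h1 x y h)⟩
    · exact ⟨(cons_mem (h0 x y h)).1, (cons_mem (h0 x y h)).2, cons_rel hw2 (h0 x y h)⟩
  · intro x y h z hz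
    exact cons_btw hr hU hw2 (h0 x y h) hz
  · intro x y h h2
    exact (hop x y h2).2 h
  · intro a b a' b' h h' h3
    exact cons_btw hr hU hw2 (h1 a b h) (cons_mem (h1 a' b' h')).1 ⟨h3.1, h3.2.1⟩
  · intro a b a' b' h h' h3
    exact cons_btw hr hU hw2 (h0 a b h) (cons_mem (h0 a' b' h')).1 ⟨h3.1, h3.2.1⟩

/-- `Sn` for equivalent sets and relations. -/
theorem Sn.congr {U U' : Set V} {r : V → V → Prop} {w w' : List V} {op op' F1 F1' F0 F0' : V → V → Prop}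
    (hU : ∀ x, x ∈ U ↔ x ∈ U') (hw : w = w') (hop : ∀ x y, op x y ↔ op' x y)
    (h1 : ∀ x y, F1 x y ↔ F1' x y) (h0 : ∀ x y, F0 x y ↔ F0' x y) (h : Sn U r w op F1 F0) :
    Sn U' r w' op' F1' F0' := by
  have e1 : U = U' := Set.ext hU
  have e2 : op = op' := by
    funext x y
    exact propext (hop x y)
  have e3 : F1 = F1' := by
    funext x y
    exact propext (h1 x y)
  have e4 : F0 = F0' := by
    funext x y
    exact propext (h0 x y)
  rw [← e1, ← hw, ← e2, ← e3, ← e4]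
  exact h

end Pool.Agent.W_a4f561_h34
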