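import Pool.Agent.W_a4f561_h34.FcA

/-!
MP_a4f561_co (Subcubic): the invariant of the sweep and its step. `lb`: edges of page 1, `rb`: edges of page 0;
the other edges are auxiliary.
-/

set_option autoImplicit false

namespace Pool.Agent.W_a4f561_h34

open Sum Pool.Agent.W_a4f561_h25

variable {V E : Type} {P : Pl V E} {s t : V} {W : List E}

/-- The state for the wall `W`. -/
def Sd (P : Pl V E) (lb rb : E → Prop) (s : V) (W : List E) : Prop :=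
  ∃ r, Sn {x | ∃ g, ¬ Rg P W (inr g) ∧ (P.tl g = x ∨ P.hd g = x)} r (s :: W.map P.hd)
    (fun x y => ∃ g ∈ W, lb g ∧ P.tl g = x ∧ P.hd g = y)
    (fun x y => ∃ g, ¬ Rg P W (inr g) ∧ lb g ∧ P.tl g = x ∧ P.hd g = y)
    (fun x y => ∃ g, ¬ Rg P W (inr g) ∧ rb g ∧ P.tl g = x ∧ P.hd g = y)

private theorem FcB_tl {tl hd : E → V} {a b : V} {W : List E} (h : Pa tl hd a W b) {e : E}
    (he : e ∈ W) : tl e ∈ a :: W.map hd :=
  (cons_mem ((pa_cons h (tl e) (hd e)).2 ⟨e, he, rfl, rfl⟩)).1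

/-- The start. Proof: as `PmB_start` of PmB, with `sn_init`; `op x y → ¬ N0 x y`: `pa_tl_inj` and `hlr`. -/
theorem sd_start {lb rb : E → Prop} (hlr : ∀ e, lb e → ¬ rb e) (hW : Pa P.tl P.hd s W t)
    (hst : s ≠ t) (h0 : ∀ g, ¬ Rg P W (inr g) → g ∈ W) : Sd P lb rb s W := by
  have hiff : ∀ g, ¬ Rg P W (inr g) ↔ g ∈ W := fun g => ⟨h0 g, not_rg_mem hW⟩
  obtain ⟨r, hr⟩ := sn_init (pa_nodup hW)
    (op := fun x y => ∃ g ∈ W, lb g ∧ P.tl g = x ∧ P.hd g = y)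
    (N1 := fun x y => ∃ g, ¬ Rg P W (inr g) ∧ lb g ∧ P.tl g = x ∧ P.hd g = y)
    (N0 := fun x y => ∃ g, ¬ Rg P W (inr g) ∧ rb g ∧ P.tl g = x ∧ P.hd g = y)
    (by
      rintro x y ⟨g, hg, -, h1, h2⟩
      exact (pa_cons hW x y).2 ⟨g, h0 g hg, h1, h2⟩)
    (by
      rintro x y ⟨g, hg, -, h1, h2⟩
      exact (pa_cons hW x y).2 ⟨g, h0 g hg, h1, h2⟩)
    (by
      rintro x y ⟨g, hg, hl, h1, h2⟩
      refine ⟨(pa_cons hW x y).2 ⟨g, hg, h1, h2⟩, ?_⟩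
      rintro ⟨g', hg', hr, h3, -⟩
      have h4 := pa_tl_inj hW hg (h0 g' hg') (h1.trans h3.symm)
      rw [← h4] at hr
      exact hlr g hl hr)
  refine ⟨r, Sn.congr ?_ rfl (fun x y => Iff.rfl) (fun x y => Iff.rfl) (fun x y => Iff.rfl) hr⟩
  intro x
  simp only [Set.mem_ofPred_eq, hiff]
  constructor
  · intro hx
    rcases List.mem_cons.1 hx with rfl | hx
    · cases W with
      | nil => exact absurd hW hst
      | cons e W' => exact ⟨e, List.mem_cons_self, Or.inl hW.1⟩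
    · obtain ⟨e, he, rfl⟩ := List.mem_map.1 hx
      exact ⟨e, he, Or.inr rfl⟩
  · rintro ⟨g, hg, rfl | rfl⟩
    · exact FcB_tl hW hg
    · exact List.mem_cons_of_mem _ (List.mem_map.2 ⟨g, hg, rfl⟩)

end Pool.Agent.W_a4f561_h34
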