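import Pool.Agent.W_a4f561_h34.FcA

/-!
MP_a4f561_co (Subcubic): the labels. `re`: the real edges. An edge is of page 1 if it is the leftmost real edge
out of its tail and the leftmost real edge into its head.
-/

set_option autoImplicit false

namespace Pool.Agent.W_a4f561_h34

open Sum Pool.Agent.W_a4f561_h25

variable {V E : Type} {P : Pl V E} {s t a b : V} {W : List E} {re : E → Prop}

/-- No real edge with the same tail is left of `e`. -/
def Tm (P : Pl V E) (re : E → Prop) (e : E) : Prop :=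
  ∀ f, re f → P.tl f = P.tl e → ¬ P.L (inr f) (inr e)

/-- No real edge with the same head is left of `e`. -/
def Hm (P : Pl V E) (re : E → Prop) (e : E) : Prop :=
  ∀ f, re f → P.hd f = P.hd e → ¬ P.L (inr f) (inr e)

/-- Auxiliary edges lie between real edges. -/
structure Dm (P : Pl V E) (re : E → Prop) : Prop where
  d1 : ∀ d, ¬ re d → (∃ p, re p ∧ P.tl p = P.tl d) →
    (∃ p, re p ∧ P.tl p = P.tl d ∧ P.L (inr p) (inr d)) ∧
      ∃ p, re p ∧ P.tl p = P.tl d ∧ P.L (inr d) (inr p)
  d2 : ∀ d, ¬ re d → (∃ p, re p ∧ P.hd p = P.hd d) →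
    (∃ p, re p ∧ P.hd p = P.hd d ∧ P.L (inr p) (inr d)) ∧
      ∃ p, re p ∧ P.hd p = P.hd d ∧ P.L (inr d) (inr p)
  d3 : ∀ d, ¬ re d → (∀ p, re p → P.hd p ≠ P.hd d) ∨ (∀ p, re p → P.tl p ≠ P.tl d)

/-- The degree conditions. -/
structure Dg (P : Pl V E) (re : E → Prop) : Prop where
  g1 : ∀ a b c, re a → re b → re c → P.tl a = P.tl b → P.tl b = P.tl c → a = b ∨ b = c ∨ a = c
  g2 : ∀ a b c, re a → re b → re c → P.hd a = P.hd b → P.hd b = P.hd c → a = b ∨ b = c ∨ a = c
  g3 : ∀ a b c d, re a → re b → re c → re d → P.hd a = P.hd b → P.tl c = P.tl d →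
    P.hd a = P.tl c → a = b ∨ c = d

/-- `L` is transitive. -/
theorem l_tr {x y z : V ⊕ E} (h1 : P.L x y) (h2 : P.L y z) : P.L x z :=
  ⟨P.lo_tr _ _ _ h1.1 h2.1, P.ro_tr _ _ _ h2.2 h1.2⟩

theorem l_ne {e f : E} (h : P.L (inr e) (inr f)) : e ≠ f := by
  rintro rfl
  exact P.lo_irr _ h.1

/-- The first edge of the right side is right of the first edge of the left side. Proof: `Fc.left_tl` (the first edge of
`Wm` is on the old wall, `not_rg_mem`). -/
theorem Fc.first {W1 Wm W2 Q : List E} {v u : V} {e f : E}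
    (F : Fc P s t W1 (e :: Wm) W2 (f :: Q) v u) :
    P.tl e = v ∧ P.tl f = v ∧ P.L (inr e) (inr f) := by
  have h1 : P.tl e = v := F.pm.1
  have h2 : P.tl f = v := F.pq.1
  refine ⟨h1, h2, F.left_tl List.mem_cons_self (not_rg_mem F.wall ?_) (h1.trans h2.symm)⟩
  exact List.mem_append_right _ (List.mem_append_left _ List.mem_cons_self)

/-- The last edge of the right side is right of the last edge of the left side. Proof: `Fc.left_hd`; the last edge of a path
has head `u` (`pa_app`). -/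
theorem Fc.last {W1 Wm W2 Q : List E} {v u : V} {e f : E}
    (F : Fc P s t W1 (Wm ++ [e]) W2 (Q ++ [f]) v u) :
    P.hd e = u ∧ P.hd f = u ∧ P.L (inr e) (inr f) := by
  obtain ⟨c, -, -, h1⟩ := pa_app.1 F.pm
  obtain ⟨c', -, -, h2⟩ := pa_app.1 F.pq
  have h1' : P.hd e = u := h1
  have h2' : P.hd f = u := h2
  refine ⟨h1', h2', F.left_hd (List.mem_append_right _ (List.mem_singleton_self f))
    (not_rg_mem F.wall ?_) (h1'.trans h2'.symm)⟩
  exact List.mem_append_right _
    (List.mem_append_left _ (List.mem_append_right _ (List.mem_singleton_self e)))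

/-- The first edge of the right side is not both real and tail-leftmost. Proof: `Fc.first`; let `f` be real. If `e` is real,
done; if not, `d1` for `e` gives a real `p` left of `e`, so left of `f` (`l_tr`). -/
theorem Fc.first_not {W1 Wm W2 Q : List E} {v u : V} {f : E} (H : Dm P re)
    (F : Fc P s t W1 Wm W2 (f :: Q) v u) : ¬ (re f ∧ Tm P re f) := by
  rintro ⟨hf, ht⟩
  cases Wm with
  | nil => exact F.nm rfl
  | cons e Wm =>
    obtain ⟨h1, h2, h3⟩ := F.first
    by_cases he : re e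
    · exact ht e he (h1.trans h2.symm) h3
    · obtain ⟨⟨p, hp, hp1, hp2⟩, -⟩ := H.d1 e he ⟨f, hf, h2.trans h1.symm⟩
      exact ht p hp (hp1.trans (h1.trans h2.symm)) (l_tr hp2 h3)

/-- If the first edge of the left side is real, then it is tail-leftmost. Proof: by `Fc.first` (and `d1`, if `f` is not real)
there is a real edge `g` with the same tail right of `e`; a real edge `p` with the same tail left of `e` contradicts
`g1` (`p`, `e`, `g` are different: `l_ne`, `l_tr`). -/
theorem Fc.first_tm {W1 Wm W2 Q : List E} {v u : V} {e : E} (H : Dm P re) (G : Dg P re)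
    (F : Fc P s t W1 (e :: Wm) W2 Q v u) (he : re e) : Tm P re e := by
  intro p hp hp1 hp2
  cases Q with
  | nil => exact F.nq rfl
  | cons f Q =>
    obtain ⟨h1, h2, h3⟩ := F.first
    have key : ∃ g, re g ∧ P.tl e = P.tl g ∧ P.L (inr e) (inr g) := by
      by_cases hf : re f
      · exact ⟨f, hf, h1.trans h2.symm, h3⟩
      · obtain ⟨-, p', hp', h4, h5⟩ := H.d1 f hf ⟨e, he, h1.trans h2.symm⟩
        exact ⟨p', hp', (h1.trans h2.symm).trans h4.symm, l_tr h3 h5⟩
    obtain ⟨g, hg, h4, h5⟩ := key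
    rcases G.g1 p e g hp he hg hp1 h4 with h6 | h6 | h6
    · exact l_ne hp2 h6
    · exact l_ne h5 h6
    · exact l_ne (l_tr hp2 h5) h6

/-- If the last edge of the left side is real, then it is head-leftmost. -/
theorem Fc.last_hm {W1 Wm W2 Q : List E} {v u : V} {e : E} (H : Dm P re) (G : Dg P re)
    (F : Fc P s t W1 (Wm ++ [e]) W2 Q v u) (he : re e) : Hm P re e := by
  intro p hp hp1 hp2
  obtain ⟨Q', f, hQ⟩ := (List.eq_nil_or_concat Q).resolve_left F.nq
  rw [List.concat_eq_append] at hQ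
  subst hQ
  obtain ⟨h1, h2, h3⟩ := F.last
  have key : ∃ g, re g ∧ P.hd e = P.hd g ∧ P.L (inr e) (inr g) := by
    by_cases hf : re f
    · exact ⟨f, hf, h1.trans h2.symm, h3⟩
    · obtain ⟨-, p', hp', h4, h5⟩ := H.d2 f hf ⟨e, he, h1.trans h2.symm⟩
      exact ⟨p', hp', (h1.trans h2.symm).trans h4.symm, l_tr h3 h5⟩
  obtain ⟨g, hg, h4, h5⟩ := key
  rcases G.g2 p e g hp he hg hp1 h4 with h6 | h6 | h6
  · exact l_ne hp2 h6
  · exact l_ne h5 h6
  · exact l_ne (l_tr hp2 h5) h6

end Pool.Agent.W_a4f561_h34
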