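import Pool.Agent.W_a4f561_h34.FcB

/-!
MP_a4f561_co (Subcubic): the step of the sweep.
-/

set_option autoImplicit false

namespace Pool.Agent.W_a4f561_h34

open Sum Pool.Agent.W_a4f561_h25

variable {V E : Type} {P : Pl V E} {s t : V} {W : List E}

private theorem FcD_fst {V : Type} {l : List V} {u x y : V} (h : Cons (l ++ [u]) x y) : x ∈ l := by
  obtain ⟨a, b, h⟩ := h
  have h1 := congrArg List.dropLast h
  rw [List.dropLast_concat] at h1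
  rw [h1, show a ++ x :: y :: b = (a ++ [x]) ++ (y :: b) by simp,
    List.dropLast_append_of_ne_nil (List.cons_ne_nil _ _)]
  simp

private theorem FcD_snd {V : Type} {l : List V} {v x y : V} (h : Cons (v :: l) x y) : y ∈ l := by
  obtain ⟨a, b, h⟩ := h
  cases a with
  | nil =>
    rw [List.nil_append] at h
    injection h with h1 h2
    rw [h2]
    exact List.mem_cons_self
  | cons a0 a' =>
    rw [List.cons_append] at h
    injection h with h1 h2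
    rw [h2]
    simp

private theorem FcD_tl {tl hd : E → V} {a b : V} {W : List E} (h : Pa tl hd a W b) {e : E}
    (he : e ∈ W) : tl e ∈ a :: W.map hd :=
  (cons_mem ((pa_cons h (tl e) (hd e)).2 ⟨e, he, rfl, rfl⟩)).1

/-- The step. Proof: as `PmB_step` of PmB, with `Sn.face2`: `w1 ++ [v] = s :: W1.map hd` (`pa_last`),
`L = Wm.dropLast.map hd`, `R = Q.dropLast.map hd` (`pa_last'`), `N1 x y = ∃ g ∈ Q, lb g ∧ tl g = x ∧ hd g = y`, `N0` the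
same with `rb`. `fv`: `N1 v y` by `f ∈ Q`, `F0 v b` by `g`: `Fc.left_tl` and `k1`; `fu`: `Fc.left_hd` and `k2`. `hc`: the
edge of `k4` and `pa_tl_inj`. `hd`: the edge `e` of `k5`: if `lb e` then `Sn.free_op` with `x = tl e ∈ v :: L`; otherwise `k3`
with `y = hd e ∈ L ++ [u]` or `x = tl e`. -/
theorem sd_step {lb rb : E → Prop} (hlr : ∀ e, lb e → ¬ rb e)
    (k1 : ∀ e f, rb e → lb f → P.tl e = P.tl f → ¬ P.L (inr e) (inr f))
    (k2 : ∀ e f, rb e → lb f → P.hd e = P.hd f → ¬ P.L (inr e) (inr f))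
    (k3 : ∀ d, ¬ lb d → ¬ rb d →
      (∀ e, rb e → P.hd e ≠ P.hd d) ∨ (∀ e, rb e → P.tl e ≠ P.tl d))
    {W1 Wm W2 Q : List E} {v u : V} (F : Fc P s t W1 Wm W2 Q v u)
    (k4 : ∃ e ∈ Q, ¬ lb e) (k5 : ∃ e ∈ Wm, ¬ rb e)
    (hM : Sd P lb rb s (W1 ++ (Wm ++ W2))) : Sd P lb rb s (W1 ++ (Q ++ W2)) := by
  obtain ⟨r, H⟩ := hM
  have hW : Pa P.tl P.hd s (W1 ++ (Wm ++ W2)) t := F.wall
  have hm : ∀ e ∈ Wm, ¬ Rg P (W1 ++ (Wm ++ W2)) (inr e) := fun e he =>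
    not_rg_mem hW (List.mem_append.2 (Or.inr (List.mem_append.2 (Or.inl he))))
  obtain ⟨w1, hw1⟩ := pa_last F.p1
  have em := pa_last' F.pm F.nm
  have eq := pa_last' F.pq F.nq
  have list_eq : ∀ {Z : List E}, Z.map P.hd = Z.dropLast.map P.hd ++ [u] →
      s :: (W1 ++ (Z ++ W2)).map P.hd =
        w1 ++ v :: (Z.dropLast.map P.hd ++ u :: W2.map P.hd) := by
    intro Z hZ
    rw [List.map_append, List.map_append, hZ, ← List.cons_append, hw1]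
    simp
  have hRn : (Q.dropLast.map P.hd).Nodup := by
    have h1 := (List.nodup_cons.1 (pa_nodup F.pq)).2
    rw [eq] at h1
    exact (List.nodup_append.1 h1).1
  have consm : ∀ x y, Cons (v :: (Wm.dropLast.map P.hd ++ [u])) x y ↔
      ∃ e ∈ Wm, P.tl e = x ∧ P.hd e = y := by
    intro x y
    rw [← em]
    exact pa_cons F.pm x y
  have consq : ∀ x y, Cons (v :: (Q.dropLast.map P.hd ++ [u])) x y ↔
      ∃ e ∈ Q, P.tl e = x ∧ P.hd e = y := by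
    intro x y
    rw [← eq]
    exact pa_cons F.pq x y
  have hv : ∃ g, ¬ Rg P (W1 ++ (Wm ++ W2)) (inr g) ∧ (P.tl g = v ∨ P.hd g = v) := by
    have pm := F.pm
    have nm := F.nm
    cases Wm with
    | nil => exact absurd rfl nm
    | cons e W' => exact ⟨e, hm e List.mem_cons_self, Or.inl pm.1⟩
  have hu : ∃ g, ¬ Rg P (W1 ++ (Wm ++ W2)) (inr g) ∧ (P.tl g = u ∨ P.hd g = u) := by
    have h1 : u ∈ Wm.map P.hd := by
      rw [em]
      exact List.mem_append.2 (Or.inr (List.mem_singleton_self u))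
    obtain ⟨e, he, h2⟩ := List.mem_map.1 h1
    exact ⟨e, hm e he, Or.inr h2⟩
  have hcase : ∀ g, ¬ Rg P (W1 ++ (Q ++ W2)) (inr g) ↔
      (¬ Rg P (W1 ++ (Wm ++ W2)) (inr g) ∨ g ∈ Q) := by
    intro g
    rw [F.nr]
    by_cases hg : g ∈ Q <;> simp [hg]
  have hQv : ∀ g ∈ Q, ∀ x, (P.tl g = x ∨ P.hd g = x) →
      (∃ g, ¬ Rg P (W1 ++ (Wm ++ W2)) (inr g) ∧ (P.tl g = x ∨ P.hd g = x)) ∨
        x ∈ Q.dropLast.map P.hd := by
    intro g hg x hx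
    have h1 : x ∈ v :: Q.map P.hd := by
      rcases hx with rfl | rfl
      · exact FcD_tl F.pq hg
      · exact List.mem_cons_of_mem _ (List.mem_map.2 ⟨g, hg, rfl⟩)
    rw [eq, List.mem_cons, List.mem_append, List.mem_singleton] at h1
    rcases h1 with rfl | h1 | rfl
    · exact Or.inl hv
    · exact Or.inr h1
    · exact Or.inl hu
  have hRU : ∀ z ∈ Q.dropLast.map P.hd,
      z ∉ {x | ∃ g, ¬ Rg P (W1 ++ (Wm ++ W2)) (inr g) ∧ (P.tl g = x ∨ P.hd g = x)} := by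
    intro z hz
    obtain ⟨e, he, rfl⟩ := List.mem_map.1 hz
    rintro ⟨g, hg, h1 | h1⟩
    · exact (F.nw e he g hg).2 h1
    · exact (F.nw e he g hg).1 h1
  have n1 : ∀ x y, (∃ g ∈ Q, lb g ∧ P.tl g = x ∧ P.hd g = y) →
      Cons (v :: (Q.dropLast.map P.hd ++ [u])) x y := by
    rintro x y ⟨g, hg, -, h1⟩
    exact (consq x y).2 ⟨g, hg, h1⟩
  have n0 : ∀ x y, (∃ g ∈ Q, rb g ∧ P.tl g = x ∧ P.hd g = y) →
      Cons (v :: (Q.dropLast.map P.hd ++ [u])) x y := by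
    rintro x y ⟨g, hg, -, h1⟩
    exact (consq x y).2 ⟨g, hg, h1⟩
  have n10 : ∀ x y, (∃ g ∈ Q, lb g ∧ P.tl g = x ∧ P.hd g = y) →
      ¬ ∃ g ∈ Q, rb g ∧ P.tl g = x ∧ P.hd g = y := by
    rintro x y ⟨g, hg, h1, h2, -⟩ ⟨g', hg', h1', h2', -⟩
    have h3 : g = g' := pa_tl_inj F.pq hg hg' (h2.trans h2'.symm)
    rw [← h3] at h1'
    exact hlr g h1 h1'
  have hop : ∀ x y, (∃ g ∈ W1 ++ (Q ++ W2), lb g ∧ P.tl g = x ∧ P.hd g = y) →
      ((∃ g ∈ W1 ++ (Wm ++ W2), lb g ∧ P.tl g = x ∧ P.hd g = y) ∧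
        (Cons (w1 ++ [v]) x y ∨ Cons (u :: W2.map P.hd) x y)) ∨
          (∃ g ∈ Q, lb g ∧ P.tl g = x ∧ P.hd g = y) := by
    rintro x y ⟨g, hg, h1, h2⟩
    rcases List.mem_append.1 hg with h3 | h3
    · refine Or.inl ⟨⟨g, List.mem_append_left _ h3, h1, h2⟩, Or.inl ?_⟩
      rw [← hw1]
      exact (pa_cons F.p1 x y).2 ⟨g, h3, h2⟩
    · rcases List.mem_append.1 h3 with h4 | h4
      · exact Or.inr ⟨g, h4, h1, h2⟩
      · exact Or.inl ⟨⟨g, List.mem_append_right _ (List.mem_append_right _ h4), h1, h2⟩,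
          Or.inr ((pa_cons F.p2 x y).2 ⟨g, h4, h2⟩)⟩
  have fv : (∃ y, ∃ g ∈ Q, lb g ∧ P.tl g = v ∧ P.hd g = y) →
      ∀ b, ¬ ∃ g, ¬ Rg P (W1 ++ (Wm ++ W2)) (inr g) ∧ rb g ∧ P.tl g = v ∧ P.hd g = b := by
    rintro ⟨y, f, hf, h1, h2, -⟩ b ⟨g, hg, h3, h4, -⟩
    exact k1 g f h3 h1 (h4.trans h2.symm) (F.left_tl hf hg (h4.trans h2.symm))
  have fu : (∃ x, ∃ g ∈ Q, lb g ∧ P.tl g = x ∧ P.hd g = u) →
      ∀ a, ¬ ∃ g, ¬ Rg P (W1 ++ (Wm ++ W2)) (inr g) ∧ rb g ∧ P.tl g = a ∧ P.hd g = u := by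
    rintro ⟨y, f, hf, h1, -, h2⟩ b ⟨g, hg, h3, -, h4⟩
    exact k2 g f h3 h1 (h4.trans h2.symm) (F.left_hd hf hg (h4.trans h2.symm))
  have hc : ∃ x y, Cons (v :: (Q.dropLast.map P.hd ++ [u])) x y ∧
      ¬ ∃ g ∈ Q, lb g ∧ P.tl g = x ∧ P.hd g = y := by
    obtain ⟨e, he, h1⟩ := k4
    refine ⟨P.tl e, P.hd e, (consq _ _).2 ⟨e, he, rfl, rfl⟩, ?_⟩
    rintro ⟨g, hg, h2, h3, -⟩
    rw [pa_tl_inj F.pq hg he h3] at h2
    exact h1 h2
  have hd : (∃ x ∈ v :: Wm.dropLast.map P.hd, ∀ b,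
        ¬ ∃ g, ¬ Rg P (W1 ++ (Wm ++ W2)) (inr g) ∧ rb g ∧ P.tl g = x ∧ P.hd g = b) ∨
      ∃ y ∈ Wm.dropLast.map P.hd ++ [u], ∀ a,
        ¬ ∃ g, ¬ Rg P (W1 ++ (Wm ++ W2)) (inr g) ∧ rb g ∧ P.tl g = a ∧ P.hd g = y := by
    obtain ⟨e, he, h1⟩ := k5
    have h2 : Cons (v :: (Wm.dropLast.map P.hd ++ [u])) (P.tl e) (P.hd e) :=
      (consm _ _).2 ⟨e, he, rfl, rfl⟩
    have h3 : P.tl e ∈ v :: Wm.dropLast.map P.hd := FcD_fst h2
    have h4 : P.hd e ∈ Wm.dropLast.map P.hd ++ [u] := FcD_snd h2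
    by_cases h5 : lb e
    · refine Or.inl ⟨P.tl e, h3, fun b => H.free_op (y := P.hd e) ?_ b⟩
      exact ⟨e, List.mem_append_right _ (List.mem_append_left _ he), h5, rfl, rfl⟩
    · rcases k3 e h5 h1 with h6 | h6
      · refine Or.inr ⟨P.hd e, h4, ?_⟩
        rintro a ⟨g, -, h7, -, h8⟩
        exact h6 g h7 h8
      · refine Or.inl ⟨P.tl e, h3, ?_⟩
        rintro b ⟨g, -, h7, h8, -⟩
        exact h6 g h7 h8
  obtain ⟨r', H'⟩ := H.face2 (list_eq em) hRn hRU n1 n0 n10 hop fv fu hc hd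
  refine ⟨r', H'.congr ?_ (list_eq eq).symm (fun x y => Iff.rfl) ?_ ?_⟩
  · intro x
    rw [Set.mem_union]
    simp only [Set.mem_ofPred_eq, hcase]
    constructor
    · rintro (⟨g, hg, hx⟩ | hx)
      · exact ⟨g, Or.inl hg, hx⟩
      · obtain ⟨e, he, rfl⟩ := List.mem_map.1 hx
        exact ⟨e, Or.inr (List.mem_of_mem_dropLast he), Or.inr rfl⟩
    · rintro ⟨g, hg | hg, hx⟩
      · exact Or.inl ⟨g, hg, hx⟩
      · exact hQv g hg x hx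
  · intro x y
    simp only [hcase]
    constructor
    · rintro (⟨g, hg, hx⟩ | ⟨g, hg, hx⟩)
      · exact ⟨g, Or.inl hg, hx⟩
      · exact ⟨g, Or.inr hg, hx⟩
    · rintro ⟨g, hg | hg, hx⟩
      · exact Or.inl ⟨g, hg, hx⟩
      · exact Or.inr ⟨g, hg, hx⟩
  · intro x y
    simp only [hcase]
    constructor
    · rintro (⟨g, hg, hx⟩ | ⟨g, hg, hx⟩)
      · exact ⟨g, Or.inl hg, hx⟩
      · exact ⟨g, Or.inr hg, hx⟩
    · rintro ⟨g, hg | hg, hx⟩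
      · exact Or.inl ⟨g, hg, hx⟩
      · exact Or.inr ⟨g, hg, hx⟩

end Pool.Agent.W_a4f561_h34
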