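import Pool.Agent.W_a4f561_h34.FcD

/-!
MP_a4f561_co (Subcubic): the theorem for labelled planar st-structures.
-/

set_option autoImplicit false

namespace Pool.Agent.W_a4f561_h34

open Sum Pool.Agent.W_a4f561_h25

variable {V E : Type} {P : Pl V E} {s t : V} {W : List E}

/-- The theorem for labelled planar st-structures. Proof: `wall_induction` with `M = Sd P lb rb s`, `sd_start`, `sd_step`;
the end as in `pl_main` of PmB. -/
theorem lab_main [Finite V] [Finite E] (h : StP P s t) (hst : s ≠ t) (lb rb : E → Prop)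
    (hlr : ∀ e, lb e → ¬ rb e)
    (k1 : ∀ e f, rb e → lb f → P.tl e = P.tl f → ¬ P.L (inr e) (inr f))
    (k2 : ∀ e f, rb e → lb f → P.hd e = P.hd f → ¬ P.L (inr e) (inr f))
    (k3 : ∀ d, ¬ lb d → ¬ rb d →
      (∀ e, rb e → P.hd e ≠ P.hd d) ∨ (∀ e, rb e → P.tl e ≠ P.tl d))
    (k4 : ∀ W1 Wm W2 Q v u, Fc P s t W1 Wm W2 Q v u → ∃ e ∈ Q, ¬ lb e)
    (k5 : ∀ W1 Wm W2 Q v u, Fc P s t W1 Wm W2 Q v u → ∃ e ∈ Wm, ¬ rb e) :
    ∃ r : V → V → Prop, (∀ x, ¬ r x x) ∧ (∀ x y z, r x y → r y z → r x z) ∧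
      (∀ x y, x ≠ y → r x y ∨ r y x) ∧ (∀ e, lb e ∨ rb e → r (P.tl e) (P.hd e)) ∧
      (∀ e f, (lb e ∧ lb f) ∨ (rb e ∧ rb f) →
        ¬ (r (P.tl e) (P.tl f) ∧ r (P.tl f) (P.hd e) ∧ r (P.hd e) (P.hd f))) := by
  classical
  obtain ⟨W, -, hall, r, H⟩ := wall_induction h hst (fun W => Sd P lb rb s W)
    (fun W hW h0 => sd_start hlr hW hst h0)
    (fun W1 Wm W2 Q v u p1 pm pq p2 nm nq hQ hnew hiff hM => by
      have F : Fc P s t W1 Wm W2 Q v u := ⟨p1, pm, pq, p2, nm, nq, hQ, hnew, hiff⟩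
      exact sd_step hlr k1 k2 k3 F (k4 _ _ _ _ _ _ F) (k5 _ _ _ _ _ _ F) hM)
  have hU : ∀ x, x ∈ {x | ∃ g, ¬ Rg P W (inr g) ∧ (P.tl g = x ∨ P.hd g = x)} := by
    intro x
    by_cases hx : x = s
    · obtain ⟨e, he⟩ := h.out s hst
      exact ⟨e, hall e, Or.inl (he.trans hx.symm)⟩
    · obtain ⟨e, he⟩ := h.inn x hx
      exact ⟨e, hall e, Or.inr he⟩
  refine ⟨r, fun x => H.lin.irr x (hU x), fun x y z => H.lin.tr x (hU x) y (hU y) z (hU z),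
    fun x y => H.lin.tot x (hU x) y (hU y), fun e he => ?_, fun e f hef => ?_⟩
  · refine (H.FU (P.tl e) (P.hd e) ?_).2.2
    rcases he with he | he
    · exact Or.inl ⟨e, hall e, he, rfl, rfl⟩
    · exact Or.inr ⟨e, hall e, he, rfl, rfl⟩
  · rcases hef with ⟨he, hf⟩ | ⟨he, hf⟩
    · exact H.x1 _ _ _ _ ⟨e, hall e, he, rfl, rfl⟩ ⟨f, hall f, hf, rfl, rfl⟩
    · exact H.x0 _ _ _ _ ⟨e, hall e, he, rfl, rfl⟩ ⟨f, hall f, hf, rfl, rfl⟩

end Pool.Agent.W_a4f561_h34
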