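import Pool.Agent.W_a4f561_h34.FcC

/-!
MP_a4f561_co (Subcubic): the chain on the left side of a face.
-/

set_option autoImplicit false

namespace Pool.Agent.W_a4f561_h34

open Sum Pool.Agent.W_a4f561_h25

variable {V E : Type} {P : Pl V E} {s t a b : V} {W : List E} {re : E → Prop}

/-- The chain: on a path of real edges which are not tail- and head-leftmost, beginning with a tail-leftmost edge, the last
edge is not head-leftmost. Proof: induction on `Wm`, generalizing `a`, `e`. `e` is not head-leftmost: there is a real edge
`f ≠ e` into `hd e`; so the next edge `e'` is tail-leftmost by `g3` (`f`, `e` into, `p`, `e'` out of `hd e`). -/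
theorem chain {e : E} {l : List E} {z : E} (G : Dg P re) (hp : Pa P.tl P.hd a (e :: l) b)
    (hz : ∃ l', e :: l = l' ++ [z]) (hr : ∀ f ∈ e :: l, re f ∧ ¬ (Tm P re f ∧ Hm P re f))
    (ht : Tm P re e) : ¬ Hm P re z := by
  induction l generalizing a e with
  | nil =>
    obtain ⟨l', hl'⟩ := hz
    have h1 : z = e := by
      cases l' with
      | nil =>
        rw [List.nil_append] at hl'
        injection hl' with h2 h3
        exact h2.symm
      | cons x l'' =>
        rw [List.cons_append] at hl'
        injection hl' with h2 h3
        exact absurd h3.symm (by simp)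
    rw [h1]
    intro hh
    exact (hr e List.mem_cons_self).2 ⟨ht, hh⟩
  | cons e' l1 ih =>
    have hre := (hr e List.mem_cons_self).1
    have hre' := (hr e' (List.mem_cons_of_mem _ List.mem_cons_self)).1
    have hnh : ¬ Hm P re e := fun hh => (hr e List.mem_cons_self).2 ⟨ht, hh⟩
    have htl : P.tl e' = P.hd e := hp.2.1
    unfold Hm at hnh
    push Not at hnh
    obtain ⟨f, hf, hfe, hL⟩ := hnh
    refine ih (a := P.hd e) (e := e') hp.2 ?_ (fun g hg => hr g (List.mem_cons_of_mem _ hg)) ?_
    · obtain ⟨l', hl'⟩ := hz
      cases l' with
      | nil =>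
        rw [List.nil_append] at hl'
        injection hl' with h2 h3
        exact absurd h3 (by simp)
      | cons x l'' =>
        rw [List.cons_append] at hl'
        injection hl' with h2 h3
        exact ⟨l'', h3⟩
    · intro p hp1 hp2 hp3
      rcases G.g3 f e p e' hf hre hp1 hre' hfe hp2 (by rw [hfe, hp2, htl]) with h4 | h4
      · exact l_ne hL h4
      · exact l_ne hp3 h4

end Pool.Agent.W_a4f561_h34
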