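import Pool.Agent.W_a4f561_h34.FcE
import Pool.Agent.W_a4f561_h34.FcF

/-!
MP_a4f561_co (Subcubic): the theorem for real and auxiliary edges.
-/

set_option autoImplicit false

namespace Pool.Agent.W_a4f561_h34

open Sum Pool.Agent.W_a4f561_h25

variable {V E : Type} {P : Pl V E} {s t a b : V} {W : List E} {re : E → Prop}

/-- The theorem for `Pl` with real and auxiliary edges. Proof: `lab_main` with `lb e = re e ∧ Tm P re e ∧ Hm P re e`,
`rb e = re e ∧ ¬ (Tm P re e ∧ Hm P re e)`. `k1`: `f` has the real edge `e` left of it, so `Tm f` fails; `k2`: `Hm f`; `k3`: `d3`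
(an edge which is neither `lb` nor `rb` is not real); `k4`: `Fc.first_not`; `k5`: if all edges of `Wm` are `rb`, then
`Fc.first_tm`, `chain` and `Fc.last_hm` give a contradiction. -/
theorem real_main [Finite V] [Finite E] (h : StP P s t) (hst : s ≠ t) (H : Dm P re) (G : Dg P re) :
    ∃ r : V → V → Prop, (∀ x, ¬ r x x) ∧ (∀ x y z, r x y → r y z → r x z) ∧
      (∀ x y, x ≠ y → r x y ∨ r y x) ∧ (∀ e, re e → r (P.tl e) (P.hd e)) ∧
      (∀ e f, re e → re f → ((Tm P re e ∧ Hm P re e) ↔ (Tm P re f ∧ Hm P re f)) →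
        ¬ (r (P.tl e) (P.tl f) ∧ r (P.tl f) (P.hd e) ∧ r (P.hd e) (P.hd f))) := by
  have k1 : ∀ e f, (re e ∧ ¬ (Tm P re e ∧ Hm P re e)) → (re f ∧ Tm P re f ∧ Hm P re f) →
      P.tl e = P.tl f → ¬ P.L (inr e) (inr f) := by
    rintro e f ⟨h1, -⟩ ⟨-, h2, -⟩ h3 h4
    exact h2 e h1 h3 h4
  have k2 : ∀ e f, (re e ∧ ¬ (Tm P re e ∧ Hm P re e)) → (re f ∧ Tm P re f ∧ Hm P re f) →
      P.hd e = P.hd f → ¬ P.L (inr e) (inr f) := by
    rintro e f ⟨h1, -⟩ ⟨-, -, h2⟩ h3 h4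
    exact h2 e h1 h3 h4
  have k3 : ∀ d, ¬ (re d ∧ Tm P re d ∧ Hm P re d) → ¬ (re d ∧ ¬ (Tm P re d ∧ Hm P re d)) →
      (∀ e, (re e ∧ ¬ (Tm P re e ∧ Hm P re e)) → P.hd e ≠ P.hd d) ∨
        (∀ e, (re e ∧ ¬ (Tm P re e ∧ Hm P re e)) → P.tl e ≠ P.tl d) := by
    intro d h1 h2
    have h3 : ¬ re d := by
      intro h4
      by_cases h5 : Tm P re d ∧ Hm P re d
      · exact h1 ⟨h4, h5⟩
      · exact h2 ⟨h4, h5⟩
    rcases H.d3 d h3 with h4 | h4
    · exact Or.inl fun e he => h4 e he.1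
    · exact Or.inr fun e he => h4 e he.1
  have k4 : ∀ W1 Wm W2 Q v u, Fc P s t W1 Wm W2 Q v u →
      ∃ e ∈ Q, ¬ (re e ∧ Tm P re e ∧ Hm P re e) := by
    intro W1 Wm W2 Q v u F
    cases Q with
    | nil => exact absurd rfl F.nq
    | cons f Q =>
      refine ⟨f, List.mem_cons_self, ?_⟩
      rintro ⟨h1, h2, -⟩
      exact F.first_not H ⟨h1, h2⟩
  have k5 : ∀ W1 Wm W2 Q v u, Fc P s t W1 Wm W2 Q v u →
      ∃ e ∈ Wm, ¬ (re e ∧ ¬ (Tm P re e ∧ Hm P re e)) := by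
    intro W1 Wm W2 Q v u F
    by_contra hcon
    cases Wm with
    | nil => exact F.nm rfl
    | cons e l =>
      have hr : ∀ f ∈ e :: l, re f ∧ ¬ (Tm P re f ∧ Hm P re f) := by
        intro f hf
        by_contra h1
        exact hcon ⟨f, hf, h1⟩
      have ht : Tm P re e := F.first_tm H G (hr e List.mem_cons_self).1
      obtain ⟨l', z, hl⟩ := (List.eq_nil_or_concat (e :: l)).resolve_left (List.cons_ne_nil _ _)
      rw [List.concat_eq_append] at hl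
      have h1 := chain G F.pm ⟨l', hl⟩ hr ht
      have hz : re z := by
        refine (hr z ?_).1
        rw [hl]
        simp
      rw [hl] at F
      exact h1 (F.last_hm H G hz)
  obtain ⟨r, r1, r2, r3, r4, r5⟩ := lab_main h hst (fun e => re e ∧ Tm P re e ∧ Hm P re e)
    (fun e => re e ∧ ¬ (Tm P re e ∧ Hm P re e)) (fun e h1 h2 => h2.2 h1.2) k1 k2 k3 k4 k5
  refine ⟨r, r1, r2, r3, fun e he => r4 e ?_, fun e f he hf hef => r5 e f ?_⟩
  · by_cases h1 : Tm P re e ∧ Hm P re e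
    · exact Or.inl ⟨he, h1⟩
    · exact Or.inr ⟨he, h1⟩
  · by_cases h1 : Tm P re e ∧ Hm P re e
    · exact Or.inl ⟨⟨he, h1⟩, ⟨hf, hef.1 h1⟩⟩
    · exact Or.inr ⟨⟨he, h1⟩, ⟨hf, fun h2 => h1 (hef.2 h2)⟩⟩

end Pool.Agent.W_a4f561_h34
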