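import Pool.Agent.W_a4f561_h25.SwA

/-!
MP_a4f561_co (BipLattice): consecutive elements of a list.
-/

set_option autoImplicit false

namespace Pool.Agent.W_a4f561_h34

open Pool.Agent.W_a4f561_h25

/-- `u, v` are consecutive elements of the list `l`. -/
def Cons {V : Type} (l : List V) (u v : V) : Prop := ∃ a b, l = a ++ u :: v :: b

variable {V : Type}

theorem cons_nil (u v : V) : ¬ Cons [] u v := by
  rintro ⟨a, b, h⟩
  have h1 := congrArg List.length h
  simp at h1

theorem cons_one (x u v : V) : ¬ Cons [x] u v := by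
  rintro ⟨a, b, h⟩
  have h1 := congrArg List.length h
  simp only [List.length_append, List.length_cons, List.length_nil] at h1
  omega

theorem cons_two (x y : V) (b : List V) (u v : V) :
    Cons (x :: y :: b) u v ↔ (u = x ∧ v = y) ∨ Cons (y :: b) u v := by
  constructor
  · rintro ⟨a, b', h⟩
    cases a with
    | nil =>
      rw [List.nil_append] at h
      injection h with h1 h2
      injection h2 with h3 h4
      exact Or.inl ⟨h1.symm, h3.symm⟩
    | cons a0 a' =>
      rw [List.cons_append] at h
      injection h with h1 h2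
      exact Or.inr ⟨a', b', h2⟩
  · rintro (⟨rfl, rfl⟩ | ⟨a, b', h⟩)
    · exact ⟨[], b, rfl⟩
    · exact ⟨x :: a, b', by rw [h, List.cons_append]⟩

theorem cons_app (a : List V) (x : V) (b : List V) (u v : V) :
    Cons (a ++ x :: b) u v ↔ Cons (a ++ [x]) u v ∨ Cons (x :: b) u v := by
  induction a with
  | nil =>
    rw [List.nil_append, List.nil_append]
    constructor
    · exact fun h => Or.inr h
    · rintro (h | h)
      · exact absurd h (cons_one x u v)
      · exact h
  | cons a0 a ih =>
    cases a with
    | nil =>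
      have e1 : [a0] ++ x :: b = a0 :: x :: b := rfl
      have e2 : [a0] ++ [x] = a0 :: x :: [] := rfl
      rw [e1, e2, cons_two, cons_two]
      constructor
      · rintro (h | h)
        · exact Or.inl (Or.inl h)
        · exact Or.inr h
      · rintro ((h | h) | h)
        · exact Or.inl h
        · exact absurd h (cons_one x u v)
        · exact Or.inr h
    | cons a1 a2 =>
      have e1 : (a0 :: a1 :: a2) ++ x :: b = a0 :: a1 :: (a2 ++ x :: b) := rfl
      have e2 : (a0 :: a1 :: a2) ++ [x] = a0 :: a1 :: (a2 ++ [x]) := rfl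
      have e3 : (a1 :: a2) ++ x :: b = a1 :: (a2 ++ x :: b) := rfl
      have e4 : (a1 :: a2) ++ [x] = a1 :: (a2 ++ [x]) := rfl
      rw [e3, e4] at ih
      rw [e1, e2, cons_two, cons_two, ih, or_assoc]

theorem cons_mem {l : List V} {u v : V} (h : Cons l u v) : u ∈ l ∧ v ∈ l := by
  obtain ⟨a, b, rfl⟩ := h
  constructor
  · exact List.mem_append_right _ List.mem_cons_self
  · exact List.mem_append_right _ (List.mem_cons_of_mem _ List.mem_cons_self)

theorem cons_rel {l : List V} {r : V → V → Prop} (hl : l.Pairwise r) {u v : V} (h : Cons l u v) :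
    r u v := by
  obtain ⟨a, b, rfl⟩ := h
  rw [List.pairwise_append] at hl
  exact List.rel_of_pairwise_cons hl.2.1 List.mem_cons_self

/-- In a sorted list nothing is strictly between two consecutive elements. -/
theorem cons_btw {l : List V} {U : Set V} {r : V → V → Prop} (hr : LinOn U r) (hU : ∀ z ∈ l, z ∈ U)
    (hl : l.Pairwise r) {u v z : V} (h : Cons l u v) (hz : z ∈ l) : ¬ (r u z ∧ r z v) := by
  rintro ⟨h1, h2⟩
  obtain ⟨hu, hv⟩ := cons_mem h
  have hu' := hU u hu
  have hv' := hU v hv
  have hz' := hU z hz
  obtain ⟨a, b, rfl⟩ := h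
  rw [List.pairwise_append] at hl
  obtain ⟨p1, p2, p3⟩ := hl
  rw [List.mem_append, List.mem_cons, List.mem_cons] at hz
  rcases hz with hz | rfl | rfl | hz
  · exact hr.as hu' hz' h1 (p3 z hz u List.mem_cons_self)
  · exact hr.irr _ hu' h1
  · exact hr.irr _ hv' h2
  · have p4 := (List.pairwise_cons.1 p2).2
    have p5 := (List.pairwise_cons.1 p4).1 z hz
    exact hr.as hz' hv' h2 p5

theorem cons_of {l : List V} {U : Set V} {r : V → V → Prop} (hr : LinOn U r) (hU : ∀ z ∈ l, z ∈ U)
    (hl : l.Pairwise r) {u v : V} (hu : u ∈ l) (hv : v ∈ l) (huv : r u v)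
    (h : ∀ z ∈ l, ¬ (r u z ∧ r z v)) : Cons l u v := by
  induction l with
  | nil => exact absurd hu List.not_mem_nil
  | cons x l ih =>
    cases l with
    | nil =>
      rw [List.mem_singleton] at hu hv
      rw [hu, hv] at huv
      exact absurd huv (hr.irr x (hU x List.mem_cons_self))
    | cons y b =>
      rw [cons_two]
      obtain ⟨p1, p2⟩ := List.pairwise_cons.1 hl
      rcases List.mem_cons.1 hu with hu1 | hu1
      · rcases List.mem_cons.1 hv with hv1 | hv1
        · rw [hu1, hv1] at huv
          exact absurd huv (hr.irr x (hU x List.mem_cons_self))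
        · rcases List.mem_cons.1 hv1 with hv2 | hv2
          · exact Or.inl ⟨hu1, hv2⟩
          · exfalso
            refine h y (List.mem_cons_of_mem _ List.mem_cons_self) ⟨?_, ?_⟩
            · rw [hu1]
              exact p1 y List.mem_cons_self
            · exact (List.pairwise_cons.1 p2).1 v hv2
      · right
        rcases List.mem_cons.1 hv with hv1 | hv1
        · exfalso
          rw [hv1] at huv
          exact hr.as (hU u hu) (hU x List.mem_cons_self) huv (p1 u hu1)
        · exact ih (fun z hz => hU z (List.mem_cons_of_mem _ hz)) p2 hu1 hv1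
            (fun z hz => h z (List.mem_cons_of_mem _ hz))

/-- Elements of a sorted list `a ++ x :: b` before / after `x`. -/
theorem pw_le {a b : List V} {x : V} {r : V → V → Prop} (hl : (a ++ x :: b).Pairwise r) :
    (∀ z ∈ a, r z x) ∧ (∀ z ∈ b, r x z) ∧ (a ++ [x]).Pairwise r ∧ (x :: b).Pairwise r := by
  rw [List.pairwise_append] at hl
  obtain ⟨p1, p2, p3⟩ := hl
  refine ⟨fun z hz => p3 z hz x List.mem_cons_self, (List.pairwise_cons.1 p2).1, ?_, p2⟩
  rw [List.pairwise_append]
  refine ⟨p1, List.pairwise_singleton _ _, fun z hz y hy => ?_⟩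
  rw [List.mem_singleton] at hy
  rw [hy]
  exact p3 z hz x List.mem_cons_self

end Pool.Agent.W_a4f561_h34
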