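import Mathlib

/-!
MP_a4f561_co, part C: an order of the vertices in which every twist has at most `K` edges gives
`(Nat.log 2 n + 1) * K` pages.
-/

set_option autoImplicit false

namespace W_a4f561_h34

/-- Mirsky: a finite strict order whose chains have at most `K` elements has a height function with
values below `K`. -/
theorem mirsky {α : Type*} [Fintype α] (R : α → α → Prop)
    (htr : ∀ a b c, R a b → R b c → R a c) (K : ℕ)
    (hK : ∀ S : Finset α, (∀ a ∈ S, ∀ b ∈ S, a ≠ b → R a b ∨ R b a) → S.card ≤ K)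
    (hirr : ∀ a, ¬ R a a) :
    ∃ h : α → ℕ, (∀ a, h a < K) ∧ ∀ a b, R a b → h a < h b := by
  classical
  let F : α → Finset (Finset α) := fun a => Finset.univ.filter fun S =>
    (∀ x ∈ S, ∀ y ∈ S, x ≠ y → R x y ∨ R y x) ∧ a ∉ S ∧ ∀ b ∈ S, R b a
  have hF : ∀ a S, S ∈ F a ↔
      ((∀ x ∈ S, ∀ y ∈ S, x ≠ y → R x y ∨ R y x) ∧ a ∉ S ∧ ∀ b ∈ S, R b a) := by
    intro a S
    simp [F]
  -- inserting `a` in a member of `F a` gives a chain
  have hins : ∀ a S, S ∈ F a → ∀ x ∈ insert a S, ∀ y ∈ insert a S, x ≠ y → R x y ∨ R y x := by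
    intro a S hS x hx y hy hxy
    obtain ⟨h1, h2, h3⟩ := (hF a S).1 hS
    rcases Finset.mem_insert.1 hx with rfl | hx
    · rcases Finset.mem_insert.1 hy with rfl | hy
      · exact absurd rfl hxy
      · exact Or.inr (h3 y hy)
    · rcases Finset.mem_insert.1 hy with rfl | hy
      · exact Or.inl (h3 x hx)
      · exact h1 x hx y hy hxy
  refine ⟨fun a => (F a).sup Finset.card, ?_, ?_⟩
  · intro a
    have hne : (F a).Nonempty := ⟨∅, (hF a ∅).2 ⟨by simp, by simp, by simp⟩⟩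
    obtain ⟨S, hS, hSc⟩ := Finset.exists_mem_eq_sup (F a) hne Finset.card
    have h1 := hK (insert a S) (hins a S hS)
    rw [Finset.card_insert_of_notMem ((hF a S).1 hS).2.1] at h1
    show (F a).sup Finset.card < K
    omega
  · intro a b hab
    have hne : (F a).Nonempty := ⟨∅, (hF a ∅).2 ⟨by simp, by simp, by simp⟩⟩
    obtain ⟨S, hS, hSc⟩ := Finset.exists_mem_eq_sup (F a) hne Finset.card
    have h0 := (hF a S).1 hS
    have h1 : insert a S ∈ F b := by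
      refine (hF b _).2 ⟨hins a S hS, ?_, ?_⟩
      · intro h
        rcases Finset.mem_insert.1 h with h | h
        · subst h
          exact hirr _ hab
        · exact hirr a (htr _ _ _ hab (h0.2.2 b h))
      · intro x hx
        rcases Finset.mem_insert.1 hx with rfl | hx
        · exact hab
        · exact htr _ _ _ (h0.2.2 x hx) hab
    have h2 := Finset.le_sup (f := Finset.card) h1
    rw [Finset.card_insert_of_notMem h0.2.1] at h2
    show (F a).sup Finset.card < (F b).sup Finset.card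
    omega

/-- two different numbers below `n` have a dyadic level at most `Nat.log 2 n` -/
theorem exists_level {n x y : ℕ} (hx : x < n) (hy : y < n) :
    ∃ b, b ≤ Nat.log 2 n ∧ x / 2 ^ (b + 1) = y / 2 ^ (b + 1) := by
  refine ⟨Nat.log 2 n, le_rfl, ?_⟩
  have h := Nat.lt_pow_succ_log_self (b := 2) (by norm_num) n
  rw [Nat.div_eq_of_lt (by omega), Nat.div_eq_of_lt (by omega)]

/-- the dyadic level of a pair of numbers -/
theorem level_spec {n x y : ℕ} (hxy : x < y) (hy : y < n) :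
    ∃ b, b ≤ Nat.log 2 n ∧ x / 2 ^ (b + 1) = y / 2 ^ (b + 1) ∧
      x / 2 ^ b = 2 * (x / 2 ^ (b + 1)) ∧ y / 2 ^ b = 2 * (y / 2 ^ (b + 1)) + 1 := by
  classical
  have hx : x < n := by omega
  have hex : ∃ b, x / 2 ^ (b + 1) = y / 2 ^ (b + 1) := by
    obtain ⟨b, _, h⟩ := exists_level hx hy
    exact ⟨b, h⟩
  refine ⟨Nat.find hex, ?_, Nat.find_spec hex, ?_⟩
  · obtain ⟨b, hb, h⟩ := exists_level hx hy
    exact le_trans (Nat.find_min' hex h) hb
  · set b := Nat.find hex with hb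
    have h1 : x / 2 ^ (b + 1) = y / 2 ^ (b + 1) := Nat.find_spec hex
    have h2 : x / 2 ^ b ≠ y / 2 ^ b := by
      rcases Nat.eq_zero_or_pos b with h0 | h0
      · rw [h0]
        simp
        omega
      · have h3 := Nat.find_min hex (m := b - 1) (by omega)
        rwa [Nat.sub_add_cancel (by omega)] at h3
    have h3 : x / 2 ^ b ≤ y / 2 ^ b := Nat.div_le_div_right (by omega)
    have h4 : ∀ z : ℕ, z / 2 ^ (b + 1) = z / 2 ^ b / 2 := by
      intro z
      rw [pow_succ, Nat.div_div_eq_div_mul]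
    rw [h4, h4] at h1
    rw [h4, h4]
    omega

/-- `PAGES`: if all edges go forward in the order `σ` and every twist has at most `K` edges, then
`(Nat.log 2 n + 1) * K` pages are enough. -/
theorem pages_of_twist {n K : ℕ} (hK0 : 0 < K) (σ : Fin n ≃ Fin n) (A : Fin n → Fin n → Prop)
    (hf : ∀ u v, A u v → σ u < σ v)
    (hK : ∀ S : Finset (Fin n × Fin n), (∀ e ∈ S, A e.1 e.2) →
      (∀ e ∈ S, ∀ e' ∈ S, e ≠ e' →
        (σ e.1 < σ e'.1 ∧ σ e'.1 < σ e.2 ∧ σ e.2 < σ e'.2) ∨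
        (σ e'.1 < σ e.1 ∧ σ e.1 < σ e'.2 ∧ σ e'.2 < σ e.2)) → S.card ≤ K) :
    ∃ p : Fin n → Fin n → Fin ((Nat.log 2 n + 1) * K),
      ∀ a b c d, A a b → A c d → p a b = p c d → ¬ (σ a < σ c ∧ σ c < σ b ∧ σ b < σ d) := by
  classical
  -- the level of an edge
  have hlev : ∀ e : {e : Fin n × Fin n // A e.1 e.2}, ∃ b, b ≤ Nat.log 2 n ∧
      (σ e.1.1 : ℕ) / 2 ^ (b + 1) = (σ e.1.2 : ℕ) / 2 ^ (b + 1) ∧
      (σ e.1.1 : ℕ) / 2 ^ b = 2 * ((σ e.1.1 : ℕ) / 2 ^ (b + 1)) ∧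
      (σ e.1.2 : ℕ) / 2 ^ b = 2 * ((σ e.1.2 : ℕ) / 2 ^ (b + 1)) + 1 := fun e =>
    level_spec (hf _ _ e.2) (σ e.1.2).2
  choose L hL1 hL2 hL3 hL4 using hlev
  -- the order on the edges
  let R : {e : Fin n × Fin n // A e.1 e.2} → {e : Fin n × Fin n // A e.1 e.2} → Prop :=
    fun e e' => L e = L e' ∧
      (σ e.1.1 : ℕ) / 2 ^ (L e + 1) = (σ e'.1.1 : ℕ) / 2 ^ (L e' + 1) ∧
      σ e.1.1 < σ e'.1.1 ∧ σ e.1.2 < σ e'.1.2
  -- related edges cross
  have hcr : ∀ e e', R e e' →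
      σ e.1.1 < σ e'.1.1 ∧ σ e'.1.1 < σ e.1.2 ∧ σ e.1.2 < σ e'.1.2 := by
    rintro e e' ⟨h1, h2, h3, h4⟩
    refine ⟨h3, ?_, h4⟩
    rw [Fin.lt_def]
    by_contra h
    push Not at h
    have h5 : (σ e.1.2 : ℕ) / 2 ^ L e ≤ (σ e'.1.1 : ℕ) / 2 ^ L e := Nat.div_le_div_right h
    have h6 := hL4 e
    have h7 := hL3 e'
    have h8 := hL2 e
    rw [← h1] at h7 h2
    omega
  -- crossing edges of the same level are related
  have hrel : ∀ e e', L e = L e' →
      (σ e.1.1 < σ e'.1.1 ∧ σ e'.1.1 < σ e.1.2 ∧ σ e.1.2 < σ e'.1.2) → R e e' := by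
    rintro e e' h1 ⟨h2, h3, h4⟩
    refine ⟨h1, ?_, h2, h4⟩
    rw [← h1]
    have h5 := hL2 e
    have h6 : (σ e.1.1 : ℕ) / 2 ^ (L e + 1) ≤ (σ e'.1.1 : ℕ) / 2 ^ (L e + 1) :=
      Nat.div_le_div_right (le_of_lt (Fin.lt_def.1 h2))
    have h7 : (σ e'.1.1 : ℕ) / 2 ^ (L e + 1) ≤ (σ e.1.2 : ℕ) / 2 ^ (L e + 1) :=
      Nat.div_le_div_right (le_of_lt (Fin.lt_def.1 h3))
    omega
  obtain ⟨h, hh1, hh2⟩ := mirsky R (by
      rintro a b c ⟨h1, h2, h3, h4⟩ ⟨k1, k2, k3, k4⟩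
      exact ⟨h1.trans k1, h2.trans k2, h3.trans k3, h4.trans k4⟩) K (by
      intro S hS
      have h1 := hK (S.map (Function.Embedding.subtype _)) (by
        intro e he
        obtain ⟨e', he', rfl⟩ := Finset.mem_map.1 he
        exact e'.2) (by
        intro e he e' he' hne
        obtain ⟨g, hg, rfl⟩ := Finset.mem_map.1 he
        obtain ⟨g', hg', rfl⟩ := Finset.mem_map.1 he'
        have h2 : g ≠ g' := fun h => hne (by rw [h])
        rcases hS g hg g' hg' h2 with h3 | h3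
        · exact Or.inl (hcr g g' h3)
        · exact Or.inr (hcr g' g h3))
      rwa [Finset.card_map] at h1) (by
      rintro a ⟨_, _, h3, _⟩
      exact lt_irrefl _ h3)
  -- the pages
  let q : {e : Fin n × Fin n // A e.1 e.2} → Fin ((Nat.log 2 n + 1) * K) := fun e =>
    ⟨L e * K + h e, by
      have h1 := hL1 e
      have h2 := hh1 e
      calc L e * K + h e < L e * K + K := by omega
        _ = (L e + 1) * K := by ring
        _ ≤ (Nat.log 2 n + 1) * K := Nat.mul_le_mul_right K (by omega)⟩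
  refine ⟨fun a b => if hab : A a b then q ⟨(a, b), hab⟩ else ⟨0, by positivity⟩, ?_⟩
  intro a b c d hab hcd hp hx
  simp only [hab, hcd, dif_pos] at hp
  have h0 : L ⟨(a, b), hab⟩ * K + h ⟨(a, b), hab⟩ = L ⟨(c, d), hcd⟩ * K + h ⟨(c, d), hcd⟩ :=
    congrArg Fin.val hp
  have e1 := hh1 ⟨(a, b), hab⟩
  have e2 := hh1 ⟨(c, d), hcd⟩
  have e3 : L ⟨(a, b), hab⟩ = L ⟨(c, d), hcd⟩ := by
    have f1 : (L ⟨(a, b), hab⟩ * K + h ⟨(a, b), hab⟩) / K = L ⟨(a, b), hab⟩ := by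
      rw [mul_comm, Nat.mul_add_div hK0, Nat.div_eq_of_lt e1, add_zero]
    have f2 : (L ⟨(c, d), hcd⟩ * K + h ⟨(c, d), hcd⟩) / K = L ⟨(c, d), hcd⟩ := by
      rw [mul_comm, Nat.mul_add_div hK0, Nat.div_eq_of_lt e2, add_zero]
    rw [← f1, ← f2, h0]
  have e4 : h ⟨(a, b), hab⟩ = h ⟨(c, d), hcd⟩ := by
    rw [e3] at h0
    omega
  have e5 := hh2 _ _ (hrel ⟨(a, b), hab⟩ ⟨(c, d), hcd⟩ e3 hx)
  omega

end W_a4f561_h34
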