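import Pool.Agent.W_a4f561_h34.WaA
import Pool.Agent.W_a4f561_h34.Lst

/-!
MP_a4f561_co (BipLattice): lists of vertices of paths.
-/

set_option autoImplicit false

namespace Pool.Agent.W_a4f561_h34

open Sum Pool.Agent.W_a4f561_h25

variable {V E : Type} {P : Pl V E} {s t a b : V} {W : List E}

/-- The vertices of a path. -/
theorem pa_cons {tl hd : E → V} {a b : V} {W : List E} (h : Pa tl hd a W b) (x y : V) :
    Cons (a :: W.map hd) x y ↔ ∃ e ∈ W, tl e = x ∧ hd e = y := by
  induction W generalizing a with
  | nil =>
    constructor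
    · intro h1
      exact absurd h1 (cons_one a x y)
    · rintro ⟨e, he, _⟩
      exact absurd he List.not_mem_nil
  | cons e W ih =>
    obtain ⟨h1, h2⟩ := h
    rw [List.map_cons, cons_two, ih h2]
    constructor
    · rintro (⟨h3, h4⟩ | ⟨e', he', h3⟩)
      · exact ⟨e, List.mem_cons_self, h1.trans h3.symm, h4.symm⟩
      · exact ⟨e', List.mem_cons_of_mem _ he', h3⟩
    · rintro ⟨e', he', h3, h4⟩
      rcases List.mem_cons.1 he' with rfl | he'
      · exact Or.inl ⟨h3.symm.trans h1, h4.symm⟩
      · exact Or.inr ⟨e', he', h3, h4⟩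

theorem pa_last {tl hd : E → V} {a b : V} {W : List E} (h : Pa tl hd a W b) :
    ∃ l, a :: W.map hd = l ++ [b] := by
  induction W generalizing a with
  | nil =>
    have h1 : a = b := h
    exact ⟨[], by rw [h1]; rfl⟩
  | cons e W ih =>
    obtain ⟨h1, h2⟩ := h
    obtain ⟨l, hl⟩ := ih h2
    exact ⟨a :: l, by rw [List.map_cons, hl, List.cons_append]⟩

theorem pa_last' {tl hd : E → V} {a b : V} {W : List E} (h : Pa tl hd a W b) (hW : W ≠ []) :
    W.map hd = W.dropLast.map hd ++ [b] := by
  induction W generalizing a with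
  | nil => exact absurd rfl hW
  | cons e W ih =>
    obtain ⟨h1, h2⟩ := h
    cases W with
    | nil =>
      have h3 : hd e = b := h2
      rw [← h3]
      rfl
    | cons e' W' =>
      have h3 := ih h2 (List.cons_ne_nil _ _)
      rw [List.map_cons, h3, List.dropLast_cons_cons, List.map_cons, List.cons_append]

/-- The vertices of a path are different. -/
theorem pa_nodup (h : Pa P.tl P.hd a W b) : (a :: W.map P.hd).Nodup := by
  induction W generalizing a with
  | nil =>
    rw [List.map_nil]
    exact List.nodup_singleton a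
  | cons e W ih =>
    have h0 := h
    obtain ⟨h1, h2⟩ := h
    rw [List.nodup_cons]
    refine ⟨?_, ?_⟩
    · intro hm
      obtain ⟨e', he', h3⟩ := List.mem_map.1 hm
      have h4 := (pa_lo h0 he').1
      have h5 : Bl P (inl (P.tl e')) (inl (P.hd e')) := (bl_tl e').tr (bl_hd e')
      have h6 : Bl P (inl a) (inl (P.hd e')) := by
        rcases h4 with h4 | h4
        · rw [← h4]
          exact h5
        · exact h4.tr h5
      rw [h3] at h6
      exact bl_irr h6
    · rw [List.map_cons]
      exact ih h2

end Pool.Agent.W_a4f561_h34
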