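import Pool.Agent.W_a4f561_h34.SnC

/-!
MP_a4f561_co (BipLattice): the step for one face.
-/

set_option autoImplicit false

namespace Pool.Agent.W_a4f561_h34

open Pool.Agent.W_a4f561_h25

variable {V : Type} {c : V → Bool}

private theorem SnD_cons {w1 R w2 : List V} {l0 lp u v : V} :
    Cons (w1 ++ l0 :: (R ++ lp :: w2)) u v ↔
      Cons (w1 ++ [l0]) u v ∨ Cons (l0 :: (R ++ [lp])) u v ∨ Cons (lp :: w2) u v := by
  rw [cons_app w1 l0, show l0 :: (R ++ lp :: w2) = (l0 :: R) ++ lp :: w2 from rfl,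
    cons_app (l0 :: R) lp]
  exact Iff.rfl

private theorem SnD_right {m : List V} (b : List V) {u v : V} (h : Cons m u v) :
    Cons (m ++ b) u v := by
  obtain ⟨a, b', rfl⟩ := h
  exact ⟨a, b' ++ b, by simp⟩

private theorem SnD_left {m : List V} (x : V) {u v : V} (h : Cons m u v) : Cons (x :: m) u v := by
  obtain ⟨a, b', rfl⟩ := h
  exact ⟨x :: a, b', rfl⟩

private theorem SnD_last {m : List V} {y u v : V} (h : Cons (m ++ [y]) u v) :
    Cons m u v ∨ v = y := by
  obtain ⟨a, b, h⟩ := h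
  rcases List.eq_nil_or_concat b with rfl | ⟨b', z, rfl⟩
  · right
    have h1 : m ++ [y] = (a ++ [u]) ++ [v] := by simpa using h
    have h2 := (List.append_inj' h1 rfl).2
    injection h2 with h3 h4
    exact h3.symm
  · left
    have h1 : m ++ [y] = (a ++ u :: v :: b') ++ [z] := by simpa using h
    exact ⟨a, b', (List.append_inj' h1 rfl).1⟩

private theorem SnD_head {m : List V} {x u v : V} (h : Cons (x :: m) u v) : u = x ∨ Cons m u v := by
  cases m with
  | nil => exact absurd h (cons_one x u v)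
  | cons y b =>
    rcases (cons_two x y b u v).1 h with h | h
    · exact Or.inl h.1
    · exact Or.inr h

private theorem SnD_fin {U : Set V} {r : V → V → Prop} {wI : List V} {op F : V → V → Prop}
    {w1 R w2 : List V} {l0 lp : V}
    (H : Sn U r wI op (fun u v => F u v ∧ c u = true) (fun u v => F u v ∧ c u = false))
    (hsub : (w1 ++ l0 :: (R ++ lp :: w2)).Sublist wI)
    (ha : ∀ u v, Cons (w1 ++ [l0]) u v → c u = true → op u v)
    (hb : ∀ u v, Cons (l0 :: (R ++ [lp])) u v → c u = true → op u v)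
    (hc : ∀ u v, Cons (lp :: w2) u v → c u = true → op u v) :
    StB c U r (w1 ++ l0 :: (R ++ lp :: w2))
      (fun u v => F u v ∨ Cons (l0 :: (R ++ [lp])) u v) := by
  have h1 := H.regroup hsub
    (op' := fun u v => Cons (w1 ++ l0 :: (R ++ lp :: w2)) u v ∧ c u = true)
    (N1 := fun u v => Cons (l0 :: (R ++ [lp])) u v ∧ c u = true)
    (N0 := fun u v => Cons (l0 :: (R ++ [lp])) u v ∧ c u = false)
    (by
      rintro u v ⟨h, hu⟩
      refine ⟨?_, (cons_mem h).1, (cons_mem h).2⟩
      rcases SnD_cons.1 h with h | h | h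
      · exact ha u v h hu
      · exact hb u v h hu
      · exact hc u v h hu)
    (by
      rintro u v ⟨h, hu⟩
      exact hb u v h hu)
    (by
      rintro u v ⟨h, -⟩
      exact SnD_cons.2 (Or.inr (Or.inl h)))
    (by
      rintro u v ⟨-, hu⟩ ⟨-, hu2⟩
      rw [hu] at hu2
      exact Bool.noConfusion hu2)
  have e1 : (fun u v => (F u v ∨ Cons (l0 :: (R ++ [lp])) u v) ∧ c u = true) =
      fun x y => (F x y ∧ c x = true) ∨ (Cons (l0 :: (R ++ [lp])) x y ∧ c x = true) := by
    funext u v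
    rw [or_and_right]
  have e2 : (fun u v => (F u v ∨ Cons (l0 :: (R ++ [lp])) u v) ∧ c u = false) =
      fun x y => (F x y ∧ c x = false) ∨ (Cons (l0 :: (R ++ [lp])) x y ∧ c x = false) := by
    funext u v
    rw [or_and_right]
  unfold StB
  rw [e1, e2]
  exact h1

/-- One face with left side `l0, L, lp` and right side `l0, R, lp`.

Proof. By `alt_col` the lengths of `L` and `R` have the same parity. Every consecutive pair `(u, v)` of `w` with
`c u = true` is open; `Sn.insert` (once or twice), then `Sn.regroup` to the wall `w1 ++ l0 :: (R ++ lp :: w2)` with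
`op' u v = (Cons w' u v ∧ c u = true)`, `N1 u v = (Cons (l0 :: (R ++ [lp])) u v ∧ c u = true)`, `N0` the same with
`c u = false` (all pairs with `c u = true` have to be open after the insertions). Cases:
(1) `c l0 = c lp = true`: `L = l1 :: L'`, insert `R` between `l0` and `l1`.
(2) `c l0 = c lp = false`: insert `R` between the last element of `L` and `lp`.
(3) `c l0 = false`, `c lp = true`: `L = l1 :: l2 :: L'`, insert `R` between `l1` and `l2` (`c l1 = true`).
(4) `c l0 = true`, `c lp = false`: `L` and `R` have even length, `R = r1 :: R2`, `R2 ≠ []`, `c r1 = false`: insert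
`[r1]` between `l0` and the first element of `L`, and `R2` between the last element of `L` and `lp`. -/
theorem StB.face {U : Set V} {r : V → V → Prop} {w : List V} {F : V → V → Prop}
    (H : StB c U r w F) {w1 L R w2 : List V} {l0 lp : V} (hw : w = w1 ++ l0 :: (L ++ lp :: w2))
    (hL : L ≠ []) (hR : R ≠ []) (hRn : R.Nodup) (hRU : ∀ z ∈ R, z ∉ U)
    (a1 : ∀ u v, Cons (l0 :: (L ++ [lp])) u v → c u ≠ c v)
    (a2 : ∀ u v, Cons (l0 :: (R ++ [lp])) u v → c u ≠ c v) :
    ∃ r', StB c (U ∪ {z | z ∈ R}) r' (w1 ++ l0 :: (R ++ lp :: w2))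
      (fun u v => F u v ∨ Cons (l0 :: (R ++ [lp])) u v) := by
  subst hw
  have hnd : (w1 ++ l0 :: (L ++ lp :: w2)).Nodup := by
    refine H.winc.imp_of_mem fun {a b} ha _ hab hne => ?_
    rw [← hne] at hab
    exact H.lin.irr a (H.wU a ha) hab
  have hA : ∀ v ∈ w1 ++ [l0], ∀ y ∈ L ++ [lp], v ≠ y := by
    have h1 : w1 ++ l0 :: (L ++ lp :: w2) = (w1 ++ [l0]) ++ ((L ++ [lp]) ++ w2) := by simp
    rw [h1] at hnd
    intro v hv y hy
    exact (List.nodup_append.1 hnd).2.2 v hv y (List.mem_append_left _ hy)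
  have hB : ∀ u ∈ lp :: w2, ∀ x ∈ l0 :: L, u ≠ x := by
    have h1 : w1 ++ l0 :: (L ++ lp :: w2) = (w1 ++ l0 :: L) ++ lp :: w2 := by simp
    rw [h1] at hnd
    intro u hu x hx
    exact ((List.nodup_append.1 hnd).2.2 x (List.mem_append_right _ hx) u hu).symm
  have hpar := alt_col a1 (x := l0) (y := lp) (m := L) rfl
  have hold : ∀ u v, (Cons (w1 ++ [l0]) u v ∨ Cons (lp :: w2) u v) → c u = true →
      (Cons (w1 ++ l0 :: (L ++ lp :: w2)) u v ∧ c u = true) := by
    rintro u v (h | h) hu
    · exact ⟨SnD_cons.2 (Or.inl h), hu⟩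
    · exact ⟨SnD_cons.2 (Or.inr (Or.inr h)), hu⟩
  cases h0 : c l0 <;> cases hp : c lp
  · -- case (2)
    obtain ⟨L', x, rfl⟩ := (List.eq_nil_or_concat L).resolve_left hL
    have hx : c x = true := by
      have h1 := a1 x lp ⟨l0 :: L', [], by simp⟩
      rw [hp] at h1
      simpa using h1
    obtain ⟨r', h'⟩ := Sn.insert H (w1 := w1 ++ l0 :: L') (w2 := w2) (x := x) (y := lp)
      (by simp) ⟨⟨w1 ++ l0 :: L', w2, by simp⟩, hx⟩ hRn hRU
    refine ⟨r', SnD_fin h' ?_ ?_ ?_ ?_⟩
    · have h1 : w1 ++ l0 :: (R ++ lp :: w2) = (w1 ++ [l0]) ++ (R ++ lp :: w2) := by simp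
      rw [h1]
      refine List.Sublist.append (List.Sublist.append (List.Sublist.refl w1) ?_)
        (List.Sublist.cons _ (List.Sublist.refl _))
      exact List.Sublist.cons_cons l0 (List.nil_sublist _)
    · intro u v h hu
      exact Or.inl ⟨hold u v (Or.inl h) hu, fun hh => hA v (cons_mem h).2 lp (by simp) hh.2⟩
    · intro u v h hu
      rcases SnD_head h with h1 | h1
      · rw [h1, h0] at hu
        exact Bool.noConfusion hu
      · exact Or.inr (SnD_left x h1)
    · intro u v h hu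
      exact Or.inl ⟨hold u v (Or.inr h) hu, fun hh => hB u (cons_mem h).1 x (by simp) hh.1⟩
  · -- case (3)
    rw [h0, hp] at hpar
    have hlen : ¬ L.length % 2 = 1 := fun h => Bool.noConfusion (hpar.2 h)
    obtain ⟨l1, l2, L', rfl⟩ : ∃ l1 l2 L', L = l1 :: l2 :: L' := by
      match L, hL, hlen with
      | [], hL, _ => exact absurd rfl hL
      | [_], _, hlen => exact absurd rfl hlen
      | l1 :: l2 :: L', _, _ => exact ⟨l1, l2, L', rfl⟩
    have h1 : c l1 = true := by
      have h1 := a1 l0 l1 ⟨[], l2 :: (L' ++ [lp]), rfl⟩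
      rw [h0] at h1
      simpa using h1.symm
    obtain ⟨r', h'⟩ := Sn.insert H (w1 := w1 ++ [l0]) (w2 := L' ++ lp :: w2) (x := l1) (y := l2)
      (by simp) ⟨⟨w1 ++ [l0], L' ++ lp :: w2, by simp⟩, h1⟩ hRn hRU
    refine ⟨r', SnD_fin h' ?_ ?_ ?_ ?_⟩
    · have h1 : w1 ++ l0 :: (R ++ lp :: w2) = (w1 ++ [l0]) ++ (R ++ lp :: w2) := by simp
      rw [h1]
      refine List.Sublist.append (List.Sublist.refl _) (List.Sublist.cons _ ?_)
      refine List.Sublist.append (List.Sublist.refl R) (List.Sublist.cons _ ?_)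
      exact List.sublist_append_right _ _
    · intro u v h hu
      exact Or.inl ⟨hold u v (Or.inl h) hu, fun hh => hA v (cons_mem h).2 l2 (by simp) hh.2⟩
    · intro u v h hu
      rcases SnD_head h with h2 | h2
      · rw [h2, h0] at hu
        exact Bool.noConfusion hu
      · rcases SnD_last h2 with h3 | h3
        · exact Or.inr (SnD_left l1 (SnD_right [l2] h3))
        · have h4 := a2 u v h
          rw [h3, hp, hu] at h4
          exact absurd rfl h4
    · intro u v h hu
      exact Or.inl ⟨hold u v (Or.inr h) hu, fun hh => hB u (cons_mem h).1 l1 (by simp) hh.1⟩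
  · -- case (4)
    rw [h0, hp] at hpar
    have hlen : ¬ L.length % 2 = 1 := fun h => Bool.noConfusion (hpar.2 h)
    obtain ⟨l1, L1, rfl⟩ : ∃ l1 L1, L = l1 :: L1 := by
      match L, hL with
      | [], hL => exact absurd rfl hL
      | l1 :: L1, _ => exact ⟨l1, L1, rfl⟩
    have hL1 : L1 ≠ [] := by
      rintro rfl
      exact hlen rfl
    obtain ⟨L2, x, hL2⟩ := (List.eq_nil_or_concat L1).resolve_left hL1
    rw [List.concat_eq_append] at hL2
    subst hL2
    obtain ⟨r1, R2, rfl⟩ : ∃ r1 R2, R = r1 :: R2 := by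
      match R, hR with
      | [], hR => exact absurd rfl hR
      | r1 :: R2, _ => exact ⟨r1, R2, rfl⟩
    have hx : c x = true := by
      have h1 := a1 x lp ⟨l0 :: l1 :: L2, [], by simp⟩
      rw [hp] at h1
      simpa using h1
    have hr1 : c r1 = false := by
      have h1 := a2 l0 r1 ⟨[], R2 ++ [lp], rfl⟩
      rw [h0] at h1
      simpa using h1.symm
    obtain ⟨hr1n, hR2n⟩ := List.nodup_cons.1 hRn
    obtain ⟨s, hs⟩ := Sn.insert H (w1 := w1) (w2 := (L2 ++ [x]) ++ lp :: w2) (x := l0) (y := l1)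
      rfl ⟨⟨w1, (L2 ++ [x]) ++ lp :: w2, rfl⟩, h0⟩ (R := [r1]) (List.nodup_singleton r1)
      (fun z hz => by
        rw [List.mem_singleton] at hz
        rw [hz]
        exact hRU r1 List.mem_cons_self)
    have hlpl1 : lp ≠ l1 := hB lp List.mem_cons_self l1 (by simp)
    have hl0x : l0 ≠ x := hA l0 (by simp) x (by simp)
    obtain ⟨r', h'⟩ := Sn.insert hs (w1 := w1 ++ l0 :: r1 :: l1 :: L2) (w2 := w2) (x := x) (y := lp)
      (by simp) (Or.inl ⟨⟨⟨w1 ++ l0 :: l1 :: L2, w2, by simp⟩, hx⟩, fun hh => hlpl1 hh.2⟩) hR2n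
      (fun z hz => by
        rintro (h | h)
        · exact hRU z (List.mem_cons_of_mem _ hz) h
        · have h2 : z = r1 := List.mem_singleton.1 h
          rw [h2] at hz
          exact hr1n hz)
    have hU : U ∪ {z | z ∈ r1 :: R2} = (U ∪ {z | z ∈ [r1]}) ∪ {z | z ∈ R2} := by
      ext z
      simp only [Set.mem_union, Set.mem_ofPred_eq, List.mem_cons, List.not_mem_nil, or_false]
      tauto
    rw [hU]
    refine ⟨r', SnD_fin h' ?_ ?_ ?_ ?_⟩
    · have h1 : w1 ++ l0 :: ((r1 :: R2) ++ lp :: w2) = (w1 ++ [l0, r1]) ++ (R2 ++ lp :: w2) := by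
        simp
      rw [h1]
      refine List.Sublist.append (List.Sublist.append (List.Sublist.refl w1) ?_)
        (List.Sublist.cons _ (List.Sublist.refl _))
      exact List.Sublist.cons_cons l0 (List.Sublist.cons_cons r1 (List.nil_sublist _))
    · intro u v h hu
      refine Or.inl ⟨Or.inl ⟨hold u v (Or.inl h) hu, fun hh => ?_⟩, fun hh => ?_⟩
      · exact hA v (cons_mem h).2 l1 (by simp) hh.2
      · exact hA v (cons_mem h).2 lp (by simp) hh.2
    · intro u v h hu
      rcases (cons_two l0 r1 (R2 ++ [lp]) u v).1 h with ⟨h2, h3⟩ | h2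
      · refine Or.inl ⟨Or.inr ?_, fun hh => hl0x (h2.symm.trans hh.1)⟩
        rw [h2, h3]
        exact ⟨[], [l1], rfl⟩
      · rcases SnD_head h2 with h3 | h3
        · rw [h3, hr1] at hu
          exact Bool.noConfusion hu
        · exact Or.inr (SnD_left x h3)
    · intro u v h hu
      refine Or.inl ⟨Or.inl ⟨hold u v (Or.inr h) hu, fun hh => ?_⟩, fun hh => ?_⟩
      · exact hB u (cons_mem h).1 l0 (by simp) hh.1
      · exact hB u (cons_mem h).1 x (by simp) hh.1
  · -- case (1)
    obtain ⟨l1, L', rfl⟩ : ∃ l1 L', L = l1 :: L' := by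
      match L, hL with
      | [], hL => exact absurd rfl hL
      | l1 :: L', _ => exact ⟨l1, L', rfl⟩
    obtain ⟨r', h'⟩ := Sn.insert H (w1 := w1) (w2 := L' ++ lp :: w2) (x := l0) (y := l1)
      rfl ⟨⟨w1, L' ++ lp :: w2, rfl⟩, h0⟩ hRn hRU
    refine ⟨r', SnD_fin h' ?_ ?_ ?_ ?_⟩
    · refine List.Sublist.append (List.Sublist.refl w1) (List.Sublist.cons_cons l0 ?_)
      refine List.Sublist.append (List.Sublist.refl R) (List.Sublist.cons _ ?_)
      exact List.sublist_append_right _ _
    · intro u v h hu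
      exact Or.inl ⟨hold u v (Or.inl h) hu, fun hh => hA v (cons_mem h).2 l1 (by simp) hh.2⟩
    · intro u v h hu
      rcases SnD_last (m := l0 :: R) h with h3 | h3
      · exact Or.inr (SnD_right [l1] h3)
      · have h4 := a2 u v h
        rw [h3, hp, hu] at h4
        exact absurd rfl h4
    · intro u v h hu
      exact Or.inl ⟨hold u v (Or.inr h) hu, fun hh => hB u (cons_mem h).1 l0 (by simp) hh.1⟩

end Pool.Agent.W_a4f561_h34
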