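import Pool.Agent.W_a4f561_h34.PmA
import Pool.Agent.W_a4f561_h34.WaG
import Pool.Agent.W_a4f561_h34.SnD

/-!
MP_a4f561_co (BipLattice): the order for a planar st-structure.
-/

set_option autoImplicit false

namespace Pool.Agent.W_a4f561_h34

open Sum Pool.Agent.W_a4f561_h25

variable {V E : Type} {P : Pl V E} {s t a b : V} {W : List E}

/-- The invariant of the induction over the walls. -/
private def PmB_M (P : Pl V E) (c : V → Bool) (s : V) (W : List E) : Prop :=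
  ∃ r, StB c {x | ∃ g, ¬ Rg P W (inr g) ∧ (P.tl g = x ∨ P.hd g = x)} r
    (s :: W.map P.hd) (fun x y => ∃ g, ¬ Rg P W (inr g) ∧ P.tl g = x ∧ P.hd g = y)

private theorem PmB_congr {c : V → Bool} {U U' : Set V} {r : V → V → Prop} {w w' : List V}
    {F F' : V → V → Prop} (hU : ∀ x, x ∈ U ↔ x ∈ U') (hw : w = w')
    (hF : ∀ x y, F x y ↔ F' x y) (h : StB c U r w F) : StB c U' r w' F' := by
  have h1 : U = U' := Set.ext hU
  have h2 : F = F' := by
    funext x y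
    exact propext (hF x y)
  rw [← h1, ← hw, ← h2]
  exact h

private theorem PmB_one {W : List E} (h : W ≠ []) (h2 : W.dropLast.map P.hd = []) :
    ∃ e, W = [e] := by
  have h3 : W.dropLast = [] := List.map_eq_nil_iff.1 h2
  have h4 := congrArg List.length h3
  rw [List.length_dropLast, List.length_nil] at h4
  have h5 := List.length_pos_iff.2 h
  exact List.length_eq_one_iff.1 (by omega)

private theorem PmB_tl {tl hd : E → V} {a b : V} {W : List E} (h : Pa tl hd a W b) {e : E}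
    (he : e ∈ W) : tl e ∈ a :: W.map hd :=
  (cons_mem ((pa_cons h (tl e) (hd e)).2 ⟨e, he, rfl, rfl⟩)).1

private theorem PmB_start (hW : Pa P.tl P.hd s W t) (hst : s ≠ t)
    (h0 : ∀ g, ¬ Rg P W (inr g) → g ∈ W) (c : V → Bool) : PmB_M P c s W := by
  have hiff : ∀ g, ¬ Rg P W (inr g) ↔ g ∈ W := fun g => ⟨h0 g, not_rg_mem hW⟩
  obtain ⟨r, hr⟩ := stB_init (c := c) (pa_nodup hW)
  refine ⟨r, PmB_congr ?_ rfl ?_ hr⟩
  · intro x
    simp only [Set.mem_ofPred_eq, hiff]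
    constructor
    · intro hx
      rcases List.mem_cons.1 hx with rfl | hx
      · cases W with
        | nil => exact absurd hW hst
        | cons e W' => exact ⟨e, List.mem_cons_self, Or.inl hW.1⟩
      · obtain ⟨e, he, rfl⟩ := List.mem_map.1 hx
        exact ⟨e, he, Or.inr rfl⟩
    · rintro ⟨g, hg, rfl | rfl⟩
      · exact PmB_tl hW hg
      · exact List.mem_cons_of_mem _ (List.mem_map.2 ⟨g, hg, rfl⟩)
  · intro x y
    rw [pa_cons hW]
    simp only [hiff]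

private theorem PmB_step (c : V → Bool)
    (hc : ∀ e, c (P.tl e) ≠ c (P.hd e))
    (htr : ∀ e Q, Pa P.tl P.hd (P.tl e) Q (P.hd e) → Q = [e])
    (W1 Wm W2 Q : List E) (v u : V) (p1 : Pa P.tl P.hd s W1 v) (pm : Pa P.tl P.hd v Wm u)
    (pq : Pa P.tl P.hd v Q u) (p2 : Pa P.tl P.hd u W2 t) (nm : Wm ≠ []) (nq : Q ≠ [])
    (hQ : ∀ e ∈ Q, Rg P (W1 ++ (Wm ++ W2)) (inr e))
    (hnew : ∀ e ∈ Q.dropLast, ∀ g, ¬ Rg P (W1 ++ (Wm ++ W2)) (inr g) →
        P.hd g ≠ P.hd e ∧ P.tl g ≠ P.hd e)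
    (hiff : ∀ g, Rg P (W1 ++ (Q ++ W2)) (inr g) ↔ Rg P (W1 ++ (Wm ++ W2)) (inr g) ∧ g ∉ Q)
    (hM : PmB_M P c s (W1 ++ (Wm ++ W2))) : PmB_M P c s (W1 ++ (Q ++ W2)) := by
  obtain ⟨r, H⟩ := hM
  have hW : Pa P.tl P.hd s (W1 ++ (Wm ++ W2)) t :=
    pa_app.2 ⟨v, p1, pa_app.2 ⟨u, pm, p2⟩⟩
  have hm : ∀ e ∈ Wm, ¬ Rg P (W1 ++ (Wm ++ W2)) (inr e) := fun e he =>
    not_rg_mem hW (List.mem_append.2 (Or.inr (List.mem_append.2 (Or.inl he))))
  obtain ⟨w1, hw1⟩ := pa_last p1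
  have em := pa_last' pm nm
  have eq := pa_last' pq nq
  have list_eq : ∀ {Z : List E}, Z.map P.hd = Z.dropLast.map P.hd ++ [u] →
      s :: (W1 ++ (Z ++ W2)).map P.hd =
        w1 ++ v :: (Z.dropLast.map P.hd ++ u :: W2.map P.hd) := by
    intro Z hZ
    rw [List.map_append, List.map_append, hZ, ← List.cons_append, hw1]
    simp
  have hL : Wm.dropLast.map P.hd ≠ [] := by
    intro h0
    obtain ⟨e, he⟩ := PmB_one nm h0
    rw [he] at pm
    obtain ⟨e1, e2⟩ := pm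
    have e3 : P.hd e = u := e2
    have h1 : Q = [e] := htr e Q (by rw [e1, e3]; exact pq)
    refine hm e (by rw [he]; exact List.mem_singleton_self e) (hQ e ?_)
    rw [h1]
    exact List.mem_singleton_self e
  have hR : Q.dropLast.map P.hd ≠ [] := by
    intro h0
    obtain ⟨e, he⟩ := PmB_one nq h0
    have pq' := pq
    rw [he] at pq'
    obtain ⟨e1, e2⟩ := pq'
    have e3 : P.hd e = u := e2
    have h1 : Wm = [e] := htr e Wm (by rw [e1, e3]; exact pm)
    refine hm e (by rw [h1]; exact List.mem_singleton_self e) (hQ e ?_)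
    rw [he]
    exact List.mem_singleton_self e
  have hRn : (Q.dropLast.map P.hd).Nodup := by
    have h1 := (List.nodup_cons.1 (pa_nodup pq)).2
    rw [eq] at h1
    exact (List.nodup_append.1 h1).1
  have consm : ∀ x y, Cons (v :: (Wm.dropLast.map P.hd ++ [u])) x y ↔
      ∃ e ∈ Wm, P.tl e = x ∧ P.hd e = y := by
    intro x y
    rw [← em]
    exact pa_cons pm x y
  have consq : ∀ x y, Cons (v :: (Q.dropLast.map P.hd ++ [u])) x y ↔
      ∃ e ∈ Q, P.tl e = x ∧ P.hd e = y := by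
    intro x y
    rw [← eq]
    exact pa_cons pq x y
  obtain ⟨r', H'⟩ := H.face (list_eq em) hL hR hRn
    (by
      intro z hz
      obtain ⟨e, he, rfl⟩ := List.mem_map.1 hz
      rintro ⟨g, hg, h1 | h1⟩
      · exact (hnew e he g hg).2 h1
      · exact (hnew e he g hg).1 h1)
    (by
      intro x y hxy
      obtain ⟨e, -, rfl, rfl⟩ := (consm x y).1 hxy
      exact hc e)
    (by
      intro x y hxy
      obtain ⟨e, -, rfl, rfl⟩ := (consq x y).1 hxy
      exact hc e)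
  -- the end points of the face are old
  have hv : ∃ g, ¬ Rg P (W1 ++ (Wm ++ W2)) (inr g) ∧ (P.tl g = v ∨ P.hd g = v) := by
    cases Wm with
    | nil => exact absurd rfl nm
    | cons e W' => exact ⟨e, hm e List.mem_cons_self, Or.inl pm.1⟩
  have hu : ∃ g, ¬ Rg P (W1 ++ (Wm ++ W2)) (inr g) ∧ (P.tl g = u ∨ P.hd g = u) := by
    have h1 : u ∈ Wm.map P.hd := by
      rw [em]
      exact List.mem_append.2 (Or.inr (List.mem_singleton_self u))
    obtain ⟨e, he, h2⟩ := List.mem_map.1 h1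
    exact ⟨e, hm e he, Or.inr h2⟩
  have hcase : ∀ g, ¬ Rg P (W1 ++ (Q ++ W2)) (inr g) ↔
      (¬ Rg P (W1 ++ (Wm ++ W2)) (inr g) ∨ g ∈ Q) := by
    intro g
    rw [hiff]
    by_cases hg : g ∈ Q <;> simp [hg]
  have hQv : ∀ g ∈ Q, ∀ x, (P.tl g = x ∨ P.hd g = x) →
      (∃ g, ¬ Rg P (W1 ++ (Wm ++ W2)) (inr g) ∧ (P.tl g = x ∨ P.hd g = x)) ∨
        x ∈ Q.dropLast.map P.hd := by
    intro g hg x hx
    have h1 : x ∈ v :: Q.map P.hd := by
      rcases hx with rfl | rfl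
      · exact PmB_tl pq hg
      · exact List.mem_cons_of_mem _ (List.mem_map.2 ⟨g, hg, rfl⟩)
    rw [eq, List.mem_cons, List.mem_append, List.mem_singleton] at h1
    rcases h1 with rfl | h1 | rfl
    · exact Or.inl hv
    · exact Or.inr h1
    · exact Or.inl hu
  refine ⟨r', PmB_congr ?_ (list_eq eq).symm ?_ H'⟩
  · intro x
    rw [Set.mem_union]
    simp only [Set.mem_ofPred_eq, hcase]
    constructor
    · rintro (⟨g, hg, hx⟩ | hx)
      · exact ⟨g, Or.inl hg, hx⟩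
      · obtain ⟨e, he, rfl⟩ := List.mem_map.1 hx
        exact ⟨e, Or.inr (List.mem_of_mem_dropLast he), Or.inr rfl⟩
    · rintro ⟨g, hg | hg, hx⟩
      · exact Or.inl ⟨g, hg, hx⟩
      · exact hQv g hg x hx
  · intro x y
    rw [consq]
    simp only [hcase]
    constructor
    · rintro (⟨g, hg, hx⟩ | ⟨g, hg, hx⟩)
      · exact ⟨g, Or.inl hg, hx⟩
      · exact ⟨g, Or.inr hg, hx⟩
    · rintro ⟨g, hg | hg, hx⟩
      · exact Or.inl ⟨g, hg, hx⟩
      · exact Or.inr ⟨g, hg, hx⟩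

/-- The theorem for planar st-structures.

Proof. `wall_induction` with `M W := ∃ r, StB c {x | ∃ g, ¬ Rg P W (inr g) ∧ (P.tl g = x ∨ P.hd g = x)} r
(s :: W.map P.hd) (fun x y => ∃ g, ¬ Rg P W (inr g) ∧ P.tl g = x ∧ P.hd g = y)`.
Start: `stB_init` with `pa_nodup`, `pa_cons`, `not_rg_mem`. Step: `s :: W.map hd = w1 ++ v :: (L ++ u :: W2.map hd)`
with `w1 ++ [v] = s :: W1.map hd` (`pa_last`), `L = Wm.dropLast.map hd` (`pa_last'`), `R = Q.dropLast.map hd`. `L ≠ []`: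
otherwise `Wm = [e]` and `Pa (tl e) Q (hd e)`, so `Q = [e]` (`htr`), but the edges of `Q` are right of `W` and `e` is not
(`not_rg_mem`); `R ≠ []`: the same. `R.Nodup` from `pa_nodup`; alternation from `pa_cons` and `hc`. End: no edge is right of
the wall, every vertex is an end of an edge (`inn`, `out`, `s ≠ t`); `Sn.lin`, `FU`, `x1`, `x0` give the result. -/
theorem pl_main [Finite V] [Finite E] (h : StP P s t) (hst : s ≠ t) (c : V → Bool)
    (hc : ∀ e, c (P.tl e) ≠ c (P.hd e))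
    (htr : ∀ e Q, Pa P.tl P.hd (P.tl e) Q (P.hd e) → Q = [e]) :
    ∃ r : V → V → Prop, (∀ x, ¬ r x x) ∧ (∀ x y z, r x y → r y z → r x z) ∧
      (∀ x y, x ≠ y → r x y ∨ r y x) ∧ (∀ e, r (P.tl e) (P.hd e)) ∧
      ∀ e f, c (P.tl e) = c (P.tl f) →
        ¬ (r (P.tl e) (P.tl f) ∧ r (P.tl f) (P.hd e) ∧ r (P.hd e) (P.hd f)) := by
  obtain ⟨W, -, hall, r, H⟩ := wall_induction h hst (PmB_M P c s)
    (fun W hW h0 => PmB_start hW hst h0 c)
    (fun W1 Wm W2 Q v u p1 pm pq p2 nm nq hQ hnew hiff hM =>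
      PmB_step c hc htr W1 Wm W2 Q v u p1 pm pq p2 nm nq hQ hnew hiff hM)
  have hU : ∀ x, x ∈ {x | ∃ g, ¬ Rg P W (inr g) ∧ (P.tl g = x ∨ P.hd g = x)} := by
    intro x
    by_cases hx : x = s
    · obtain ⟨e, he⟩ := h.out s hst
      exact ⟨e, hall e, Or.inl (he.trans hx.symm)⟩
    · obtain ⟨e, he⟩ := h.inn x hx
      exact ⟨e, hall e, Or.inr he⟩
  have hF : ∀ e, (fun x y => ∃ g, ¬ Rg P W (inr g) ∧ P.tl g = x ∧ P.hd g = y)
      (P.tl e) (P.hd e) := fun e => ⟨e, hall e, rfl, rfl⟩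
  refine ⟨r, fun x => H.lin.irr x (hU x), fun x y z => H.lin.tr x (hU x) y (hU y) z (hU z),
    fun x y => H.lin.tot x (hU x) y (hU y), fun e => ?_, fun e f hef => ?_⟩
  · refine (H.FU (P.tl e) (P.hd e) ?_).2.2
    by_cases hce : c (P.tl e) = true
    · exact Or.inl ⟨hF e, hce⟩
    · exact Or.inr ⟨hF e, Bool.eq_false_iff.2 hce⟩
  · by_cases hce : c (P.tl e) = true
    · exact H.x1 _ _ _ _ ⟨hF e, hce⟩ ⟨hF f, hef.symm.trans hce⟩
    · have h0 : c (P.tl e) = false := Bool.eq_false_iff.2 hce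
      exact H.x0 _ _ _ _ ⟨hF e, h0⟩ ⟨hF f, hef.symm.trans h0⟩

end Pool.Agent.W_a4f561_h34
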