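import Pool.Agent.W_a4f561_h34.SnA

/-!
MP_a4f561_co (Subcubic): insertion of new vertices directly after a wall vertex.
-/

set_option autoImplicit false

namespace Pool.Agent.W_a4f561_h34

open Pool.Agent.W_a4f561_h25

variable {V : Type} {U : Set V} {r : V → V → Prop} {w : List V} {op F1 F0 : V → V → Prop}

private theorem sgA_left {l : List V} {u v : V} (a : List V) (h : Cons l u v) :
    Cons (a ++ l) u v := by
  obtain ⟨c, d, rfl⟩ := h
  exact ⟨a ++ c, d, by rw [List.append_assoc]⟩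

private theorem sgA_right {l : List V} {u v : V} (b : List V) (h : Cons l u v) :
    Cons (l ++ b) u v := by
  obtain ⟨c, d, rfl⟩ := h
  exact ⟨c, d ++ b, by simp⟩

private theorem sgA_tail {l : List V} {x u v : V} (h : Cons (x :: l) u v) (hu : u ≠ x) :
    Cons l u v := by
  cases l with
  | nil => exact absurd h (cons_one x u v)
  | cons y b =>
    rw [cons_two] at h
    rcases h with h | h
    · exact absurd h.1 hu
    · exact h

/-- `R` is inserted directly after the wall vertex `x`, where no edge of page 0 starts. Proof: as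
`Sn.insert` of SnB, with `r' = Ins r x {z | z ∈ R} q`, `q` from `exists_ord R` (`ins_lin`, `ins_oo`, `ins_on`,
`ins_no`, `ins_nn` of SwA). `opa`: an old open pair `(a, b)` with `a ≠ x` and new `z` between: `r a x`, `r x b`
contradicts `opa`; for a new pair, `cons_btw` and: old `z` with `x` before `z` is after all of `R`. `noL` for new
`z`: `a = x` contradicts `hx`, `r a x` contradicts `noL`. `noP` for a new pair `(a, b)`: `b ∈ R`, but `b ∈ U` by `FU`. -/
theorem Sn.after (H : Sn U r w op F1 F0) {w1 w2 : List V} {x : V} (hw : w = w1 ++ x :: w2)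
    (hx : ∀ b, ¬ F0 x b) {R : List V} (hR : R.Nodup) (hRU : ∀ z ∈ R, z ∉ U) :
    ∃ r', Sn (U ∪ {z | z ∈ R}) r' (w1 ++ x :: (R ++ w2))
      (fun u v => (op u v ∧ u ≠ x) ∨ Cons (x :: R) u v) F1 F0 := by
  obtain ⟨q, hq, hqR⟩ := exists_ord R hR
  have hd : ∀ z ∈ U, z ∉ {z | z ∈ R} := fun z hz hzR => hRU z hzR hz
  have hxw : x ∈ w := by rw [hw]; simp
  have hxU := H.wU x hxw
  have hlin := ins_lin H.lin hq hxU hd
  -- the new order on old and new vertices
  have hoo : ∀ a ∈ U, ∀ b ∈ U, (Ins r x {z | z ∈ R} q a b ↔ r a b) := fun a ha b hb =>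
    ins_oo (hd a ha) (hd b hb)
  have hon : ∀ a ∈ U, ∀ b ∈ R, (Ins r x {z | z ∈ R} q a b ↔ (a = x ∨ r a x)) := fun a ha b hb =>
    ins_on (N := {z | z ∈ R}) (hd a ha) hb
  have hno : ∀ a ∈ R, ∀ b ∈ U, (Ins r x {z | z ∈ R} q a b ↔ r x b) := fun a ha b hb =>
    ins_no (N := {z | z ∈ R}) ha (hd b hb)
  have hnn : ∀ a ∈ R, ∀ b ∈ R, (Ins r x {z | z ∈ R} q a b ↔ q a b) := fun a ha b hb =>
    ins_nn (N := {z | z ∈ R}) ha hb
  have hw' := H.winc
  rw [hw] at hw'
  obtain ⟨p1, p2, p3, p4⟩ := pw_le hw'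
  have p1' : ∀ z ∈ w1, z ∈ U := fun z hz => H.wU z (by rw [hw]; simp [hz])
  have p2' : ∀ z ∈ w2, z ∈ U := fun z hz => H.wU z (by rw [hw]; simp [hz])
  rw [List.pairwise_cons] at p4
  obtain ⟨p5, p6⟩ := p4
  rw [List.pairwise_append] at hw'
  obtain ⟨p8, -, p9⟩ := hw'
  -- the wall is sorted
  have hnew : (w1 ++ x :: (R ++ w2)).Pairwise (Ins r x {z | z ∈ R} q) := by
    rw [List.pairwise_append, List.pairwise_cons, List.pairwise_append]
    refine ⟨p8.imp_of_mem fun {a b} ha hb h => (hoo a (p1' a ha) b (p1' b hb)).2 h,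
      ⟨fun z hz => ?_, hqR.imp_of_mem fun {a b} ha hb h => (hnn a ha b hb).2 h,
        p6.imp_of_mem fun {a b} ha hb h => (hoo a (p2' a ha) b (p2' b hb)).2 h,
      fun z hz z' hz' => ?_⟩, fun z hz z' hz' => ?_⟩
    · rcases List.mem_append.1 hz with h1 | h1
      · exact (hon x hxU z h1).2 (Or.inl rfl)
      · exact (hoo x hxU z (p2' z h1)).2 (p5 z h1)
    · exact (hno z hz z' (p2' z' hz')).2 (p5 z' hz')
    · rcases List.mem_cons.1 hz' with rfl | h1
      · exact (hoo z (p1' z hz) z' hxU).2 (p1 z hz)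
      · rcases List.mem_append.1 h1 with h2 | h2
        · exact (hon z (p1' z hz) z' h2).2 (Or.inr (p1 z hz))
        · exact (hoo z (p1' z hz) z' (p2' z' h2)).2 (p9 z hz z' (List.mem_cons_of_mem _ h2))
  -- the list of the new pairs is sorted
  have hmid : (x :: R).Pairwise (Ins r x {z | z ∈ R} q) := by
    refine hnew.sublist ?_
    refine List.Sublist.trans ?_ (List.sublist_append_right w1 _)
    exact List.Sublist.cons_cons x (List.sublist_append_left R w2)
  have hmidU : ∀ z ∈ x :: R, z ∈ U ∪ {z | z ∈ R} := by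
    intro z hz
    rcases List.mem_cons.1 hz with rfl | h1
    · exact Or.inl hxU
    · exact Or.inr h1
  have hwU' : ∀ v ∈ w1 ++ x :: (R ++ w2), v ∈ w ∨ v ∈ R := by
    intro v hv
    rw [hw]
    simp only [List.mem_append, List.mem_cons] at hv ⊢
    tauto
  have hopU : ∀ u v, op u v → u ∈ U ∧ v ∈ U := fun u v huv =>
    ⟨H.wU u (cons_mem (H.opw u v huv)).1, H.wU v (cons_mem (H.opw u v huv)).2⟩
  refine ⟨Ins r x {z | z ∈ R} q, hlin, fun v hv => ?_, hnew, fun u v huv => ?_, fun u v huv z hz => ?_,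
    fun a b hab => ?_, fun a b hab z hz => ?_, fun a b hab huv => ?_, fun a b a' b' h1 h2 => ?_,
    fun a b a' b' h1 h2 => ?_⟩
  · rcases hwU' v hv with h | h
    · exact Or.inl (H.wU v h)
    · exact Or.inr h
  · rcases huv with ⟨h1, h2⟩ | h1
    · have h3 := H.opw u v h1
      rw [hw, cons_app] at h3
      rcases h3 with h3 | h3
      · rw [cons_app]
        exact Or.inl h3
      · have h4 := sgA_tail h3 h2
        have h5 := sgA_left (w1 ++ x :: R) h4
        rw [List.append_assoc] at h5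
        exact h5
    · exact sgA_left w1 (sgA_right w2 h1)
  · rintro ⟨h1, h2⟩
    rcases huv with ⟨h3, h4⟩ | h3
    · obtain ⟨huU, hvU⟩ := hopU u v h3
      rcases hz with hz | hz
      · exact H.opa u v h3 z hz ⟨(hoo u huU z hz).1 h1, (hoo z hz v hvU).1 h2⟩
      · rw [hon u huU z hz] at h1
        rw [hno z hz v hvU] at h2
        rcases h1 with h1 | h1
        · exact h4 h1
        · exact H.opa u v h3 x hxU ⟨h1, h2⟩
    · obtain ⟨hu, hv⟩ := cons_mem h3
      by_cases hzl : z ∈ x :: R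
      · exact cons_btw hlin hmidU hmid h3 hzl ⟨h1, h2⟩
      · have hzU : z ∈ U := by
          rcases hz with hz | hz
          · exact hz
          · exact absurd (List.mem_cons_of_mem _ hz) hzl
        have hzx : z ≠ x := fun h => hzl (by rw [h]; exact List.mem_cons_self)
        -- `x` before `z`
        have e1 : r x z := by
          rcases List.mem_cons.1 hu with h5 | h5
          · rw [h5] at h1
            exact (hoo x hxU z hzU).1 h1
          · exact (hno u h5 z hzU).1 h1
        have e2 : r z x := by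
          rcases List.mem_cons.1 hv with h5 | h5
          · rw [h5] at h2
            exact (hoo z hzU x hxU).1 h2
          · rcases (hon z hzU v h5).1 h2 with h6 | h6
            · exact absurd h6 hzx
            · exact h6
        exact H.lin.as hxU hzU e1 e2
  · obtain ⟨h1, h2, h3⟩ := H.FU a b hab
    exact ⟨Or.inl h1, Or.inl h2, (hoo a h1 b h2).2 h3⟩
  · rintro ⟨h1, h2⟩
    obtain ⟨haU, hbU, hrab⟩ := H.FU a b (Or.inr hab)
    rcases hwU' z hz with h3 | h3
    · exact H.noL a b hab z h3 ⟨(hoo a haU z (H.wU z h3)).1 h1, (hoo z (H.wU z h3) b hbU).1 h2⟩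
    · rw [hon a haU z h3] at h1
      rw [hno z h3 b hbU] at h2
      rcases h1 with h1 | h1
      · rw [h1] at hab
        exact hx b hab
      · exact H.noL a b hab x hxw ⟨h1, h2⟩
  · obtain ⟨haU, hbU, hrab⟩ := H.FU a b (Or.inr hab)
    rcases huv with ⟨h3, -⟩ | h3
    · exact H.noP a b hab h3
    · obtain ⟨hu, hv⟩ := cons_mem h3
      have e1 : ∀ z ∈ x :: R, z ∈ U → z = x := by
        intro z hz hzU
        rcases List.mem_cons.1 hz with h5 | h5
        · exact h5
        · exact absurd h5 (hd z hzU)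
      rw [e1 a hu haU, e1 b hv hbU] at hrab
      exact H.lin.irr x hxU hrab
  · obtain ⟨haU, hbU, -⟩ := H.FU a b (Or.inl h1)
    obtain ⟨haU', hbU', -⟩ := H.FU a' b' (Or.inl h2)
    rw [hoo a haU a' haU', hoo a' haU' b hbU, hoo b hbU b' hbU']
    exact H.x1 a b a' b' h1 h2
  · obtain ⟨haU, hbU, -⟩ := H.FU a b (Or.inr h1)
    obtain ⟨haU', hbU', -⟩ := H.FU a' b' (Or.inr h2)
    rw [hoo a haU a' haU', hoo a' haU' b hbU, hoo b hbU b' hbU']
    exact H.x0 a b a' b' h1 h2

end Pool.Agent.W_a4f561_h34
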