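import Pool.Agent.W_a4f561_h34.SgA

/-!
MP_a4f561_co (Subcubic): the reversed state, insertion directly before a wall vertex.
-/

set_option autoImplicit false

namespace Pool.Agent.W_a4f561_h34

open Pool.Agent.W_a4f561_h25

variable {V : Type} {U : Set V} {r : V → V → Prop} {w : List V} {op F1 F0 : V → V → Prop}

theorem cons_rev {l : List V} {u v : V} : Cons l.reverse u v ↔ Cons l v u := by
  have key : ∀ (l : List V) (u v : V), Cons l v u → Cons l.reverse u v := by
    rintro l u v ⟨a, b, rfl⟩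
    exact ⟨b.reverse, a.reverse, by simp⟩
  constructor
  · intro h
    have h1 := key l.reverse v u h
    rwa [List.reverse_reverse] at h1
  · exact key l u v

/-- The reversed state. Proof: all fields are self-dual (`cons_rev`, `List.pairwise_reverse`). -/
theorem Sn.rev (H : Sn U r w op F1 F0) :
    Sn U (fun x y => r y x) w.reverse (fun x y => op y x) (fun x y => F1 y x)
      (fun x y => F0 y x) := by
  refine ⟨H.lin.flip, fun v hv => H.wU v (List.mem_reverse.1 hv), List.pairwise_reverse.2 H.winc,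
    fun x y h => cons_rev.2 (H.opw y x h), fun x y h z hz h1 => H.opa y x h z hz ⟨h1.2, h1.1⟩,
    fun x y h => ?_, fun x y h z hz h1 => H.noL y x h z (List.mem_reverse.1 hz) ⟨h1.2, h1.1⟩,
    fun x y h h1 => H.noP y x h h1, ?_, ?_⟩
  · obtain ⟨h1, h2, h3⟩ := H.FU y x h
    exact ⟨h2, h1, h3⟩
  · rintro a b a' b' h1 h2 ⟨h3, h4, h5⟩
    exact H.x1 b' a' b a h2 h1 ⟨h5, h4, h3⟩
  · rintro a b a' b' h1 h2 ⟨h3, h4, h5⟩
    exact H.x0 b' a' b a h2 h1 ⟨h5, h4, h3⟩

/-- `R` is inserted directly before the wall vertex `y`, where no edge of page 0 ends. Proof: `Sn.rev`, `Sn.after` for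
`R.reverse`, `Sn.rev`; `cons_rev`. -/
theorem Sn.before (H : Sn U r w op F1 F0) {w1 w2 : List V} {y : V} (hw : w = w1 ++ y :: w2)
    (hy : ∀ a, ¬ F0 a y) {R : List V} (hR : R.Nodup) (hRU : ∀ z ∈ R, z ∉ U) :
    ∃ r', Sn (U ∪ {z | z ∈ R}) r' (w1 ++ (R ++ y :: w2))
      (fun u v => (op u v ∧ v ≠ y) ∨ Cons (R ++ [y]) u v) F1 F0 := by
  have hw' : w.reverse = w2.reverse ++ y :: w1.reverse := by
    rw [hw]
    simp
  have hR' : R.reverse.Nodup := List.nodup_reverse.2 hR
  obtain ⟨r', H'⟩ := H.rev.after hw' (fun b => hy b) hR'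
    (fun z hz => hRU z (List.mem_reverse.1 hz))
  refine ⟨fun x y => r' y x, ?_⟩
  have h1 := H'.rev
  have e1 : (w2.reverse ++ y :: (R.reverse ++ w1.reverse)).reverse = w1 ++ (R ++ y :: w2) := by
    simp
  have e2 : {z | z ∈ R.reverse} = {z | z ∈ R} := by
    ext z
    simp
  have e3 : (fun u v => (op u v ∧ v ≠ y) ∨ Cons (y :: R.reverse) v u) =
      fun u v => (op u v ∧ v ≠ y) ∨ Cons (R ++ [y]) u v := by
    funext u v
    apply propext
    have h2 : y :: R.reverse = (R ++ [y]).reverse := by simp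
    rw [h2, cons_rev]
  rw [e1, e2] at h1
  rw [← e3]
  exact h1

/-- No edge of page 0 starts at the lower vertex of an open pair. Proof: `F0 x b` with `b ≠ y`: `r b y` contradicts `opa`,
`r y b` contradicts `noL` (`y` is on the wall), `b = y` contradicts `noP`. -/
theorem Sn.free_op (H : Sn U r w op F1 F0) {x y : V} (hxy : op x y) (b : V) : ¬ F0 x b := by
  intro h
  have hc := H.opw x y hxy
  have hy := cons_mem hc
  have hr : r x y := cons_rel H.winc hc
  obtain ⟨hx, hb, h1⟩ := H.FU x b (Or.inr h)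
  by_cases hby : b = y
  · rw [hby] at h
    exact H.noP x y h hxy
  · rcases H.lin.tot b hb y (H.wU y hy.2) hby with h2 | h2
    · exact H.opa x y hxy b hb ⟨h1, h2⟩
    · exact H.noL x b h y hy.2 ⟨hr, h2⟩

end Pool.Agent.W_a4f561_h34
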