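import Pool.Agent.W_a4f561_h34.SgB

/-!
MP_a4f561_co (Subcubic): the end of the step for one face.
-/

set_option autoImplicit false

namespace Pool.Agent.W_a4f561_h34

open Pool.Agent.W_a4f561_h25

variable {V : Type} {U : Set V} {r : V → V → Prop} {w : List V} {op F1 F0 : V → V → Prop}

private theorem SgC_cons {w1 R w2 : List V} {l0 lp u v : V} :
    Cons (w1 ++ l0 :: (R ++ lp :: w2)) u v ↔
      Cons (w1 ++ [l0]) u v ∨ Cons (l0 :: (R ++ [lp])) u v ∨ Cons (lp :: w2) u v := by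
  rw [cons_app w1 l0, show l0 :: (R ++ lp :: w2) = (l0 :: R) ++ lp :: w2 from rfl,
    cons_app (l0 :: R) lp]
  exact Iff.rfl

private theorem SgC_snd {m : List V} {x u v : V} (h : Cons (x :: m) u v) : v ∈ m := by
  obtain ⟨a, b, h⟩ := h
  cases a with
  | nil =>
    have h1 := (List.cons.inj h).2
    rw [h1]
    exact List.mem_cons_self
  | cons z a =>
    have h1 := (List.cons.inj h).2
    rw [h1]
    simp

private theorem SgC_fst {m : List V} {y u v : V} (h : Cons (m ++ [y]) u v) : u ∈ m := by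
  obtain ⟨a, b, h⟩ := h
  rcases List.eq_nil_or_concat b with rfl | ⟨b', z, rfl⟩
  · have h1 : m ++ [y] = (a ++ [u]) ++ [v] := by simpa using h
    rw [(List.append_inj' h1 rfl).1]
    simp
  · have h1 : m ++ [y] = (a ++ u :: v :: b') ++ [z] := by simpa using h
    rw [(List.append_inj' h1 rfl).1]
    simp

/-- The end of the step, after the insertions: `wI` is the wall with the new vertices inserted, `opI` its open
pairs. Proof: `Sn.regroup`. `h3`: by `cons_app` as `SnD_cons` in SnD. `h4`: `op x y` and `Cons (w1 ++ [v]) x y`: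
`y ∈ w1 ++ [v]`, but `N0 x y` gives `y ∈ R ++ [u]`; the same for `Cons (u :: w2) x y`, with `x`; `hnd`. -/
theorem Sn.fin {U' : Set V} {r' : V → V → Prop} {wI : List V} {opI : V → V → Prop}
    (H : Sn U' r' wI opI F1 F0) {w1 R w2 : List V} {v u : V}
    (hsub : (w1 ++ v :: (R ++ u :: w2)).Sublist wI)
    {op N1 N0 op' : V → V → Prop}
    (hi : ∀ x y, op x y → (Cons (w1 ++ [v]) x y ∨ Cons (u :: w2) x y) → opI x y)
    (hn : ∀ x y, N1 x y → opI x y)
    (n1 : ∀ x y, N1 x y → Cons (v :: (R ++ [u])) x y)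
    (n0 : ∀ x y, N0 x y → Cons (v :: (R ++ [u])) x y)
    (n10 : ∀ x y, N1 x y → ¬ N0 x y)
    (hop : ∀ x y, op' x y → (op x y ∧ (Cons (w1 ++ [v]) x y ∨ Cons (u :: w2) x y)) ∨ N1 x y) :
    Sn U' r' (w1 ++ v :: (R ++ u :: w2)) op' (fun x y => F1 x y ∨ N1 x y)
      (fun x y => F0 x y ∨ N0 x y) := by
  have hnd : (w1 ++ v :: (R ++ u :: w2)).Nodup := by
    refine (H.winc.sublist hsub).imp_of_mem fun {a b} ha _ hab hne => ?_
    rw [← hne] at hab
    exact H.lin.irr a (H.wU a (hsub.subset ha)) hab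
  have hA : ∀ a ∈ w1 ++ [v], ∀ b ∈ R ++ [u], a ≠ b := by
    have h1 : w1 ++ v :: (R ++ u :: w2) = (w1 ++ [v]) ++ ((R ++ [u]) ++ w2) := by simp
    rw [h1] at hnd
    intro a ha b hb
    exact (List.nodup_append.1 hnd).2.2 a ha b (List.mem_append_left _ hb)
  have hB : ∀ a ∈ v :: R, ∀ b ∈ u :: w2, a ≠ b := by
    have h1 : w1 ++ v :: (R ++ u :: w2) = (w1 ++ v :: R) ++ u :: w2 := by simp
    rw [h1] at hnd
    intro a ha b hb
    exact (List.nodup_append.1 hnd).2.2 a (List.mem_append_right _ ha) b hb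
  have hN : ∀ x y, N0 x y → x ∈ v :: R ∧ y ∈ R ++ [u] := fun x y h =>
    ⟨SgC_fst (m := v :: R) (n0 x y h), SgC_snd (n0 x y h)⟩
  refine H.regroup hsub ?_ hn (fun x y h => SgC_cons.2 (Or.inr (Or.inl (n0 x y h)))) ?_
  · intro x y h
    rcases hop x y h with ⟨h1, h2⟩ | h1
    · have h3 : Cons (w1 ++ v :: (R ++ u :: w2)) x y := by
        rcases h2 with h2 | h2
        · exact SgC_cons.2 (Or.inl h2)
        · exact SgC_cons.2 (Or.inr (Or.inr h2))
      exact ⟨hi x y h1 h2, (cons_mem h3).1, (cons_mem h3).2⟩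
    · have h3 : Cons (w1 ++ v :: (R ++ u :: w2)) x y := SgC_cons.2 (Or.inr (Or.inl (n1 x y h1)))
      exact ⟨hn x y h1, (cons_mem h3).1, (cons_mem h3).2⟩
  · intro x y h h0
    rcases hop x y h with ⟨-, h2⟩ | h1
    · rcases h2 with h2 | h2
      · exact hA y (cons_mem h2).2 y (hN x y h0).2 rfl
      · exact hB x (hN x y h0).1 x (cons_mem h2).1 rfl
    · exact n10 x y h1 h0

end Pool.Agent.W_a4f561_h34
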