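import Pool.Agent.W_a4f561_h34.SgC

/-!
MP_a4f561_co (Subcubic): the step for one face, all new vertices after one vertex.
-/

set_option autoImplicit false

namespace Pool.Agent.W_a4f561_h34

open Pool.Agent.W_a4f561_h25

variable {V : Type} {U : Set V} {r : V → V → Prop} {w : List V} {op F1 F0 : V → V → Prop}

private theorem SgE_last {l : List V} {u a b : V} (h : Cons (l ++ [u]) a b) (hb : b ≠ u) :
    Cons l a b := by
  obtain ⟨c, d, h⟩ := h
  rcases List.eq_nil_or_concat d with rfl | ⟨d', e, rfl⟩
  · exfalso
    have h1 : l ++ [u] = (c ++ [a]) ++ [b] := by rw [h]; simp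
    have h2 := (List.append_inj' h1 rfl).2
    injection h2 with h3 h4
    exact hb h3.symm
  · have h1 : l ++ [u] = (c ++ a :: b :: d') ++ [e] := by rw [h]; simp
    exact ⟨c, d', (List.append_inj' h1 rfl).1⟩

private theorem SgE_tail {l : List V} {v a b : V} (h : Cons (v :: l) a b) (ha : a ≠ v) :
    Cons l a b := by
  obtain ⟨c, d, h⟩ := h
  cases c with
  | nil =>
    rw [List.nil_append] at h
    injection h with h1 h2
    exact absurd h1.symm ha
  | cons c0 c' =>
    rw [List.cons_append] at h
    injection h with h1 h2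
    exact ⟨c', d, h2⟩

private theorem SgE_cons {l : List V} {x a b : V} (h : Cons l a b) : Cons (x :: l) a b := by
  obtain ⟨c, d, h⟩ := h
  exact ⟨x :: c, d, by rw [h, List.cons_append]⟩

/-- All new vertices are inserted after a vertex `x` of the left side (below `u`). Here `x = v` if the first edge of
the right side is in `N1`, and the last one is not. Proof: `H.after`, then `Sn.fin` with
`v :: L = La ++ x :: Lb`. `hn`: `Cons (v :: (R ++ [u])) a b`, `b ≠ u` (as `N1 a u` is excluded), so `Cons (v :: R) a b`;
if `a = v` then `x = v`, otherwise `Cons R a b`. -/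
theorem Sn.step_after (H : Sn U r w op F1 F0) {w1 L R w2 : List V} {v u : V}
    (hw : w = w1 ++ v :: (L ++ u :: w2)) (hR : R.Nodup) (hRU : ∀ z ∈ R, z ∉ U)
    {N1 N0 op' : V → V → Prop}
    (n1 : ∀ x y, N1 x y → Cons (v :: (R ++ [u])) x y)
    (n0 : ∀ x y, N0 x y → Cons (v :: (R ++ [u])) x y)
    (n10 : ∀ x y, N1 x y → ¬ N0 x y)
    (hop : ∀ x y, op' x y → (op x y ∧ (Cons (w1 ++ [v]) x y ∨ Cons (u :: w2) x y)) ∨ N1 x y)
    {x : V} (hx : x ∈ v :: L) (hf : ∀ b, ¬ F0 x b) (hv : (∃ y, N1 v y) → x = v)
    (hu : ∀ y, ¬ N1 y u) :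
    ∃ r', Sn (U ∪ {z | z ∈ R}) r' (w1 ++ v :: (R ++ u :: w2)) op'
      (fun x y => F1 x y ∨ N1 x y) (fun x y => F0 x y ∨ N0 x y) := by
  obtain ⟨La, Lb, hL⟩ := List.append_of_mem hx
  have hw' : w = (w1 ++ La) ++ x :: (Lb ++ u :: w2) := by
    have e1 : w1 ++ v :: (L ++ u :: w2) = w1 ++ (v :: L) ++ u :: w2 := by simp
    rw [hw, e1, hL]
    simp
  obtain ⟨r', H'⟩ := H.after hw' hf hR hRU
  refine ⟨r', H'.fin ?_ (op := op) ?_ ?_ n1 n0 n10 hop⟩
  · -- sublist
    cases La with
    | nil =>
      rw [List.nil_append] at hL
      injection hL with h1 h2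
      subst h1
      rw [List.append_nil]
      refine List.Sublist.append_left ?_ w1
      refine List.Sublist.cons_cons v ?_
      refine List.Sublist.append_left ?_ R
      exact List.sublist_append_right Lb (u :: w2)
    | cons c La' =>
      rw [List.cons_append] at hL
      injection hL with h1 h2
      subst h1
      rw [List.append_assoc, List.cons_append]
      refine List.Sublist.append_left ?_ w1
      refine List.Sublist.cons_cons v ?_
      have h3 : (R ++ u :: w2).Sublist (x :: (R ++ (Lb ++ u :: w2))) := by
        refine List.Sublist.cons x ?_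
        refine List.Sublist.append_left ?_ R
        exact List.sublist_append_right Lb (u :: w2)
      exact h3.trans (List.sublist_append_right La' _)
  · intro a b hab hc
    left
    refine ⟨hab, ?_⟩
    rintro rfl
    have hinc := H.winc
    have hxU : a ∈ U := H.wU a (by rw [hw']; simp)
    rcases hc with hc | hc
    · have hr : r a b := by
        have h1 := hinc
        rw [hw] at h1
        exact cons_rel (pw_le h1).2.2.1 hc
      have hbm : b ∈ w1 ++ [v] := (cons_mem hc).2
      rw [List.mem_append, List.mem_singleton] at hbm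
      have h1 := hinc
      rw [hw] at h1
      have hvU : v ∈ U := H.wU v (by rw [hw]; simp)
      have hva : v = a ∨ r v a := by
        rcases List.mem_cons.1 hx with h2 | h2
        · exact Or.inl h2.symm
        · exact Or.inr ((pw_le h1).2.1 a (List.mem_append_left _ h2))
      rcases hbm with hb | hb
      · have hbU : b ∈ U := H.wU b (by rw [hw]; exact List.mem_append_left _ hb)
        have hbv : r b v := (pw_le h1).1 b hb
        have hba : r b a := by
          rcases hva with h2 | h2
          · rw [← h2]; exact hbv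
          · exact H.lin.tr b hbU v hvU a hxU hbv h2
        exact H.lin.as hxU hbU hr hba
      · subst hb
        rcases hva with h2 | h2
        · rw [h2] at hr
          exact H.lin.irr _ hxU hr
        · exact H.lin.as hxU hvU hr h2
    · have ham : a ∈ u :: w2 := (cons_mem hc).1
      have h1 := hinc
      rw [hw'] at h1
      exact H.lin.irr _ hxU ((pw_le h1).2.1 a (List.mem_append_right _ ham))
  · intro a b hab
    right
    have h1 := n1 a b hab
    have hb : b ≠ u := fun h2 => hu a (h2 ▸ hab)
    rw [← List.cons_append] at h1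
    have h2 := SgE_last h1 hb
    by_cases ha : a = v
    · have h3 : x = v := hv ⟨b, ha ▸ hab⟩
      rw [h3]
      exact h2
    · exact SgE_cons (SgE_tail h2 ha)

end Pool.Agent.W_a4f561_h34
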