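import Pool.Agent.W_a4f561_h34.Lst

/-!
MP_a4f561_co (BipLattice): the state of the sweep from left to right: `U` is the set of placed
vertices, `r` their linear order, `w` the wall (list of vertices from bottom to top), `op` the open
pairs (consecutive on the wall and adjacent in `r`: new vertices may be inserted there), `F1`, `F0`
the edges of the two pages.
-/

set_option autoImplicit false

namespace Pool.Agent.W_a4f561_h34

open Pool.Agent.W_a4f561_h25

structure Sn {V : Type} (U : Set V) (r : V → V → Prop) (w : List V) (op F1 F0 : V → V → Prop) :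
    Prop where
  lin : LinOn U r
  wU : ∀ v ∈ w, v ∈ U
  winc : w.Pairwise r
  opw : ∀ x y, op x y → Cons w x y
  opa : ∀ x y, op x y → ∀ z ∈ U, ¬ (r x z ∧ r z y)
  FU : ∀ x y, F1 x y ∨ F0 x y → x ∈ U ∧ y ∈ U ∧ r x y
  noL : ∀ x y, F0 x y → ∀ z ∈ w, ¬ (r x z ∧ r z y)
  noP : ∀ x y, F0 x y → ¬ op x y
  x1 : ∀ a b a' b', F1 a b → F1 a' b' → ¬ (r a a' ∧ r a' b ∧ r b b')
  x0 : ∀ a b a' b', F0 a b → F0 a' b' → ¬ (r a a' ∧ r a' b ∧ r b b')

variable {V : Type} {U : Set V} {r : V → V → Prop} {w : List V} {op F1 F0 : V → V → Prop}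

/-- The wall is shortened to `w'`; new edges: open pairs go to page 1, consecutive pairs of the new
wall (which are no longer open) go to page 0.

Proof. `x1`: an open pair is adjacent (`opa`), so it crosses nothing. `x0`: `N0 a b` consecutive on the
sorted wall `w'`; crossing with an old `F0` edge puts `a` or `b` strictly inside it (`noL`), crossing of
two `N0` pairs puts a wall vertex strictly between consecutive ones (`cons_btw`). `opw`: `cons_of` with
`opa`. -/
theorem Sn.regroup (H : Sn U r w op F1 F0) {w' : List V} (hw : w'.Sublist w)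
    {op' N1 N0 : V → V → Prop} (h1 : ∀ x y, op' x y → op x y ∧ x ∈ w' ∧ y ∈ w')
    (h2 : ∀ x y, N1 x y → op x y) (h3 : ∀ x y, N0 x y → Cons w' x y)
    (h4 : ∀ x y, op' x y → ¬ N0 x y) :
    Sn U r w' op' (fun x y => F1 x y ∨ N1 x y) (fun x y => F0 x y ∨ N0 x y) := by
  have hU : ∀ v ∈ w', v ∈ U := fun v hv => H.wU v (hw.subset hv)
  have hi : w'.Pairwise r := H.winc.sublist hw
  have hop : ∀ x y, op x y → x ∈ U ∧ y ∈ U ∧ r x y := fun x y h =>
    ⟨H.wU x (cons_mem (H.opw x y h)).1, H.wU y (cons_mem (H.opw x y h)).2,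
      cons_rel H.winc (H.opw x y h)⟩
  refine ⟨H.lin, hU, hi, ?_, fun x y h => H.opa x y (h1 x y h).1, ?_, ?_, ?_, ?_, ?_⟩
  · intro x y h
    obtain ⟨h5, hx, hy⟩ := h1 x y h
    exact cons_of H.lin hU hi hx hy (hop x y h5).2.2 fun z hz => H.opa x y h5 z (hU z hz)
  · rintro x y ((h | h) | (h | h))
    · exact H.FU x y (Or.inl h)
    · exact hop x y (h2 x y h)
    · exact H.FU x y (Or.inr h)
    · exact ⟨hU x (cons_mem (h3 x y h)).1, hU y (cons_mem (h3 x y h)).2, cons_rel hi (h3 x y h)⟩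
  · rintro x y (h | h) z hz
    · exact H.noL x y h z (hw.subset hz)
    · exact cons_btw H.lin hU hi (h3 x y h) hz
  · rintro x y (h | h) h5
    · exact H.noP x y h (h1 x y h5).1
    · exact h4 x y h5 h
  · rintro a b a' b' (h | h) (h' | h') ⟨ha, hb, hc⟩
    · exact H.x1 a b a' b' h h' ⟨ha, hb, hc⟩
    · exact H.opa a' b' (h2 a' b' h') b (H.FU a b (Or.inl h)).2.1 ⟨hb, hc⟩
    · exact H.opa a b (h2 a b h) a' (H.FU a' b' (Or.inl h')).1 ⟨ha, hb⟩
    · exact H.opa a b (h2 a b h) a' (hop a' b' (h2 a' b' h')).1 ⟨ha, hb⟩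
  · rintro a b a' b' (h | h) (h' | h') ⟨ha, hb, hc⟩
    · exact H.x0 a b a' b' h h' ⟨ha, hb, hc⟩
    · exact H.noL a b h a' (hw.subset (cons_mem (h3 a' b' h')).1) ⟨ha, hb⟩
    · exact H.noL a' b' h' b (hw.subset (cons_mem (h3 a b h)).2) ⟨hb, hc⟩
    · exact cons_btw H.lin hU hi (h3 a b h) (cons_mem (h3 a' b' h')).1 ⟨ha, hb⟩

end Pool.Agent.W_a4f561_h34
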