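import Pool.Agent.W_a4f561_h34.SnA

/-!
MP_a4f561_co (BipLattice): insertion of new vertices `R` between `x` and `y`, an open pair.
-/

set_option autoImplicit false

namespace Pool.Agent.W_a4f561_h34

open Pool.Agent.W_a4f561_h25

variable {V : Type} {U : Set V} {r : V → V → Prop} {w : List V} {op F1 F0 : V → V → Prop}

/-- Proof. `r' = Ins r x {z | z ∈ R} q`, `q` from `exists_ord R`; `ins_lin`, `ins_oo`, ... of SwA.
Old edges `(a, b)` of `F0` and new `z ∈ R`: `a = x` or `r a x`, and `r x b`; `r a x` contradicts `noL`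
(`x` is on the wall); `a = x`: compare `y` and `b`: `r b y` contradicts `opa`, `r y b` contradicts `noL`,
`b = y` contradicts `noP`. Old open pairs `(u, v) ≠ (x, y)`: adjacent pairs with the same first element are
equal, and `r u x`, `r x v` contradicts `opa`. -/
theorem Sn.insert (H : Sn U r w op F1 F0) {w1 w2 : List V} {x y : V}
    (hw : w = w1 ++ x :: y :: w2) (hxy : op x y) {R : List V} (hR : R.Nodup)
    (hRU : ∀ z ∈ R, z ∉ U) :
    ∃ r', Sn (U ∪ {z | z ∈ R}) r' (w1 ++ x :: (R ++ y :: w2))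
      (fun u v => (op u v ∧ ¬ (u = x ∧ v = y)) ∨ Cons (x :: (R ++ [y])) u v) F1 F0 := by
  obtain ⟨q, hq, hqR⟩ := exists_ord R hR
  have hd : ∀ z ∈ U, z ∉ {z | z ∈ R} := fun z hz hzR => hRU z hzR hz
  have hxw : x ∈ w := by rw [hw]; simp
  have hyw : y ∈ w := by rw [hw]; simp
  have hxU := H.wU x hxw
  have hyU := H.wU y hyw
  have hrxy : r x y := cons_rel H.winc (H.opw x y hxy)
  have hlin := ins_lin H.lin hq hxU hd
  -- the new order on old vertices
  have hoo : ∀ a ∈ U, ∀ b ∈ U, (Ins r x {z | z ∈ R} q a b ↔ r a b) := fun a ha b hb =>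
    ins_oo (hd a ha) (hd b hb)
  have hon : ∀ a ∈ U, ∀ b ∈ R, (Ins r x {z | z ∈ R} q a b ↔ (a = x ∨ r a x)) := fun a ha b hb =>
    ins_on (N := {z | z ∈ R}) (hd a ha) hb
  have hno : ∀ a ∈ R, ∀ b ∈ U, (Ins r x {z | z ∈ R} q a b ↔ r x b) := fun a ha b hb =>
    ins_no (N := {z | z ∈ R}) ha (hd b hb)
  have hnn : ∀ a ∈ R, ∀ b ∈ R, (Ins r x {z | z ∈ R} q a b ↔ q a b) := fun a ha b hb =>
    ins_nn (N := {z | z ∈ R}) ha hb
  have hw' := H.winc
  rw [hw] at hw'
  obtain ⟨p1, p2, p3, p4⟩ := pw_le hw'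
  have p1' : ∀ z ∈ w1, z ∈ U := fun z hz => H.wU z (by rw [hw]; simp [hz])
  have p2' : ∀ z ∈ w2, z ∈ U := fun z hz => H.wU z (by rw [hw]; simp [hz])
  rw [List.pairwise_cons] at p4
  rw [List.pairwise_cons] at p4
  obtain ⟨p5, p6, p7⟩ := p4
  rw [List.pairwise_append] at hw'
  obtain ⟨p8, -, p9⟩ := hw'
  -- the wall is sorted
  have hnew : (w1 ++ x :: (R ++ y :: w2)).Pairwise (Ins r x {z | z ∈ R} q) := by
    rw [List.pairwise_append, List.pairwise_cons, List.pairwise_append, List.pairwise_cons]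
    refine ⟨p8.imp_of_mem fun {a b} ha hb h => (hoo a (p1' a ha) b (p1' b hb)).2 h,
      ⟨fun z hz => ?_, hqR.imp_of_mem fun {a b} ha hb h => (hnn a ha b hb).2 h,
      ⟨fun z hz => (hoo y hyU z (p2' z hz)).2 (p6 z hz),
        p7.imp_of_mem fun {a b} ha hb h => (hoo a (p2' a ha) b (p2' b hb)).2 h⟩,
      fun z hz z' hz' => ?_⟩, fun z hz z' hz' => ?_⟩
    · rcases List.mem_append.1 hz with h1 | h1
      · exact (hon x hxU z h1).2 (Or.inl rfl)
      · have hzU : z ∈ U := by
          rcases List.mem_cons.1 h1 with rfl | h2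
          · exact hyU
          · exact p2' z h2
        exact (hoo x hxU z hzU).2 (p5 z h1)
    · have hzU : z' ∈ U := by
        rcases List.mem_cons.1 hz' with rfl | h2
        · exact hyU
        · exact p2' z' h2
      exact (hno z hz z' hzU).2 (p5 z' hz')
    · rcases List.mem_cons.1 hz' with rfl | h1
      · exact (hoo z (p1' z hz) z' hxU).2 (p1 z hz)
      · rcases List.mem_append.1 h1 with h2 | h2
        · exact (hon z (p1' z hz) z' h2).2 (Or.inr (p1 z hz))
        · have hzU : z' ∈ U := by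
            rcases List.mem_cons.1 h2 with rfl | h3
            · exact hyU
            · exact p2' z' h3
          exact (hoo z (p1' z hz) z' hzU).2 (p9 z hz z' (List.mem_cons_of_mem _ h2))
  -- the list of the new pairs is sorted
  have hmid : (x :: (R ++ [y])).Pairwise (Ins r x {z | z ∈ R} q) := by
    refine hnew.sublist ?_
    refine List.Sublist.trans ?_ (List.sublist_append_right w1 _)
    refine List.Sublist.cons_cons x (List.Sublist.append (List.Sublist.refl R) ?_)
    exact List.Sublist.cons_cons y (List.nil_sublist w2)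
  have hmidU : ∀ z ∈ x :: (R ++ [y]), z ∈ U ∪ {z | z ∈ R} := by
    intro z hz
    rcases List.mem_cons.1 hz with rfl | h1
    · exact Or.inl hxU
    · rcases List.mem_append.1 h1 with h2 | h2
      · exact Or.inr h2
      · rw [List.mem_singleton] at h2
        rw [h2]
        exact Or.inl hyU
  have hwU' : ∀ v ∈ w1 ++ x :: (R ++ y :: w2), v ∈ w ∨ v ∈ R := by
    intro v hv
    rw [hw]
    simp only [List.mem_append, List.mem_cons] at hv ⊢
    tauto
  have hopU : ∀ u v, op u v → u ∈ U ∧ v ∈ U := fun u v huv =>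
    ⟨H.wU u (cons_mem (H.opw u v huv)).1, H.wU v (cons_mem (H.opw u v huv)).2⟩
  refine ⟨Ins r x {z | z ∈ R} q, hlin, fun v hv => ?_, hnew, fun u v huv => ?_, fun u v huv z hz => ?_,
    fun a b hab => ?_, fun a b hab z hz => ?_, fun a b hab huv => ?_, fun a b a' b' h1 h2 => ?_,
    fun a b a' b' h1 h2 => ?_⟩
  · rcases hwU' v hv with h | h
    · exact Or.inl (H.wU v h)
    · exact Or.inr h
  · rw [cons_app w1 x, show x :: (R ++ y :: w2) = (x :: R) ++ y :: w2 from rfl, cons_app (x :: R) y]
    rcases huv with ⟨h1, h2⟩ | h1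
    · have h3 := H.opw u v h1
      rw [hw, cons_app, cons_two] at h3
      rcases h3 with h3 | h3 | h3
      · exact Or.inl h3
      · exact absurd h3 h2
      · exact Or.inr (Or.inr h3)
    · exact Or.inr (Or.inl h1)
  · rintro ⟨h1, h2⟩
    rcases huv with ⟨h3, h4⟩ | h3
    · obtain ⟨huU, hvU⟩ := hopU u v h3
      rcases hz with hz | hz
      · exact H.opa u v h3 z hz ⟨(hoo u huU z hz).1 h1, (hoo z hz v hvU).1 h2⟩
      · rw [hon u huU z hz] at h1
        rw [hno z hz v hvU] at h2
        rcases h1 with rfl | h1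
        · have hvy : v ≠ y := fun h => h4 ⟨rfl, h⟩
          rcases H.lin.tot v hvU y hyU hvy with h5 | h5
          · exact H.opa _ y hxy v hvU ⟨h2, h5⟩
          · exact H.opa _ v h3 y hyU ⟨hrxy, h5⟩
        · exact H.opa u v h3 x hxU ⟨h1, h2⟩
    · obtain ⟨hu, hv⟩ := cons_mem h3
      by_cases hzl : z ∈ x :: (R ++ [y])
      · exact cons_btw hlin hmidU hmid h3 hzl ⟨h1, h2⟩
      · have hzU : z ∈ U := by
          rcases hz with hz | hz
          · exact hz
          · exact absurd (List.mem_cons_of_mem _ (List.mem_append_left _ hz)) hzl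
        have hzx : z ≠ x := fun h => hzl (by rw [h]; exact List.mem_cons_self)
        have hzy : z ≠ y := fun h => hzl (by rw [h]; simp)
        have huU := hmidU u hu
        have hvU := hmidU v hv
        -- `x` before `z`
        have e1 : Ins r x {z | z ∈ R} q x z := by
          rcases List.mem_cons.1 hu with rfl | h5
          · exact h1
          · exact hlin.tr x (Or.inl hxU) u huU z (Or.inl hzU) ((List.pairwise_cons.1 hmid).1 u h5) h1
        have e2 : Ins r x {z | z ∈ R} q z y := by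
          rcases List.mem_cons.1 hv with h5 | h5
          · rw [h5] at h2
            exact absurd h2 (hlin.as (Or.inl hxU) (Or.inl hzU) e1)
          · rcases List.mem_append.1 h5 with h6 | h6
            · refine hlin.tr z (Or.inl hzU) v hvU y (Or.inl hyU) h2 ?_
              exact (hno v h6 y hyU).2 hrxy
            · rw [List.mem_singleton] at h6
              rw [h6] at h2
              exact h2
        exact H.opa x y hxy z hzU ⟨(hoo x hxU z hzU).1 e1, (hoo z hzU y hyU).1 e2⟩
  · obtain ⟨h1, h2, h3⟩ := H.FU a b hab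
    exact ⟨Or.inl h1, Or.inl h2, (hoo a h1 b h2).2 h3⟩
  · rintro ⟨h1, h2⟩
    obtain ⟨haU, hbU, hrab⟩ := H.FU a b (Or.inr hab)
    rcases hwU' z hz with h3 | h3
    · exact H.noL a b hab z h3 ⟨(hoo a haU z (H.wU z h3)).1 h1, (hoo z (H.wU z h3) b hbU).1 h2⟩
    · rw [hon a haU z h3] at h1
      rw [hno z h3 b hbU] at h2
      rcases h1 with rfl | h1
      · by_cases hby : b = y
        · rw [hby] at hab
          exact H.noP _ y hab hxy
        · rcases H.lin.tot b hbU y hyU hby with h5 | h5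
          · exact H.opa _ y hxy b hbU ⟨h2, h5⟩
          · exact H.noL _ b hab y hyw ⟨hrxy, h5⟩
      · exact H.noL a b hab x hxw ⟨h1, h2⟩
  · obtain ⟨haU, hbU, hrab⟩ := H.FU a b (Or.inr hab)
    rcases huv with ⟨h3, -⟩ | h3
    · exact H.noP a b hab h3
    · obtain ⟨hu, hv⟩ := cons_mem h3
      have e1 : ∀ z ∈ x :: (R ++ [y]), z ∈ U → z = x ∨ z = y := by
        intro z hz hzU
        rcases List.mem_cons.1 hz with h5 | h5
        · exact Or.inl h5
        · rcases List.mem_append.1 h5 with h6 | h6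
          · exact absurd h6 (hd z hzU)
          · exact Or.inr (List.mem_singleton.1 h6)
      rcases e1 a hu haU with h5 | h5 <;> rcases e1 b hv hbU with h6 | h6
      · rw [h5, h6] at hrab
        exact H.lin.irr x hxU hrab
      · rw [h5, h6] at hab
        exact H.noP x y hab hxy
      · rw [h5, h6] at hrab
        exact H.lin.as hxU hyU hrxy hrab
      · rw [h5, h6] at hrab
        exact H.lin.irr y hyU hrab
  · obtain ⟨haU, hbU, -⟩ := H.FU a b (Or.inl h1)
    obtain ⟨haU', hbU', -⟩ := H.FU a' b' (Or.inl h2)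
    rw [hoo a haU a' haU', hoo a' haU' b hbU, hoo b hbU b' hbU']
    exact H.x1 a b a' b' h1 h2
  · obtain ⟨haU, hbU, -⟩ := H.FU a b (Or.inr h1)
    obtain ⟨haU', hbU', -⟩ := H.FU a' b' (Or.inr h2)
    rw [hoo a haU a' haU', hoo a' haU' b hbU, hoo b hbU b' hbU']
    exact H.x0 a b a' b' h1 h2

end Pool.Agent.W_a4f561_h34
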