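import Pool.Agent.W_a4f561_h34.WaA

/-!
MP_a4f561_co (BipLattice): every element not on a wall is on exactly one side, and an edge is on the
same side as its end points (if they are not on the wall).
-/

set_option autoImplicit false

namespace Pool.Agent.W_a4f561_h34

open Sum Pool.Agent.W_a4f561_h25

variable {V E : Type}

/-- The mirror image. -/
def mir (P : Pl V E) : Pl V E where
  tl := P.tl
  hd := P.hd
  lo := P.ro
  ro := P.lo
  lo_irr := P.ro_irr
  lo_tr := P.ro_tr
  lo_tot := P.ro_tot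
  ro_irr := P.lo_irr
  ro_tr := P.lo_tr
  ro_tot := P.lo_tot
  tl_lo := P.tl_ro
  tl_ro := P.tl_lo
  hd_lo := P.hd_ro
  hd_ro := P.hd_lo
  dn_e := fun x e h1 h2 => (P.dn_e x e h2 h1).imp_right And.symm
  up_e := fun x e h1 h2 => (P.up_e x e h2 h1).imp_right And.symm
  dn_v := fun x v h1 h2 => by
    obtain ⟨r, h3, h4⟩ := P.dn_v x v h2 h1
    exact ⟨r, h3, h4.imp_right And.symm⟩
  up_v := fun x v h1 h2 => by
    obtain ⟨r, h3, h4⟩ := P.up_v x v h2 h1
    exact ⟨r, h3, h4.imp_right And.symm⟩

variable {P : Pl V E} {s t : V} {W : List E}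

theorem mir_bl {x y : V ⊕ E} : Bl (mir P) x y ↔ Bl P x y := And.comm

theorem mir_rg {x : V ⊕ E} : Rg (mir P) W x ↔ Lg P W x := by
  constructor
  · rintro ⟨e, he, h1, h2⟩
    exact ⟨e, he, h2, h1⟩
  · rintro ⟨e, he, h1, h2⟩
    exact ⟨e, he, h2, h1⟩

theorem mir_stp (h : StP P s t) : StP (mir P) s t := ⟨h.src, h.snk, h.inn, h.out⟩

/-- Everything except `s` is above `s`, everything except `t` is below `t`. (`inn` / `out` and well founded
induction along `lo`.) -/
theorem bl_s [Finite V] [Finite E] (h : StP P s t) {x : V ⊕ E} (hx : x ≠ inl s) :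
    Bl P (inl s) x := by
  have : IsTrans (V ⊕ E) P.lo := ⟨fun a b c => P.lo_tr a b c⟩
  have : Std.Irrefl P.lo := ⟨P.lo_irr⟩
  have hwf : WellFounded P.lo := Finite.wellFounded_of_trans_of_irrefl P.lo
  revert hx
  refine hwf.induction (C := fun x => x ≠ inl s → Bl P (inl s) x) x ?_
  intro y ih hy
  cases y with
  | inl v =>
    have hv : v ≠ s := fun h1 => hy (by rw [h1])
    obtain ⟨e, he⟩ := h.inn v hv
    subst he
    exact (ih (inr e) (P.hd_lo e) (by simp)).tr (bl_hd e)
  | inr e =>
    by_cases h1 : P.tl e = s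
    · rw [← h1]
      exact bl_tl e
    · exact (ih (inl (P.tl e)) (P.tl_lo e) (fun h2 => h1 (by injection h2))).tr (bl_tl e)

theorem bl_t [Finite V] [Finite E] (h : StP P s t) {x : V ⊕ E} (hx : x ≠ inl t) :
    Bl P x (inl t) := by
  have : IsTrans (V ⊕ E) (fun a b => P.lo b a) := ⟨fun a b c h1 h2 => P.lo_tr c b a h2 h1⟩
  have : Std.Irrefl (fun a b : V ⊕ E => P.lo b a) := ⟨P.lo_irr⟩
  have hwf : WellFounded (fun a b : V ⊕ E => P.lo b a) :=
    Finite.wellFounded_of_trans_of_irrefl _
  revert hx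
  refine hwf.induction (C := fun x => x ≠ inl t → Bl P x (inl t)) x ?_
  intro y ih hy
  cases y with
  | inl v =>
    have hv : v ≠ t := fun h1 => hy (by rw [h1])
    obtain ⟨e, he⟩ := h.out v hv
    subst he
    exact (bl_tl e).tr (ih (inr e) (P.tl_lo e) (by simp))
  | inr e =>
    by_cases h1 : P.hd e = t
    · rw [← h1]
      exact bl_hd e
    · exact (bl_hd e).tr (ih (inl (P.hd e)) (P.hd_lo e) (fun h2 => h1 (by injection h2)))

private theorem WaB_turn [Finite V] [Finite E] (h : StP P s t) {a : V}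
    (hW : Pa P.tl P.hd a W t) {x : V ⊕ E} (ha : Bl P (inl a) x)
    (hx : ∀ v, On P a W v → x ≠ inl v) (hx' : ∀ e ∈ W, x ≠ inr e) :
    ∃ e ∈ W, Bl P (inl (P.tl e)) x ∧ (P.L (inr e) x ∨ P.L x (inr e)) ∧
      ∀ e' ∈ W, (Bl P (inr e') x → e' ≠ e ∧ Bl P (inr e') (inr e)) := by
  induction W generalizing a with
  | nil =>
    have h1 : a = t := hW
    subst h1
    exact absurd (ha.tr (bl_t h (hx a (Or.inl rfl)))) bl_irr
  | cons e W ih =>
    have hpw := pa_pw hW
    rw [List.pairwise_cons] at hpw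
    obtain ⟨h1, h2⟩ := hW
    subst h1
    rcases four (hx' e List.mem_cons_self).symm with h3 | h3 | h3 | h3
    · rcases P.up_e x e h3.1 h3.2 with h4 | h4
      · exact absurd h4 (hx (P.hd e) (Or.inr ⟨e, List.mem_cons_self, rfl⟩))
      · obtain ⟨e1, he1, h5, h6, h7⟩ := ih h2 (a := P.hd e) h4
          (fun v hv => hx v (by
            rcases hv with hv | ⟨e2, he2, hv⟩
            · exact Or.inr ⟨e, List.mem_cons_self, hv.symm⟩
            · exact Or.inr ⟨e2, List.mem_cons_of_mem _ he2, hv⟩))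
          (fun e2 he2 => hx' e2 (List.mem_cons_of_mem _ he2))
        refine ⟨e1, List.mem_cons_of_mem _ he1, h5, h6, fun e' he' h8 => ?_⟩
        rcases List.mem_cons.1 he' with h9 | h9
        · subst h9
          have h10 := hpw.1 e1 he1
          refine ⟨?_, h10⟩
          intro h11
          rw [h11] at h10
          exact bl_irr h10
        · exact h7 e' h9 h8
    · rcases P.dn_e x e h3.1 h3.2 with h4 | h4
      · exact absurd h4 (hx (P.tl e) (Or.inl rfl))
      · exact absurd (ha.tr h4) bl_irr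
    · refine ⟨e, List.mem_cons_self, ha, Or.inl h3, fun e' he' h8 => ?_⟩
      have h9 : Bl P (inr e) x := by
        rcases List.mem_cons.1 he' with h9 | h9
        · rw [← h9]
          exact h8
        · exact Bl.tr (hpw.1 e' h9) h8
      exact absurd (P.ro_tr _ _ _ h9.2 h3.2) (P.ro_irr _)
    · refine ⟨e, List.mem_cons_self, ha, Or.inr h3, fun e' he' h8 => ?_⟩
      have h9 : Bl P (inr e) x := by
        rcases List.mem_cons.1 he' with h9 | h9
        · rw [← h9]
          exact h8
        · exact Bl.tr (hpw.1 e' h9) h8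
      exact absurd (P.lo_tr _ _ _ h9.1 h3.1) (P.lo_irr _)

/-- The last wall edge below an edge `g` which is not on the wall: the next vertex `u` of the wall is below
`g` and the next edge of the wall is side by side with `g`. The same for a vertex `v` not on the wall.

Proof: induction on `W` from the left, for a path from any `a` with `Bl P (inl a) x`, ending at `t`
(`Bl P x (inl t)`): `W = e :: W'` with `tl e = a`. If `Bl P (inr e) x` then `x = inl (hd e)` or `hd e` is
below `x` (`up_e`); the first is excluded as `x` is not on the wall; use induction. Otherwise `e` and `x` are not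
comparable: `Bl P x (inr e)` would give `x = a` or `x` below `a` (`dn_e`). (`W = []` is impossible: `a = t`.) -/
theorem turn [Finite V] [Finite E] (h : StP P s t) (hW : Pa P.tl P.hd s W t) {x : V ⊕ E}
    (hx : ∀ v, On P s W v → x ≠ inl v) (hx' : ∀ e ∈ W, x ≠ inr e) :
    ∃ e ∈ W, Bl P (inl (P.tl e)) x ∧ (P.L (inr e) x ∨ P.L x (inr e)) ∧
      ∀ e' ∈ W, (Bl P (inr e') x → e' ≠ e ∧ Bl P (inr e') (inr e)) :=
  WaB_turn h hW (bl_s h (hx s (Or.inl rfl))) hx hx'

theorem side [Finite V] [Finite E] (h : StP P s t) (hW : Pa P.tl P.hd s W t) {x : V ⊕ E}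
    (hx : ∀ v, On P s W v → x ≠ inl v) (hx' : ∀ e ∈ W, x ≠ inr e) : Rg P W x ∨ Lg P W x := by
  obtain ⟨e, he, -, h1 | h1, -⟩ := turn h hW hx hx'
  · exact Or.inl ⟨e, he, h1⟩
  · exact Or.inr ⟨e, he, h1⟩

end Pool.Agent.W_a4f561_h34
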