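import Pool.Agent.W_a4f561_h34.WaB

/-!
MP_a4f561_co (BipLattice): an edge is on the same side of a wall as its end points (if they are not on the
wall).
-/

set_option autoImplicit false

namespace Pool.Agent.W_a4f561_h34

open Sum Pool.Agent.W_a4f561_h25

variable {V E : Type} {P : Pl V E} {s t : V} {W : List E}

private theorem WaC_no (P : Pl V E) {x y : V ⊕ E} (h1 : P.ro x y) (h2 : P.ro y x) : False :=
  P.ro_irr _ (P.ro_tr _ _ _ h1 h2)

private theorem WaC_no' (P : Pl V E) {x y : V ⊕ E} (h1 : P.lo x y) (h2 : P.lo y x) : False :=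
  P.lo_irr _ (P.lo_tr _ _ _ h1 h2)

/-- The tail of an edge of a path is on the path. -/
private theorem WaC_tl {a b : V} (h : Pa P.tl P.hd a W b) {e : E} (he : e ∈ W) :
    On P a W (P.tl e) := by
  induction W generalizing a with
  | nil => exact absurd he (List.not_mem_nil)
  | cons e0 W ih =>
    obtain ⟨h1, h2⟩ := h
    rcases List.mem_cons.1 he with rfl | h3
    · exact Or.inl h1
    · rcases ih h2 h3 with h4 | ⟨e1, h4, h5⟩
      · exact Or.inr ⟨e0, List.mem_cons_self, h4.symm⟩
      · exact Or.inr ⟨e1, List.mem_cons_of_mem _ h4, h5⟩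

private theorem WaC_hd_fwd [Finite V] [Finite E] (h : StP P s t) (hW : Pa P.tl P.hd s W t) {g : E}
    (hv : ¬ On P s W (P.hd g)) (hr : Rg P W (inl (P.hd g))) : Rg P W (inr g) := by
  obtain ⟨e, he, h1, h2, -⟩ := turn h hW (x := inl (P.hd g))
    (fun v hv' e => hv (by rw [Sum.inl.inj e]; exact hv')) (fun e _ => Sum.inl_ne_inr)
  have h3 : P.L (inr e) (inl (P.hd g)) := by
    rcases h2 with h2 | h2
    · exact h2
    · exact (not_both hW hr ⟨e, he, h2⟩).elim
  have hne : (inr g : V ⊕ E) ≠ inr e := by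
    intro h4
    exact hv (Or.inr ⟨e, he, by rw [Sum.inr.inj h4]⟩)
  rcases four (P := P) hne with h4 | h4 | h4 | h4
  · exfalso
    rcases P.dn_e _ _ h4.1 h4.2 with h5 | ⟨h5, h6⟩
    · exact Sum.inr_ne_inl h5
    · rcases P.up_e _ _ h5 h6 with h7 | ⟨h7, h8⟩
      · rw [h7] at h1
        exact bl_irr h1
      · exact WaC_no P h8 h1.2
  · exact (WaC_no P (P.ro_tr _ _ _ h4.2 (P.hd_ro g)) h3.2).elim
  · exact (WaC_no P (P.ro_tr _ _ _ h4.2 (P.hd_ro g)) h3.2).elim
  · exact ⟨e, he, h4⟩

private theorem WaC_tl_fwd [Finite V] [Finite E] (h : StP P s t) (hW : Pa P.tl P.hd s W t) {g : E}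
    (hv : ¬ On P s W (P.tl g)) (hr : Rg P W (inl (P.tl g))) : Rg P W (inr g) := by
  obtain ⟨e, he, h1, h2, -⟩ := turn h hW (x := inr g)
    (fun v _ => Sum.inr_ne_inl) (fun e he h4 => hv (by rw [Sum.inr.inj h4]; exact WaC_tl hW he))
  rcases h2 with h2 | h2
  · exact ⟨e, he, h2⟩
  exfalso
  have hte : P.tl e ≠ P.tl g := fun h3 => hv (by rw [← h3]; exact WaC_tl hW he)
  have h3 : Bl P (inl (P.tl e)) (inl (P.tl g)) := by
    rcases P.dn_e _ _ h1.1 h1.2 with h5 | h5
    · exact (hte (Sum.inl.inj h5)).elim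
    · exact h5
  rcases four (P := P) (Sum.inl_ne_inr (a := P.tl g) (b := e)) with h4 | h4 | h4 | h4
  · rcases P.dn_e _ _ h4.1 h4.2 with h5 | h5
    · exact hte (Sum.inl.inj h5).symm
    · exact WaC_no P h5.2 h3.2
  · exact WaC_no' P (P.lo_tr _ _ _ h4.1 (P.tl_lo g)) h2.1
  · exact not_both hW hr ⟨e, he, h4⟩
  · exact WaC_no' P (P.lo_tr _ _ _ h4.1 (P.tl_lo g)) h2.1

/-- An edge is on the same side as its head, if the head is not on the wall.

Proof (`→` suffices, the other direction by `side`, `not_both` and `mir`): let `v = hd g` be right of `W` and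
suppose that `g` is left of `W` (`side`): `L g w`. Take the edge `e` of the wall from `turn` for `v`, `u = tl e`
below `v`, `L e v` (`not_both`). `g` against `e`: `e` below `g` is impossible (`e` would be below `v`); `g` below
`e` gives `g` below or equal `u` (`dn_e`), so `v` is `u` or below `u` (`up_e`), impossible; `L e g` contradicts
`not_both`; `L g e`: `ro e g` and `ro g v` give `ro e v`, contradicting `L e v`. -/
theorem side_hd [Finite V] [Finite E] (h : StP P s t) (hW : Pa P.tl P.hd s W t) {g : E}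
    (hv : ¬ On P s W (P.hd g)) : Rg P W (inl (P.hd g)) ↔ Rg P W (inr g) := by
  constructor
  · exact WaC_hd_fwd h hW hv
  · intro h1
    rcases side h hW (x := inl (P.hd g))
      (fun v hv' e => hv (by rw [Sum.inl.inj e]; exact hv')) (fun e _ => Sum.inl_ne_inr) with h2 | h2
    · exact h2
    · exfalso
      have h3 : Rg (mir P) W (inr g) :=
        WaC_hd_fwd (P := mir P) (mir_stp h) hW hv (mir_rg.2 h2)
      exact not_both hW h1 (mir_rg.1 h3)

/-- The same for the tail. Proof: let `v = tl g` be right of `W`, `L w v`, and suppose that `g` is left of `W`,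
`L g w'`. Take `e` from `turn` for the edge `g`: `tl e` is below `g`, so it is below `v` or equal (`dn_e`; not equal,
`v` is not on the wall), and `L g e` (`not_both`). `v` against `e`: `e` below `v` is impossible (`e` below `g`); `v`
below `e` gives `v` below `tl e`, impossible; `L v e` contradicts `not_both`; `L e v`: `lo e v`, `lo v g` give
`lo e g`, contradicting `L g e`. -/
theorem side_tl [Finite V] [Finite E] (h : StP P s t) (hW : Pa P.tl P.hd s W t) {g : E}
    (hv : ¬ On P s W (P.tl g)) : Rg P W (inl (P.tl g)) ↔ Rg P W (inr g) := by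
  constructor
  · exact WaC_tl_fwd h hW hv
  · intro h1
    rcases side h hW (x := inl (P.tl g))
      (fun v hv' e => hv (by rw [Sum.inl.inj e]; exact hv')) (fun e _ => Sum.inl_ne_inr) with h2 | h2
    · exact h2
    · exfalso
      have h3 : Rg (mir P) W (inr g) :=
        WaC_tl_fwd (P := mir P) (mir_stp h) hW hv (mir_rg.2 h2)
      exact not_both hW h1 (mir_rg.1 h3)

end Pool.Agent.W_a4f561_h34
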