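import Pool.Agent.W_a4f561_h34.WaA

/-!
MP_a4f561_co (BipLattice): leftmost paths.
-/

set_option autoImplicit false

namespace Pool.Agent.W_a4f561_h34

open Sum Pool.Agent.W_a4f561_h25

variable {V E : Type} {P : Pl V E} {s t : V} {W : List E}

/-- `e` is the leftmost edge out of its tail. -/
def Lm (P : Pl V E) (e : E) : Prop := ∀ h, P.tl h = P.tl e → h = e ∨ P.L (inr e) (inr h)

/-- Two edges with the same tail are side by side. -/
theorem same_tl {e e' : E} (h : P.tl e = P.tl e') (hne : e ≠ e') :
    P.L (inr e) (inr e') ∨ P.L (inr e') (inr e) := by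
  have key : ∀ a b : E, P.tl a = P.tl b → ¬ Bl P (inr a) (inr b) := by
    intro a b hab h1
    rcases P.dn_e _ _ h1.1 h1.2 with h2 | ⟨h2, _⟩
    · simp at h2
    · rw [← hab] at h2
      exact P.lo_irr _ (P.lo_tr _ _ _ h2 (P.tl_lo a))
  have hne' : (inr e : V ⊕ E) ≠ inr e' := fun h1 => hne (inr_injective h1)
  rcases four (P := P) hne' with h1 | h1 | h1 | h1
  · exact absurd h1 (key _ _ h)
  · exact absurd h1 (key _ _ h.symm)
  · exact Or.inl h1
  · exact Or.inr h1

theorem exists_lm [Finite E] {v : V} (hv : ∃ e, P.tl e = v) : ∃ e, P.tl e = v ∧ Lm P e := by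
  have wf : WellFounded (fun a b : E => P.lo (inr a) (inr b)) := by
    have : IsTrans E (fun a b : E => P.lo (inr a) (inr b)) := ⟨fun _ _ _ => P.lo_tr _ _ _⟩
    have : Std.Irrefl (fun a b : E => P.lo (inr a) (inr b)) := ⟨fun _ => P.lo_irr _⟩
    exact Finite.wellFounded_of_trans_of_irrefl _
  obtain ⟨e, he, hmin⟩ := wf.has_min {e | P.tl e = v} hv
  refine ⟨e, he, fun h hh => ?_⟩
  by_cases hne : h = e
  · exact Or.inl hne
  · rcases same_tl hh hne with h1 | h1
    · exact absurd h1.1 (hmin h (hh.trans he))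
    · exact Or.inr h1

/-- A path of leftmost edges: nothing reachable from its start is left of it.

Proof: induction on `Q = e1 :: Q'`. If `v0 = tl g`: `g = e1` or `L e1 g` (`Lm`). Otherwise (`up_v`) some edge `r` with
`tl r = v0` is below `tl g`, `r = e1` or `L e1 r`. If `e1` is below `g` then `hd e1` is equal or below `tl g`
(`up_e`, `dn_e`): induction for `Q'`, and `L g e1` is impossible. Otherwise `L e1 g` (`g` below `e1` would give `g`
below `v0`; `L g e1` contradicts `lo e1 r`, `lo r g`), so `ro g e1`, and for all `e` in `Q` `ro g e`. -/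
theorem lm_left {v0 u : V} {Q : List E} (hQ : Pa P.tl P.hd v0 Q u) (hl : ∀ e ∈ Q, Lm P e) {g : E}
    (hg : v0 = P.tl g ∨ Bl P (inl v0) (inl (P.tl g))) {e : E} (he : e ∈ Q) :
    ¬ P.L (inr g) (inr e) := by
  induction Q generalizing v0 with
  | nil => simp at he
  | cons e1 Q ih =>
    obtain ⟨h1, h2⟩ := hQ
    have hpw := pa_pw (P := P) (a := v0) (W := e1 :: Q) (b := u) ⟨h1, h2⟩
    have hch : e = e1 ∨ Bl P (inr e1) (inr e) := by
      rcases List.mem_cons.1 he with h3 | h3
      · exact Or.inl h3
      · exact Or.inr ((List.pairwise_cons.1 hpw).1 e h3)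
    have hlm : Lm P e1 := hl e1 (by simp)
    -- `g` is right of `e1`
    have key1 : P.ro (inr g) (inr e1) → ¬ P.L (inr g) (inr e) := by
      intro h3 h4
      rcases hch with h5 | h5
      · rw [h5] at h4
        exact P.ro_irr _ (P.ro_tr _ _ _ h3 h4.2)
      · exact P.ro_irr _ (P.ro_tr _ _ _ h3 (P.ro_tr _ _ _ h5.2 h4.2))
    -- `e1` is below the tail of `g`
    have key2 : Bl P (inr e1) (inl (P.tl g)) → ¬ P.L (inr g) (inr e) := by
      intro h3 h4
      rcases List.mem_cons.1 he with h5 | h5
      · rw [h5] at h4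
        exact P.lo_irr _ (P.lo_tr _ _ _ (h3.tr (bl_tl g)).1 h4.1)
      · refine ih h2 (fun e' he' => hl e' (List.mem_cons_of_mem _ he')) ?_ h5 h4
        rcases P.up_e _ _ h3.1 h3.2 with h6 | h6
        · exact Or.inl (inl_injective h6).symm
        · exact Or.inr h6
    rcases hg with hg | hg
    · rcases hlm g (hg.symm.trans h1.symm) with h3 | h3
      · subst h3
        intro h4
        rcases hch with h5 | h5
        · rw [h5] at h4
          exact P.lo_irr _ h4.1
        · exact P.ro_irr _ (P.ro_tr _ _ _ h5.2 h4.2)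
      · exact key1 h3.2
    · obtain ⟨r, hr, h3 | h3⟩ := P.up_v _ _ hg.1 hg.2
      · simp at h3
      · have h3' : Bl P (inr r) (inl (P.tl g)) := h3
        rcases hlm r (hr.trans h1.symm) with h4 | h4
        · rw [h4] at h3'
          exact key2 h3'
        · have h5 : Bl P (inr r) (inr g) := h3'.tr (bl_tl g)
          have h6 : P.lo (inr e1) (inr g) := P.lo_tr _ _ _ h4.1 h5.1
          have hne : (inr e1 : V ⊕ E) ≠ inr g := fun h7 => P.lo_irr _ (h7 ▸ h6)
          rcases P.ro_tot _ _ hne with h7 | h7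
          · rcases P.dn_e _ _ h6 h7 with h8 | h8
            · simp at h8
            · exact key2 h8
          · exact key1 h7

end Pool.Agent.W_a4f561_h34
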