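import Pool.Agent.W_a4f561_h34.WaD
import Pool.Agent.W_a4f561_h34.WaB

/-!
MP_a4f561_co (BipLattice): existence of leftmost paths, the first wall.
-/

set_option autoImplicit false

namespace Pool.Agent.W_a4f561_h34

open Sum Pool.Agent.W_a4f561_h25

variable {V E : Type} {P : Pl V E} {s t : V} {W : List E}

/-- A leftmost path upwards from a vertex to the first vertex in `S`. -/
private theorem WaE_aux [Finite V] [Finite E] (h : StP P s t) (S : V → Prop) (hS : S t) (v : V) :
    ∃ (Q : List E) (u : V), Pa P.tl P.hd v Q u ∧ S u ∧ (∀ e ∈ Q, Lm P e) ∧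
      (Q ≠ [] → ¬ S v) ∧ ∀ e ∈ Q.dropLast, ¬ S (P.hd e) := by
  have hwf : WellFounded fun a b : V => Bl P (inl b) (inl a) := by
    haveI : IsTrans V fun a b : V => Bl P (inl b) (inl a) := ⟨fun _ _ _ h1 h2 => h2.tr h1⟩
    haveI : Std.Irrefl fun a b : V => Bl P (inl b) (inl a) := ⟨fun _ => bl_irr⟩
    exact Finite.wellFounded_of_trans_of_irrefl _
  induction v using hwf.induction with
  | _ v ih =>
    by_cases hv : S v
    · exact ⟨[], v, rfl, hv, by simp, fun h1 => absurd rfl h1, by simp⟩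
    · have hvt : v ≠ t := fun h1 => hv (h1 ▸ hS)
      obtain ⟨e, he, hl⟩ := exists_lm (P := P) (h.out v hvt)
      obtain ⟨Q, u, h1, h2, h3, h4, h5⟩ := ih (P.hd e) (he ▸ (bl_tl e).tr (bl_hd e))
      refine ⟨e :: Q, u, ⟨he, h1⟩, h2, ?_, fun _ => hv, ?_⟩
      · intro e' he'
        rcases List.mem_cons.1 he' with rfl | h6
        · exact hl
        · exact h3 e' h6
      · intro e' he'
        by_cases hQ : Q = []
        · rw [hQ] at he'
          simp at he'
        · rw [List.dropLast_cons_of_ne_nil hQ] at he'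
          rcases List.mem_cons.1 he' with rfl | h6
          · exact h4 hQ
          · exact h5 e' h6

/-- A leftmost path upwards from an edge `f` to the first vertex in `S`. (Induction: the set of elements
above `hd f` is finite.) -/
theorem exists_path [Finite V] [Finite E] (h : StP P s t) (S : V → Prop) (hS : S t) (f : E) :
    ∃ (Q : List E) (u : V), Pa P.tl P.hd (P.tl f) (f :: Q) u ∧ S u ∧ (∀ e ∈ Q, Lm P e) ∧
      ∀ e ∈ (f :: Q).dropLast, ¬ S (P.hd e) := by
  obtain ⟨Q, u, h1, h2, h3, h4, h5⟩ := WaE_aux h S hS (P.hd f)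
  refine ⟨Q, u, ⟨rfl, h1⟩, h2, h3, ?_⟩
  intro e he
  by_cases hQ : Q = []
  · rw [hQ] at he
    simp at he
  · rw [List.dropLast_cons_of_ne_nil hQ] at he
    rcases List.mem_cons.1 he with rfl | h6
    · exact h4 hQ
    · exact h5 e h6

/-- The first wall. -/
theorem first_wall [Finite V] [Finite E] (h : StP P s t) (hst : s ≠ t) :
    ∃ W, Pa P.tl P.hd s W t ∧ ∀ g, ¬ Rg P W (inr g) → g ∈ W := by
  obtain ⟨W, u, h1, h2, h3, -, -⟩ := WaE_aux h (fun v => v = t) rfl s
  rw [h2] at h1
  refine ⟨W, h1, fun g hg => ?_⟩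
  by_contra hgW
  have h4 := side h h1 (x := inr g) (fun v _ h5 => by simp at h5)
    (fun e he h5 => hgW (by rw [inr.inj h5]; exact he))
  rcases h4 with h5 | ⟨e, he, h5⟩
  · exact hg h5
  · refine lm_left h1 h3 (g := g) ?_ he h5
    by_cases h6 : P.tl g = s
    · exact Or.inl h6.symm
    · exact Or.inr (bl_s h fun h7 => h6 (inl.inj h7))

end Pool.Agent.W_a4f561_h34
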