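import Pool.Agent.W_a4f561_h34.WaE
import Pool.Agent.W_a4f561_h34.WaC

/-!
MP_a4f561_co (BipLattice): the next face right of a wall.
-/

set_option autoImplicit false

namespace Pool.Agent.W_a4f561_h34

open Sum Pool.Agent.W_a4f561_h25

variable {V E : Type} {P : Pl V E} {s t : V} {W : List E}

private theorem WaF_end {a b : V} (h : Pa P.tl P.hd a W b) : a = b ∨ Bl P (inl a) (inl b) := by
  cases W with
  | nil => exact Or.inl h
  | cons e W =>
    have h1 := (pa_lo (P := P) h (List.mem_cons_self (a := e) (l := W))).2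
    obtain ⟨h2, -⟩ := h
    subst h2
    right
    rcases h1 with h1 | h1
    · rw [← h1]
      exact (bl_tl e).tr (bl_hd e)
    · exact ((bl_tl e).tr (bl_hd e)).tr h1

/-- The end of a path is on it. -/
private theorem WaF_on {a b : V} (h : Pa P.tl P.hd a W b) : On P a W b := by
  induction W generalizing a with
  | nil => exact Or.inl h.symm
  | cons e W ih =>
    rcases ih h.2 with h1 | ⟨e', h1, h2⟩
    · exact Or.inr ⟨e, List.mem_cons_self, h1.symm⟩
    · exact Or.inr ⟨e', List.mem_cons_of_mem _ h1, h2⟩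

/-- A path which starts right of the wall with an edge and does not meet the wall inside stays right of it. -/
private theorem WaF_rg [Finite V] [Finite E] (h : StP P s t) (hW : Pa P.tl P.hd s W t) {Q : List E}
    {f : E} {a u : V} (hQ : Pa P.tl P.hd a (f :: Q) u) (hf : Rg P W (inr f))
    (hd : ∀ e ∈ (f :: Q).dropLast, ¬ On P s W (P.hd e)) : ∀ e ∈ f :: Q, Rg P W (inr e) := by
  induction Q generalizing f a with
  | nil =>
    intro e he
    rw [List.mem_singleton.1 he]
    exact hf
  | cons g Q ih =>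
    intro e he
    rcases List.mem_cons.1 he with h1 | h1
    · rw [h1]
      exact hf
    · have h2 : ¬ On P s W (P.hd f) := hd f (by simp)
      have h3 : Rg P W (inl (P.hd f)) := (side_hd h hW h2).2 hf
      obtain ⟨-, h4⟩ := hQ
      have h5 : P.tl g = P.hd f := h4.1
      rw [← h5] at h2 h3
      have h6 : Rg P W (inr g) := (side_tl h hW h2).1 h3
      refine ih h4 h6 ?_ e h1
      intro e' he'
      refine hd e' ?_
      rw [List.dropLast_cons_of_ne_nil (List.cons_ne_nil _ _)]
      exact List.mem_cons_of_mem _ he'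

private theorem WaF_min [Finite E] (hne : ∃ g, Rg P W (inr g)) :
    ∃ f, Rg P W (inr f) ∧ ∀ g, Rg P W (inr g) → ¬ P.lo (inr g) (inr f) := by
  have wf : WellFounded (fun a b : E => P.lo (inr a) (inr b)) := by
    have : IsTrans E (fun a b : E => P.lo (inr a) (inr b)) := ⟨fun _ _ _ => P.lo_tr _ _ _⟩
    have : Std.Irrefl (fun a b : E => P.lo (inr a) (inr b)) := ⟨fun _ => P.lo_irr _⟩
    exact Finite.wellFounded_of_trans_of_irrefl _
  obtain ⟨f, hf, hmin⟩ := wf.has_min {g | Rg P W (inr g)} hne
  exact ⟨f, hf, hmin⟩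

/-- The tail of the least edge right of the wall is on the wall. -/
private theorem WaF_tl [Finite V] [Finite E] (h : StP P s t) (hW : Pa P.tl P.hd s W t) {f : E}
    (hf : Rg P W (inr f)) (hmin : ∀ g, Rg P W (inr g) → ¬ P.lo (inr g) (inr f)) :
    On P s W (P.tl f) := by
  by_contra h1
  have h2 : Rg P W (inl (P.tl f)) := (side_tl h hW h1).2 hf
  have h3 : P.tl f ≠ s := fun h4 => h1 (Or.inl h4)
  obtain ⟨e, he⟩ := h.inn _ h3
  rw [← he] at h1 h2
  have h4 : Rg P W (inr e) := (side_hd h hW h1).1 h2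
  refine hmin e h4 ?_
  have h5 := P.hd_lo e
  rw [he] at h5
  exact P.lo_tr _ _ _ h5 (P.tl_lo f)

/-- The next face. `f` is the `lo`-least edge right of `W`; its tail is on `W` (otherwise an edge into `tl f`
would be right of `W` (`side_tl`, `side_hd`) and `lo`-smaller), `Q` is the path of `exists_path` for `f` and
`S = On P s W`; all edges of `f :: Q` are right of `W` (`side_hd`, `side_tl` at the inner vertices). `g` right of `W`,
not in `f :: Q`, is right of the new wall: otherwise (`side`) it is left of it, so `L g e` with `e` in `f :: Q`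
(`not_both` for `W`); `e = f` contradicts the choice of `f`; for `e` in `Q`: `lo f g`, `ro f e`, `ro e g`, so `f` is
below `g`, contradicting `lm_left` for `Q`. -/
theorem next_face [Finite V] [Finite E] (h : StP P s t) (hW : Pa P.tl P.hd s W t)
    (hne : ∃ g, Rg P W (inr g)) :
    ∃ (W1 Wm W2 Q : List E) (v u : V), W = W1 ++ (Wm ++ W2) ∧ Pa P.tl P.hd s W1 v ∧
      Pa P.tl P.hd v Wm u ∧ Pa P.tl P.hd v Q u ∧ Pa P.tl P.hd u W2 t ∧ Wm ≠ [] ∧ Q ≠ [] ∧
      (∀ e ∈ Q, Rg P W (inr e)) ∧ (∀ e ∈ Q.dropLast, ¬ On P s W (P.hd e)) ∧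
      ∀ g, Rg P (W1 ++ (Q ++ W2)) (inr g) ↔ Rg P W (inr g) ∧ g ∉ Q := by
  obtain ⟨f, hf, hmin⟩ := WaF_min hne
  have hv := WaF_tl h hW hf hmin
  obtain ⟨Q', u, hQ, hu, hlm, hdl⟩ := exists_path h (On P s W) (WaF_on hW) f
  have hrg := WaF_rg h hW hQ hf hdl
  have hvu : Bl P (inl (P.tl f)) (inl u) := by
    have h1 := (pa_lo (P := P) hQ (List.mem_cons_self (a := f) (l := Q'))).2
    rcases h1 with h1 | h1
    · rw [← h1]
      exact (bl_tl f).tr (bl_hd f)
    · exact ((bl_tl f).tr (bl_hd f)).tr h1
  obtain ⟨W1, W', h1, hW1, hW'⟩ := pa_split hW hv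
  have hu' : On P (P.tl f) W' u := by
    rcases hu with h2 | ⟨e, h2, h3⟩
    · exfalso
      rw [h2] at hvu
      rcases WaF_end hW1 with h4 | h4
      · rw [← h4] at hvu
        exact bl_irr hvu
      · exact bl_irr (h4.tr hvu)
    · rw [h1] at h2
      rcases List.mem_append.1 h2 with h4 | h4
      · exfalso
        rw [← h3] at hvu
        rcases (pa_lo hW1 h4).2 with h5 | h5
        · rw [h5] at hvu
          exact bl_irr hvu
        · exact bl_irr (h5.tr hvu)
      · exact Or.inr ⟨e, h4, h3⟩
  obtain ⟨Wm, W2, h2, hWm, hW2⟩ := pa_split hW' hu'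
  rw [h2] at h1
  have hN : Pa P.tl P.hd s (W1 ++ ((f :: Q') ++ W2)) t :=
    pa_app.2 ⟨_, hW1, pa_app.2 ⟨_, hQ, hW2⟩⟩
  refine ⟨W1, Wm, W2, f :: Q', P.tl f, u, h1, hW1, hWm, hQ, hW2, ?_, List.cons_ne_nil _ _, hrg,
    hdl, ?_⟩
  · intro h3
    rw [h3] at hWm
    have h4 : P.tl f = u := hWm
    rw [← h4] at hvu
    exact bl_irr hvu
  intro g
  constructor
  · rintro h3
    refine ⟨?_, fun h4 => not_rg_mem hN (List.mem_append_right _ (List.mem_append_left _ h4)) h3⟩
    obtain ⟨e, he, h5⟩ := h3
    rcases List.mem_append.1 he with h6 | h6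
    · exact ⟨e, by rw [h1]; exact List.mem_append_left _ h6, h5⟩
    rcases List.mem_append.1 h6 with h7 | h7
    · obtain ⟨w, hw, h8⟩ := hrg e h7
      exact ⟨w, hw, P.lo_tr _ _ _ h8.1 h5.1, P.ro_tr _ _ _ h5.2 h8.2⟩
    · exact ⟨e, by rw [h1]; exact List.mem_append_right _ (List.mem_append_right _ h7), h5⟩
  · rintro ⟨h3, h4⟩
    have hx : ∀ e ∈ W1 ++ ((f :: Q') ++ W2), (inr g : V ⊕ E) ≠ inr e := by
      intro e he h5
      have h6 : g = e := Sum.inr.inj h5
      subst h6
      rcases List.mem_append.1 he with h7 | h7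
      · exact not_rg_mem hW (by rw [h1]; exact List.mem_append_left _ h7) h3
      rcases List.mem_append.1 h7 with h8 | h8
      · exact h4 h8
      · exact not_rg_mem hW
          (by rw [h1]; exact List.mem_append_right _ (List.mem_append_right _ h8)) h3
    rcases side h hN (x := inr g) (fun v _ => Sum.inr_ne_inl) hx with h5 | ⟨e, he, h5⟩
    · exact h5
    · exfalso
      rcases List.mem_append.1 he with h6 | h6
      · exact not_both hW h3 ⟨e, by rw [h1]; exact List.mem_append_left _ h6, h5⟩
      rcases List.mem_append.1 h6 with h7 | h7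
      · rcases List.mem_cons.1 h7 with h8 | h8
        · rw [h8] at h5
          exact hmin g h3 h5.1
        · have hgf : (inr f : V ⊕ E) ≠ inr g := by
            intro h9
            exact h4 (by rw [← Sum.inr.inj h9]; exact List.mem_cons_self)
          have hlo : P.lo (inr f) (inr g) := by
            rcases P.lo_tot _ _ hgf with h9 | h9
            · exact h9
            · exact (hmin g h3 h9).elim
          have hfe : Bl P (inr f) (inr e) := (List.pairwise_cons.1 (pa_pw hQ)).1 e h8
          have hro : P.ro (inr f) (inr g) := P.ro_tr _ _ _ hfe.2 h5.2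
          rcases P.up_e _ _ hlo hro with h9 | h9
          · exact Sum.inr_ne_inl h9
          have h10 : P.hd f = P.tl g ∨ Bl P (inl (P.hd f)) (inl (P.tl g)) := by
            rcases P.dn_e _ _ h9.1 h9.2 with h11 | h11
            · exact Or.inl (Sum.inl.inj h11)
            · exact Or.inr h11
          exact lm_left hQ.2 hlm h10 h8 h5
      · exact not_both hW h3
          ⟨e, by rw [h1]; exact List.mem_append_right _ (List.mem_append_right _ h7), h5⟩

end Pool.Agent.W_a4f561_h34
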